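import Pool.Agent.N963.GN.Stm2

set_option autoImplicit false

/-!
# Third list: differential operators of infinite order from the Laguerre-Polya class (helper963)
-/

namespace Pool.Agent.N963.GN

open Complex Filter Topology MeasureTheory Polynomial
open scoped ComplexConjugate

/-- The Laguerre-Polya class: locally uniform limits, not zero, of real polynomials with real zeros only.
(`Q N = 0` is excluded by the hypothesis.) -/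
def LPc (φ : ℂ → ℂ) : Prop := (∃ z, φ z ≠ 0) ∧ ∃ Q : ℕ → ℝ[X],
  (∀ N (w : ℂ), aeval w (Q N) = 0 → w.im = 0) ∧
    TendstoLocallyUniformly (fun (N : ℕ) (w : ℂ) => aeval w (Q N)) φ atTop

/-- Growth of order less than two. -/
def Gr2 (f : ℂ → ℂ) : Prop := ∃ C ρ : ℝ, 0 ≤ C ∧ 0 ≤ ρ ∧ ρ < 2 ∧ ∀ z : ℂ, ‖f z‖ ≤ Real.exp (C * (1 + ‖z‖) ^ ρ)

/-- The terms of `φ(D) G (z) = ∑ φ_n G^(n)(z)`, where `φ(s) = ∑ φ_n s^n`. -/
noncomputable def trm (φ G : ℂ → ℂ) (z : ℂ) (n : ℕ) : ℂ :=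
  iteratedDeriv n φ 0 / (n.factorial : ℂ) * iteratedDeriv n G z

/-- Task C1: Hadamard with growth less than two. Copy `Pool/Agent/Y275/GL/Had1.lean` (`base1`, `had_main`, `lim1`,
`had_real`, exponent 3/2 there) with a general exponent `ρ < 2`, and `t_H1` of `Pool/Agent/N186/GN/H1.lean` and `h2` of
`Pool/Agent/N400/GN/H2.lean` (`Gro` replaced by `Gr2`). -/
def S_C1 : Prop := ∀ f : ℂ → ℂ, Differentiable ℂ f → Sym f → Gr2 f → (NRZ f).Finite → ∃ m : ℕ, App m f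

/-- Task C2: uniform growth. Choose a real point `s0` with `φ s0 ≠ 0`. For a polynomial `Q` with real roots `x_j`
and `Q s0 ≠ 0`: `Q(s0 + s)/Q(s0) = exp(b s) ∏ (1 - s/y_j) exp(s/y_j)`, `y_j = x_j - s0`, with
`b = Q'(s0)/Q(s0) = - ∑ 1/y_j` and `∑ 1/y_j² = b² - Q''(s0)/Q(s0)`; `‖(1 - w) exp w‖ ≤ exp(‖w‖²/2)` because
`‖1-w‖² = 1 - 2 Re w + ‖w‖² ≤ exp(-2 Re w + ‖w‖²)`. The quantities `Q N (s0)`, `Q N'(s0)`, `Q N''(s0)` converge. -/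
def S_C2 : Prop := ∀ (φ : ℂ → ℂ) (Q : ℕ → ℝ[X]), (∃ z, φ z ≠ 0) →
  (∀ N (w : ℂ), aeval w (Q N) = 0 → w.im = 0) →
  TendstoLocallyUniformly (fun (N : ℕ) (w : ℂ) => aeval w (Q N)) φ atTop →
  ∃ M : ℝ, 0 ≤ M ∧ ∃ N0 : ℕ, ∀ N : ℕ, N0 ≤ N → ∀ s : ℂ, ‖aeval s (Q N)‖ ≤ M * Real.exp (M * ‖s‖ ^ 2)

/-- Task C3: division by a zero. The zeros of `φ` are real and limits of roots `x_N` of `Q N` (Hurwitz, as in A4 of
`Pool/Agent/N768/GN/A.lean` or `ne_zero_of_im` of `Pool/Agent/N252/GN/B.lean`); `Q N = (X - x_N) ψ_N` (for large `N`;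
modify the finitely many others); `ψ_N → ψ` uniformly on discs by the maximum principle. -/
def S_C3 : Prop := ∀ φ : ℂ → ℂ, LPc φ → ∀ a0 : ℂ, φ a0 = 0 →
  a0.im = 0 ∧ ∃ ψ : ℂ → ℂ, LPc ψ ∧ ∀ s, φ s = (s - a0) * ψ s

/-- Task C4: zero-free functions of the class. By C2 `φ = exp h` with `h` a polynomial of degree at most two
(e.g. Borel-Carathéodory: `Re h ≤ C (1 + |s|²)`; or `logDeriv φ` is a limit of `∑ 1/(s - x_j)`), real coefficients,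
and the coefficient of `s²` is `≤ 0` (`(Q'/Q)' = - ∑ 1/(s-x_j)² ≤ 0` on the real line). -/
def S_C4 : Prop := ∀ φ : ℂ → ℂ, LPc φ → (∀ s, φ s ≠ 0) →
  ∃ c β lam : ℝ, c ≠ 0 ∧ 0 ≤ lam ∧ ∀ s : ℂ, φ s = c * cexp (β * s - lam * s ^ 2)

/-- Task C5: the operator `ψ(D)` on functions of order less than two. By Cauchy `‖G^(n)(z)‖ ≤ n! R^(-n)
exp(C (1 + ‖z‖ + R)^ρ)`, `R = n^(1/ρ)` (`ρ ≥ 1` without loss), and `|ψ_n|, |(Q N)_n| ≤ M exp(M R²) R^(-n)`, `R = √n`,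
by C2; so `∑ |(Q N)_n| ‖G^(n)(z)‖` converges uniformly in `N` and `‖z‖ ≤ R`, hence `Q N (D) G → ψ(D) G` locally
uniformly. `Q N (D) G` is in `App m`: `Q N = c ∏ (X - x_j)` with real `x_j`, and `D - x` preserves `App m`
(A3 for `x ≠ 0`: `-x (1 - D/x)`; for `x = 0` it is the limit of `D - x` for `x → 0`, A1). With `φ = (s - a0) ψ`:
`φ_n = ψ_(n-1) - a0 ψ_n`, and the series may be differentiated termwise. A1..A4 = Pool.Agent.N768.GN.a1..a4. -/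
def S_C5 : Prop := S_C2 → ∀ ψ : ℂ → ℂ, LPc ψ → ∀ G : ℂ → ℂ, Differentiable ℂ G → Gr2 G →
  (∀ z, Summable (trm ψ G z)) ∧ Differentiable ℂ (fun z => ∑' n, trm ψ G z n) ∧
  (Sym G → Sym (fun z => ∑' n, trm ψ G z n)) ∧
  (∀ m : ℕ, App m G → App m (fun z => ∑' n, trm ψ G z n)) ∧
  ∀ a0 z : ℂ, HasSum (trm (fun s => (s - a0) * ψ s) G z)
    (deriv (fun z => ∑' n, trm ψ G z n) z - a0 * ∑' n, trm ψ G z n)

/-- Task C6: the Gaussian operator is injective on functions of order less than two, explicit inverse.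
`e(s) = c⁻¹ exp(lam s² - β s)`; `∑_{n,k} |e_n| |φ_k| ‖G^(n+k)(z)‖ < ∞` (`|e_n|, |φ_n| ≤ A^n / √(n!)`-type bounds,
`‖G^(j)(z)‖ ≤ A^j (j!)^(1-1/ρ)`, `1 - 1/ρ < 1/2`, `(n+k)! ≤ 2^(n+k) n! k!`), so `G = ∑ e_n X^(n)`, `X = Lt k`, and
`∑ e_n X^(n)(z) = ∫ k(u) e(i u) exp(i z u) du`. -/
def S_C6 : Prop := ∀ (k : ℝ → ℂ), Wt k → (∀ M : ℝ, Integrable (fun u : ℝ => ‖k u‖ * Real.exp (M * u ^ 2))) →
  ∀ c β lam : ℝ, c ≠ 0 → 0 ≤ lam → ∀ G : ℂ → ℂ, Differentiable ℂ G → Gr2 G →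
    (∀ z : ℂ, HasSum (trm (fun s => c * cexp (β * s - lam * s ^ 2)) G z) (Lt k z)) →
    ∀ z : ℂ, G z = (c : ℂ)⁻¹ * Lt (fun u => k u * ((Real.exp (-(lam * u ^ 2)) : ℝ) : ℂ)) (z - β)

end Pool.Agent.N963.GN
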