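import Pool.Agent.N963.GN.Stm

set_option autoImplicit false

/-! Transforms of weights with exponential moments. -/

namespace Pool.Agent.N963.GN

open Complex Filter Topology MeasureTheory
open scoped ComplexConjugate

lemma Wt.integrable {h : ℝ → ℂ} (hh : Wt h) : Integrable h := by
  have := hh 0
  simpa using this

lemma Wt.aesm {h : ℝ → ℂ} (hh : Wt h) : AEStronglyMeasurable h volume := hh.integrable.1

lemma Wt.norm_int {h : ℝ → ℂ} (hh : Wt h) (M : ℝ) :
    Integrable (fun u : ℝ => ‖h u‖ * Real.exp (M * |u|)) := by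
  have := (hh M).norm
  refine this.congr (Eventually.of_forall fun u => ?_)
  simp only [norm_mul, Complex.norm_real, Real.norm_eq_abs, Real.abs_exp]

lemma Wt.of_norm {h : ℝ → ℂ} (hm : AEStronglyMeasurable h volume)
    (hi : ∀ M : ℝ, 0 ≤ M → Integrable (fun u : ℝ => ‖h u‖ * Real.exp (M * |u|))) : Wt h := by
  intro M
  have hm2 : AEStronglyMeasurable (fun u : ℝ => h u * ((Real.exp (M * |u|) : ℝ) : ℂ)) volume :=
    hm.mul (by fun_prop)
  refine (hi (max M 0) (le_max_right _ _)).mono' hm2 (Eventually.of_forall fun u => ?_)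
  simp only [norm_mul, Complex.norm_real, Real.norm_eq_abs, Real.abs_exp]
  gcongr
  exact le_max_left _ _

lemma Wt.mul_of_bound {h g : ℝ → ℂ} (hh : Wt h) (hm : AEStronglyMeasurable g volume) {C A : ℝ}
    (hg : ∀ u, ‖g u‖ ≤ C * Real.exp (A * |u|)) : Wt (fun u => h u * g u) := by
  intro M
  have h1 := (hh.norm_int (M + A)).const_mul C
  refine h1.mono' ((hh.aesm.mul hm).mul (by fun_prop)) (Eventually.of_forall fun u => ?_)
  simp only [norm_mul, Complex.norm_real, Real.norm_eq_abs, Real.abs_exp]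
  calc ‖h u‖ * ‖g u‖ * Real.exp (M * |u|) ≤ ‖h u‖ * (C * Real.exp (A * |u|)) * Real.exp (M * |u|) := by
        gcongr; exact hg u
    _ = C * (‖h u‖ * Real.exp ((M + A) * |u|)) := by
        rw [add_mul, Real.exp_add]; ring

lemma abs_le_exp (u : ℝ) : |u| ≤ Real.exp (1 * |u|) := by
  rw [one_mul]; linarith [Real.add_one_le_exp |u|]

lemma Wt.mulId {h : ℝ → ℂ} (hh : Wt h) : Wt (fun u => h u * (I * u)) :=
  hh.mul_of_bound (by fun_prop) (C := 1) (A := 1) (fun u => by
    rw [norm_mul, Complex.norm_I, one_mul, Complex.norm_real, Real.norm_eq_abs, one_mul]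
    exact abs_le_exp u)

lemma norm_cexp_le (z : ℂ) (u : ℝ) : ‖cexp (I * z * u)‖ ≤ Real.exp (‖z‖ * |u|) := by
  rw [Complex.norm_exp, Real.exp_le_exp]
  have h1 : (I * z * (u : ℂ)).re = -z.im * u := by simp
  rw [h1]
  calc -z.im * u ≤ |(-z.im) * u| := le_abs_self _
    _ = |z.im| * |u| := by rw [abs_mul, abs_neg]
    _ ≤ ‖z‖ * |u| := by gcongr; exact Complex.abs_im_le_norm z

lemma Wt.integrand {h : ℝ → ℂ} (hh : Wt h) (z : ℂ) : Integrable (fun u : ℝ => h u * cexp (I * z * u)) := by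
  refine (hh.norm_int ‖z‖).mono' (hh.aesm.mul (by fun_prop)) (Eventually.of_forall fun u => ?_)
  rw [norm_mul]
  gcongr
  exact norm_cexp_le z u

lemma norm_Lt_le {h : ℝ → ℂ} (hh : Wt h) (z : ℂ) :
    ‖Lt h z‖ ≤ ∫ u : ℝ, ‖h u‖ * Real.exp (‖z‖ * |u|) := by
  refine norm_integral_le_of_norm_le (hh.norm_int ‖z‖) (Eventually.of_forall fun u => ?_)
  rw [norm_mul]
  gcongr
  exact norm_cexp_le z u

theorem hasDerivAt_Lt {h : ℝ → ℂ} (hh : Wt h) (z0 : ℂ) :
    HasDerivAt (Lt h) (Lt (fun u => h u * (I * u)) z0) z0 := by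
  have hb := hh.mulId.norm_int (‖z0‖ + 1)
  have := hasDerivAt_integral_of_dominated_loc_of_deriv_le (μ := volume) (𝕜 := ℂ)
    (F := fun (z : ℂ) (u : ℝ) => h u * cexp (I * z * u))
    (F' := fun (z : ℂ) (u : ℝ) => h u * (I * u) * cexp (I * z * u))
    (x₀ := z0) (s := Metric.ball z0 1)
    (bound := fun u => ‖h u * (I * u)‖ * Real.exp ((‖z0‖ + 1) * |u|))
    (Metric.ball_mem_nhds z0 one_pos)
    (Eventually.of_forall fun z => (hh.integrand z).1)
    (hh.integrand z0)
    (hh.mulId.integrand z0).1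
    (Eventually.of_forall fun u z hz => ?_) hb
    (Eventually.of_forall fun u z hz => ?_)
  · exact this.2
  · rw [norm_mul]
    gcongr
    refine (norm_cexp_le z u).trans (Real.exp_le_exp.2 ?_)
    gcongr
    have h1 : ‖z - z0‖ < 1 := by simpa [dist_eq_norm] using hz
    calc ‖z‖ = ‖z0 + (z - z0)‖ := by ring_nf
      _ ≤ ‖z0‖ + ‖z - z0‖ := norm_add_le _ _
      _ ≤ ‖z0‖ + 1 := by linarith
  · have h1 : HasDerivAt (fun z : ℂ => I * z * u) (I * u) z := by
      have := (hasDerivAt_id z).const_mul I |>.mul_const (u : ℂ)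
      simpa using this
    have h2 := h1.cexp.const_mul (h u)
    refine h2.congr_deriv ?_
    ring

theorem diff_Lt {h : ℝ → ℂ} (hh : Wt h) : Differentiable ℂ (Lt h) := fun z =>
  (hasDerivAt_Lt hh z).differentiableAt

theorem deriv_Lt {h : ℝ → ℂ} (hh : Wt h) : deriv (Lt h) = Lt (fun u => h u * (I * u)) :=
  funext fun z => (hasDerivAt_Lt hh z).deriv

/-- real on the real axis -/
theorem sym_Lt {h : ℝ → ℂ} (hs : ∀ u : ℝ, h (-u) = conj (h u)) : Sym (Lt h) := by
  intro z
  unfold Lt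
  rw [← integral_conj, ← integral_neg_eq_self (fun u : ℝ => h u * cexp (I * conj z * u))]
  refine integral_congr_ae (Eventually.of_forall fun u => ?_)
  simp only [map_mul, hs]
  congr 1
  rw [← Complex.exp_conj]
  congr 1
  simp only [map_mul, Complex.conj_I, Complex.conj_ofReal]
  push_cast
  ring

end Pool.Agent.N963.GN
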