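import Mathlib

set_option autoImplicit false

/-!
# Averages of the xi function with Polya frequency weights: definitions and specifications (helper963)

Every task is one `Prop` below (`S_...`); a task proves it (from the ones named, given as hypotheses).
-/

namespace Pool.Agent.N963.GN

open Complex Filter Topology MeasureTheory Polynomial
open scoped ComplexConjugate

/-- Weights all of whose exponential moments are finite. -/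
def Wt (h : ℝ → ℂ) : Prop := ∀ M : ℝ, Integrable (fun u : ℝ => h u * ((Real.exp (M * |u|) : ℝ) : ℂ))

/-- The transform. -/
noncomputable def Lt (h : ℝ → ℂ) (z : ℂ) : ℂ := ∫ u : ℝ, h u * cexp (I * z * u)

/-- `f` is approximable, uniformly on discs, by real polynomials with at most `m` non-real roots. -/
def App (m : ℕ) (f : ℂ → ℂ) : Prop := ∀ R ε : ℝ, 0 < ε →
  ∃ P : ℝ[X], P ≠ 0 ∧ P.natDegree ≤ P.roots.card + m ∧ ∀ z : ℂ, ‖z‖ ≤ R → ‖f z - aeval z P‖ ≤ ε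

/-- Symmetric with respect to the real axis. -/
def Sym (f : ℂ → ℂ) : Prop := ∀ z : ℂ, f (conj z) = conj (f z)

/-- Growth of order at most 3/2. -/
def Gro (f : ℂ → ℂ) : Prop := ∃ C : ℝ, 0 ≤ C ∧ ∀ z : ℂ, ‖f z‖ ≤ Real.exp (C * (1 + ‖z‖) ^ (3 / 2 : ℝ))

/-- The non-real zeros. -/
def NRZ (f : ℂ → ℂ) : Set ℂ := {z | f z = 0 ∧ z.im ≠ 0}

/-! ## A. The classes `App m` (pure Mathlib) -/

/-- Task A1: closed under locally uniform limits. -/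
def S_A1 : Prop := ∀ (m : ℕ) (f : ℂ → ℂ),
  (∀ R ε : ℝ, 0 < ε → ∃ g : ℂ → ℂ, App m g ∧ ∀ z : ℂ, ‖z‖ ≤ R → ‖f z - g z‖ ≤ ε) → App m f

/-- Task A2: closed under real translations. -/
def S_A2 : Prop := ∀ (m : ℕ) (f : ℂ → ℂ) (β : ℝ), App m f → App m (fun z => f (z + β))

/-- Task A3: closed under `1 - b D`. Proof: approximate `f` by `P` on a larger disc, so `f - b f'` by
`P - b P'` (Cauchy's estimate); and `P - b P'` is the limit of `Q n = P - b P' + (X / n) P'`, where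
`((1 - X / (n b)) ^ n P)' = -(1/b) (1 - X / (n b)) ^ (n-1) Q n`, so that
`n + card P.roots ≤ (n - 1) + card (Q n).roots + 1` (`Polynomial.card_roots_le_derivative`), and
`natDegree (Q n) = natDegree P`. -/
def S_A3 : Prop := ∀ (m : ℕ) (f : ℂ → ℂ) (b : ℝ), Differentiable ℂ f → App m f →
  App m (fun z => f z - b * deriv f z)

/-- Task A4: at most `m` non-real zeros (distinct ones). Proof: small disjoint discs off the real axis about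
`m + 1` distinct non-real zeros; on their boundaries `|f| ≥ c > 0`; a polynomial `P` with `|f - P| ≤ c / 4` on
a big disc has a root in each of the discs (otherwise the maximum principle for `1 / P`); but `P` has at
most `m` non-real complex roots. -/
def S_A4 : Prop := ∀ (m : ℕ) (f : ℂ → ℂ), Differentiable ℂ f → (∃ z, f z ≠ 0) → App m f →
  (NRZ f).Finite

/-! ## B. Limits of real-rooted polynomials (pure Mathlib) -/

/-- A locally uniform limit, not zero, of polynomials with real roots only. -/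
def RR (f : ℂ → ℂ) : Prop := Differentiable ℂ f ∧ (∃ z, f z ≠ 0) ∧
  ∃ Q : ℕ → ℂ[X], (∀ N w, (Q N).IsRoot w → w.im = 0) ∧
    TendstoLocallyUniformly (fun (N : ℕ) (w : ℂ) => (Q N).eval w) f atTop

/-- Task B1: no zeros off the real axis; the logarithmic derivative in the upper half plane. For a polynomial
`Q'/Q (z) = ∑ 1/(z - x_j)`, `-Im = ∑ y/|z-x_j|²`, `(Q'/Q)' = -∑ 1/(z - x_j)²`. -/
def S_B1 : Prop := ∀ f : ℂ → ℂ, RR f → ∀ z : ℂ, 0 < z.im → f z ≠ 0 ∧ 0 ≤ -(logDeriv f z).im ∧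
  ‖deriv (logDeriv f) z‖ * z.im ≤ -(logDeriv f z).im

/-- Task B2: the Laguerre inequality with a lower bound. For a real-rooted polynomial with real roots `x_j` and `x`
real, `Q'² - Q Q'' = Q² ∑ 1/(x - x_j)²` and `1/(x-x_j)² ≥ 1/((x-x_j)²+η²)`. (`f` real on the real line.) -/
def S_B2 : Prop := ∀ f : ℂ → ℂ, RR f → Sym f → ∀ x η : ℝ, 0 < η →
  -(logDeriv f ((x : ℂ) + η * I)).im * ‖f x‖ ^ 2 ≤
    η * ((deriv f x) ^ 2 - f x * deriv (deriv f) x).re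

/-- Task B3: differences. `1/(z-x_j) - 1/(w-x_j) = (w-z)/((z-x_j)(w-x_j))` and Cauchy-Schwarz. -/
def S_B3 : Prop := ∀ f : ℂ → ℂ, RR f → ∀ z w : ℂ, 0 < z.im → 0 < w.im →
  ‖logDeriv f z - logDeriv f w‖ ^ 2 * (z.im * w.im) ≤
    ‖z - w‖ ^ 2 * ((logDeriv f z).im * (logDeriv f w).im)

/-- Task B4: Harnack. If `η ≤ Im z`, `Im w = h`, `|Re z - Re w| ≤ h`, `0 < η ≤ h`, `Im z ≤ 2 h`, then each Poisson
term at `z` is at most `8 h / η` times the one at `w` (any explicit constant will do, here `20 (h/η)²`). -/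
def S_B4 : Prop := ∀ f : ℂ → ℂ, RR f → ∀ (z w : ℂ) (η h : ℝ), 0 < η → η ≤ h → w.im = h → η ≤ z.im →
  z.im ≤ 2 * h → |z.re - w.re| ≤ h → -(logDeriv f z).im ≤ 20 * (h / η) ^ 2 * (-(logDeriv f w).im)

/-! ## C. Three circles (pure Mathlib) -/

/-- Task C: Hadamard's three circles, for instance from `Complex.HadamardThreeLines` applied to
`w ↦ f (c + exp w)`. -/
def S_C : Prop := ∀ r1 r2 r3 : ℝ, 0 < r1 → r1 < r2 → r2 < r3 → ∃ θ : ℝ, 0 < θ ∧ θ < 1 ∧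
  ∀ (f : ℂ → ℂ) (c : ℂ) (M1 M3 : ℝ), 0 < M1 → 0 < M3 → DifferentiableOn ℂ f (Metric.closedBall c r3) →
    (∀ z, ‖z - c‖ = r1 → ‖f z‖ ≤ M1) → (∀ z, ‖z - c‖ = r3 → ‖f z‖ ≤ M3) →
    ∀ z, ‖z - c‖ = r2 → ‖f z‖ ≤ M1 ^ (1 - θ) * M3 ^ θ

/-! ## D. Kernels -/

/-- The kernels: analytic in the strip `|Im w| < α`, hermitian on the real line, rapidly decreasing. -/
structure Kern (K : ℂ → ℂ) (α : ℝ) : Prop where
  pos : 0 < α
  diff : ∀ w : ℂ, |w.im| < α → DifferentiableAt ℂ K w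
  herm : ∀ u : ℝ, K ((-u : ℝ) : ℂ) = conj (K (u : ℂ))
  dec : ∀ Y : ℝ, 0 ≤ Y → Y < α → ∀ M : ℝ, ∃ C : ℝ, 0 ≤ C ∧
    ∀ w : ℂ, |w.im| ≤ Y → ‖K w‖ ≤ C * Real.exp (-(M * |w.re|))
  gro : ∃ C : ℝ, 0 ≤ C ∧ ∀ R : ℝ, 0 ≤ R →
    ∫ u : ℝ, ‖K (u : ℂ)‖ * Real.exp (R * |u|) ≤ Real.exp (C * (1 + R) ^ (3 / 2 : ℝ))

/-- The mean square bounds near the boundary of the strip (`σ = 1` or `σ = -1`: both sides). -/
def MS (K : ℂ → ℂ) (α : ℝ) : Prop := ∃ C c p δ0 : ℝ, 0 < C ∧ 0 < c ∧ 0 < p ∧ 0 < δ0 ∧ δ0 < α ∧ δ0 < 1 ∧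
  ∀ δ : ℝ, 0 < δ → δ ≤ δ0 → ∀ σ : ℝ, (σ = 1 ∨ σ = -1) →
    ∫ u : ℝ, ‖K ((u : ℂ) + (σ * (α - δ) : ℝ) * I)‖ ^ 2 / (1 + u ^ 2) ≤ C * δ ^ (-p) ∧
    ∫ u : ℝ, ‖K ((u : ℂ) + (σ * (α - δ) : ℝ) * I)‖ ^ 2 ≤ C * δ ^ (-p) * Real.log (1 / δ) ∧
    c * δ ^ (-p) ≤ ∫ u in (0 : ℝ)..1, ‖K ((u : ℂ) + (σ * (α - δ) : ℝ) * I)‖ ^ 2

/-- The logarithmic derivative of the transform at some distance from the real axis. -/
def LD (X : ℂ → ℂ) : Prop := ∃ c0 h0 r0 C x0 : ℝ, 0 < c0 ∧ 0 < r0 ∧ r0 < h0 ∧ 0 < C ∧ 1 ≤ x0 ∧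
  ∀ x : ℝ, x0 ≤ |x| → ∀ z : ℂ, ‖z - ((x : ℂ) + h0 * I)‖ ≤ r0 →
    X z ≠ 0 ∧ ‖logDeriv X z + I * ((c0 * Real.log |x| : ℝ) : ℂ)‖ ≤ C

/-- The kernel `K(u) / (1 - i u / a)`. -/
noncomputable def Ka (K : ℂ → ℂ) (a : ℝ) (w : ℂ) : ℂ := K w / (1 - I * w / a)

/-- Task D1: contour shift. For `a > 0`, `0 ≤ t < α`, the transform `G` of `u ↦ Ka K a u` and its first two
derivatives on the line: `G(x) e^{t x} = ∫ Ka(u + i t) e^{i u x} du`, and Plancherel. Conclusions: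
integrability and the two identities. -/
def S_D : Prop := ∀ (K : ℂ → ℂ) (α : ℝ), Kern K α → ∀ a : ℝ, 0 < a → ∀ t : ℝ, 0 ≤ t → t < α →
  let G : ℂ → ℂ := Lt (fun u => Ka K a (u : ℂ))
  Integrable (fun x : ℝ => ‖G x‖ ^ 2 * Real.exp (2 * t * x)) ∧
  Integrable (fun x : ℝ => ((deriv G x) ^ 2 - G x * deriv (deriv G) x).re * Real.exp (2 * t * x)) ∧
  ∫ x : ℝ, ‖G x‖ ^ 2 * Real.exp (2 * t * x) = 2 * Real.pi * ∫ u : ℝ, ‖Ka K a ((u : ℂ) + t * I)‖ ^ 2 ∧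
  ∫ x : ℝ, ((deriv G x) ^ 2 - G x * deriv (deriv G) x).re * Real.exp (2 * t * x) =
    4 * Real.pi * ∫ u : ℝ, u ^ 2 * ‖Ka K a ((u : ℂ) + t * I)‖ ^ 2

end Pool.Agent.N963.GN
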