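import Pool.Agent.N963.GN.Stm
import Pool.Agent.H153R4.Pl

set_option autoImplicit false

/-! Plancherel and contour shift. -/

namespace Pool.Agent.N963.GN

open Complex Filter Topology MeasureTheory
open scoped ComplexConjugate FourierTransform ENNReal

lemma fourier_neg_eq (f : ℝ → ℂ) (x : ℝ) :
    (∫ u : ℝ, f u * cexp (I * x * u)) = 𝓕 f (-(x / (2 * Real.pi))) := by
  rw [Real.fourier_eq']
  refine integral_congr_ae (Eventually.of_forall fun u => ?_)
  simp only [smul_eq_mul]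
  rw [mul_comm]
  congr 2
  have hpi : (Real.pi : ℂ) ≠ 0 := by exact_mod_cast Real.pi_ne_zero
  simp only [RCLike.inner_apply, conj_trivial]
  push_cast
  field_simp

/-- Plancherel for the transform `∫ f(u) e^{iux} du`. -/
theorem planch (f : ℝ → ℂ) (h1 : Integrable f) (h2 : MemLp f 2) :
    Integrable (fun x : ℝ => ‖∫ u : ℝ, f u * cexp (I * x * u)‖ ^ 2) ∧
    ∫ x : ℝ, ‖∫ u : ℝ, f u * cexp (I * x * u)‖ ^ 2 = 2 * Real.pi * ∫ u : ℝ, ‖f u‖ ^ 2 := by
  have hpl := Pool.Agent.H153R4.plancherel f h1 h2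
  have hcont : Continuous (𝓕 f) := by
    have := VectorFourier.fourierIntegral_continuous (L := innerₗ ℝ) Real.continuous_fourierChar
      continuous_inner h1
    exact this
  have hint2 : Integrable (fun u : ℝ => ‖f u‖ ^ 2) := h2.integrable_norm_pow (by norm_num)
  have e1 : ∫⁻ x : ℝ, ‖f x‖ₑ ^ 2 = ENNReal.ofReal (∫ u : ℝ, ‖f u‖ ^ 2) := by
    rw [ofReal_integral_eq_lintegral_ofReal hint2 (Eventually.of_forall fun _ => by positivity)]
    refine lintegral_congr fun x => ?_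
    rw [ENNReal.ofReal_pow (norm_nonneg _), ofReal_norm]
  have hF : Integrable (fun ξ : ℝ => ‖𝓕 f ξ‖ ^ 2) := by
    refine ⟨(hcont.norm.pow 2).aestronglyMeasurable, ?_⟩
    rw [hasFiniteIntegral_iff_norm]
    have : ∫⁻ ξ : ℝ, ENNReal.ofReal ‖‖𝓕 f ξ‖ ^ 2‖ = ∫⁻ ξ, ‖𝓕 f ξ‖ₑ ^ 2 := by
      refine lintegral_congr fun x => ?_
      rw [Real.norm_of_nonneg (by positivity), ENNReal.ofReal_pow (norm_nonneg _),
        ofReal_norm]
    rw [this, hpl, e1]
    exact ENNReal.ofReal_lt_top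
  have e2 : ∫ ξ : ℝ, ‖𝓕 f ξ‖ ^ 2 = ∫ u : ℝ, ‖f u‖ ^ 2 := by
    have a1 : ENNReal.ofReal (∫ ξ : ℝ, ‖𝓕 f ξ‖ ^ 2) = ENNReal.ofReal (∫ u : ℝ, ‖f u‖ ^ 2) := by
      rw [← e1, ← hpl,
        ofReal_integral_eq_lintegral_ofReal hF (Eventually.of_forall fun _ => by positivity)]
      refine lintegral_congr fun x => ?_
      rw [ENNReal.ofReal_pow (norm_nonneg _), ofReal_norm]
    exact (ENNReal.ofReal_eq_ofReal_iff (integral_nonneg fun _ => by positivity)
      (integral_nonneg fun _ => by positivity)).1 a1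
  have hpi : (0 : ℝ) < 2 * Real.pi := by positivity
  have hc : (fun x : ℝ => ‖∫ u : ℝ, f u * cexp (I * x * u)‖ ^ 2) =
      fun x : ℝ => (fun ξ : ℝ => ‖𝓕 f ξ‖ ^ 2) ((-(1 / (2 * Real.pi))) * x) := by
    funext x
    simp only
    rw [fourier_neg_eq, show -(x / (2 * Real.pi)) = -(1 / (2 * Real.pi)) * x by ring]
  have hne : (-(1 / (2 * Real.pi))) ≠ 0 := by
    rw [neg_ne_zero]
    positivity
  rw [hc]
  refine ⟨hF.comp_mul_left' hne, ?_⟩
  rw [Measure.integral_comp_mul_left (fun ξ : ℝ => ‖𝓕 f ξ‖ ^ 2) (-(1 / (2 * Real.pi))), e2]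
  rw [smul_eq_mul]
  congr 1
  rw [inv_neg, one_div, inv_inv, abs_neg, abs_of_pos hpi]

/-- decay in a strip -/
lemma exp_abs_integrable (C : ℝ) : Integrable (fun u : ℝ => C * Real.exp (-|u|)) := by
  have h : Integrable (fun u : ℝ => Real.exp (-|u|)) := by
    have h1 : IntegrableOn (fun u : ℝ => Real.exp (-|u|)) (Set.Ioi 0) := by
      refine (integrableOn_exp_neg_Ioi 0).congr_fun (fun u hu => ?_) measurableSet_Ioi
      rw [abs_of_pos (Set.mem_Ioi.1 hu)]
    have h2 : IntegrableOn (fun u : ℝ => Real.exp (-|u|)) (Set.Iic 0) := by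
      refine (integrableOn_exp_Iic 0).congr_fun (fun u hu => ?_) measurableSet_Iic
      rw [abs_of_nonpos (Set.mem_Iic.1 hu), neg_neg]
    have := h2.union h1
    rwa [Set.Iic_union_Ioi, integrableOn_univ] at this
  exact h.const_mul C

/-- contour shift -/
theorem shift {φ : ℂ → ℂ} {t : ℝ} (ht : 0 ≤ t) (hd : ∀ w : ℂ, 0 ≤ w.im → w.im ≤ t →
    DifferentiableAt ℂ φ w) {C : ℝ} (hb : ∀ w : ℂ, 0 ≤ w.im → w.im ≤ t → ‖φ w‖ ≤ C * Real.exp (-|w.re|)) :
    Integrable (fun u : ℝ => φ u) ∧ Integrable (fun u : ℝ => φ ((u : ℂ) + t * I)) ∧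
    ∫ u : ℝ, φ u = ∫ u : ℝ, φ ((u : ℂ) + t * I) := by
  have hI : ∀ s : ℝ, 0 ≤ s → s ≤ t → Integrable (fun u : ℝ => φ ((u : ℂ) + s * I)) := by
    intro s hs0 hs
    have hc : Continuous (fun u : ℝ => φ ((u : ℂ) + s * I)) := by
      rw [continuous_iff_continuousAt]
      intro u
      have h1 : ContinuousAt φ ((u : ℂ) + s * I) := (hd _ (by simp [hs0]) (by simp [hs])).continuousAt
      exact ContinuousAt.comp (f := fun u : ℝ => ((u : ℂ) + s * I)) h1 (by fun_prop)
    refine (exp_abs_integrable C).mono' hc.aestronglyMeasurable (Eventually.of_forall fun u => ?_)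
    have := hb ((u : ℂ) + s * I) (by simp [hs0]) (by simp [hs])
    simpa using this
  have hI0 : Integrable (fun u : ℝ => φ u) := by
    have := hI 0 le_rfl ht
    simpa using this
  have hIt := hI t ht le_rfl
  refine ⟨hI0, hIt, ?_⟩
  -- rectangles
  have hrect : ∀ R : ℝ, (∫ u in (-R)..R, φ u) - (∫ u in (-R)..R, φ ((u : ℂ) + t * I)) +
      I * (∫ s in (0 : ℝ)..t, φ ((R : ℂ) + s * I)) - I * (∫ s in (0 : ℝ)..t, φ (((-R : ℝ) : ℂ) + s * I)) = 0 := by
    intro R
    have h := Complex.integral_boundary_rect_eq_zero_of_differentiableOn φ ((-R : ℝ) : ℂ) ((R : ℂ) + t * I) (by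
      intro w hw
      have hw2 : w.im ∈ Set.uIcc (0 : ℝ) t := by
        have := hw.2
        simpa using this
      rw [Set.uIcc_of_le ht] at hw2
      exact (hd w hw2.1 hw2.2).differentiableWithinAt)
    simp only [ofReal_re, ofReal_im, add_re, mul_re, I_re, mul_zero, I_im, mul_one, sub_zero, add_zero,
      add_im, mul_im, zero_add, ofReal_zero, zero_mul, smul_eq_mul, zero_sub, neg_zero] at h
    exact h
  have hside : ∀ x : ℝ, ‖∫ s in (0 : ℝ)..t, φ ((x : ℂ) + s * I)‖ ≤ C * Real.exp (-|x|) * t := by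
    intro x
    have := intervalIntegral.norm_integral_le_of_norm_le_const (a := (0 : ℝ)) (b := t)
      (f := fun s : ℝ => φ ((x : ℂ) + s * I)) (C := C * Real.exp (-|x|)) (by
        intro s hs
        rw [Set.uIoc_of_le ht] at hs
        have := hb ((x : ℂ) + s * I) (by simpa using hs.1.le) (by simpa using hs.2)
        simpa using this)
    rwa [sub_zero, abs_of_nonneg ht] at this
  have htop : Tendsto (fun R : ℝ => (-R : ℝ)) atTop atBot := tendsto_neg_atTop_atBot
  have l1 := intervalIntegral_tendsto_integral hI0 htop tendsto_id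
  have l2 := intervalIntegral_tendsto_integral hIt htop tendsto_id
  have hexp : Tendsto (fun R : ℝ => C * Real.exp (-|R|) * t) atTop (𝓝 0) := by
    have h1 : Tendsto (fun R : ℝ => Real.exp (-|R|)) atTop (𝓝 0) := by
      refine (Real.tendsto_exp_atBot).comp ?_
      exact tendsto_neg_atTop_atBot.comp tendsto_abs_atTop_atTop
    have := (h1.const_mul C).mul_const t
    simpa using this
  have l3 : Tendsto (fun R : ℝ => ∫ s in (0 : ℝ)..t, φ ((R : ℂ) + s * I)) atTop (𝓝 0) :=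
    squeeze_zero_norm (fun R => hside R) hexp
  have l4 : Tendsto (fun R : ℝ => ∫ s in (0 : ℝ)..t, φ (((-R : ℝ) : ℂ) + s * I)) atTop (𝓝 0) := by
    refine squeeze_zero_norm (fun R => hside (-R)) ?_
    simpa [abs_neg] using hexp
  have l5 := ((l1.sub l2).add (l3.const_mul I)).sub (l4.const_mul I)
  have l6 : Tendsto (fun R : ℝ => (0 : ℂ)) atTop (𝓝 (((∫ u : ℝ, φ u) - ∫ u : ℝ, φ ((u : ℂ) + t * I)) +
      I * 0 - I * 0)) := by
    refine l5.congr fun R => ?_
    exact hrect R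
  have l7 := tendsto_nhds_unique l6 tendsto_const_nhds
  have : (∫ u : ℝ, φ u) - ∫ u : ℝ, φ ((u : ℂ) + t * I) = 0 := by
    rw [mul_zero, add_zero, sub_zero] at l7
    exact l7
  exact sub_eq_zero.1 this

end Pool.Agent.N963.GN
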