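import Pool.Agent.N963.GN.Stm
import Pool.Agent.Helper242.KK.Kern1

set_option autoImplicit false

/-!
# The kernel of the xi function: specifications
`Pool.Agent.Helper242.RK.PhiC` (file `Helper242/RK/Theta.lean`) is the de Bruijn-Newman kernel on the strip
`|Im t| < π/8` (analytic, even, `conj_PhiC`, bounds `PhiC_bound`, `norm_P_le`, `KK.norm_P_le_pow`), and `RK.Phi` its
restriction to the real line.
-/

namespace Pool.Agent.N963.GN

open Complex Filter Topology MeasureTheory
open Pool.Agent.Helper242

/-- Task E1 (helper963). -/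
def S_E1 : Prop := Kern RK.PhiC (Real.pi / 8)

/-- Task E2: the mean square bounds (with `p = 9/2`). See the spec of the subtask for the proof. -/
def S_E2 : Prop := MS RK.PhiC (Real.pi / 8)

/-- Task F: the logarithmic derivative (`c0 = 1/4`, `h0 = 4`, `r0 = 1`). -/
def S_F : Prop := LD (Lt (fun u : ℝ => ((RK.Phi u : ℝ) : ℂ)))

/-- Task G: the Gaussian weights, from `W475.BU` (the theorem of the hand-in `BackwardHeatFlow`). -/
def S_G : Prop := ∀ lam : ℝ, 0 < lam →
  (NRZ (Lt (fun u : ℝ => ((RK.Phi u / Real.exp (lam * u ^ 2) : ℝ) : ℂ)))).Infinite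

end Pool.Agent.N963.GN
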