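-- (by helper459; copy of Pool/Agent/N459/GN/C6.lean)
import Pool.Agent.N963.GN.Stm3
import Pool.Agent.N963.GN.W

set_option autoImplicit false

/-!
# Task C6: the Gaussian operator is injective on functions of order less than two (helper459)
-/

namespace Pool.Agent.N963.GNC6

open Complex Filter Topology MeasureTheory Polynomial Pool.Agent.N963.GN
open scoped ComplexConjugate


/-- Taylor coefficients. -/
noncomputable def tc (f : ℂ → ℂ) (n : ℕ) : ℂ := iteratedDeriv n f 0 / (n.factorial : ℂ)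

lemma sqrt_pow' {x : ℝ} (hx : 0 ≤ x) (j : ℕ) : √(x ^ j) = √x ^ j := by
  induction j with
  | zero => simp
  | succ j ih => rw [pow_succ, pow_succ, Real.sqrt_mul (pow_nonneg hx j), ih]

lemma sqrt_fac_le (n : ℕ) : √(n.factorial : ℝ) ≤ √((n : ℝ) + 1) ^ n := by
  rw [← sqrt_pow' (by positivity)]
  apply Real.sqrt_le_sqrt
  have h1 : n.factorial ≤ (n + 1) ^ n := n.factorial_le_pow.trans (Nat.pow_le_pow_left (Nat.le_succ n) n)
  exact_mod_cast h1

lemma sqrt_fac_pos (n : ℕ) : 0 < √(n.factorial : ℝ) := Real.sqrt_pos.2 (by exact_mod_cast n.factorial_pos)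

lemma sqrt_fac_add (n k : ℕ) : √((n + k).factorial : ℝ) ≤ 2 ^ (n + k) * (√(n.factorial : ℝ) * √(k.factorial : ℝ)) := by
  have h1 : (n + k).factorial ≤ 4 ^ (n + k) * (n.factorial * k.factorial) := by
    rw [← Nat.add_choose_mul_factorial_mul_factorial n k, mul_assoc]
    refine Nat.mul_le_mul_right _ ?_
    exact (Nat.choose_le_two_pow _ _).trans (Nat.pow_le_pow_left (by norm_num) _)
  have h2 : ((n + k).factorial : ℝ) ≤ (2 ^ (n + k)) ^ 2 * ((n.factorial : ℝ) * (k.factorial : ℝ)) := by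
    have h3 : ((2 : ℝ) ^ (n + k)) ^ 2 = 4 ^ (n + k) := by
      rw [← pow_mul, mul_comm, pow_mul]
      norm_num
    rw [h3]
    exact_mod_cast h1
  calc √((n + k).factorial : ℝ) ≤ √((2 ^ (n + k)) ^ 2 * ((n.factorial : ℝ) * (k.factorial : ℝ))) := Real.sqrt_le_sqrt h2
    _ = _ := by
      rw [Real.sqrt_mul (by positivity), Real.sqrt_sq (by positivity), Real.sqrt_mul (by positivity)]

/-- Coefficients of functions of order two. -/
lemma tc_le {f : ℂ → ℂ} (hf : Differentiable ℂ f) {M B : ℝ}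
    (hb : ∀ s, ‖f s‖ ≤ M * Real.exp (B * ‖s‖ ^ 2)) (n : ℕ) :
    ‖tc f n‖ ≤ M * Real.exp B * Real.exp B ^ n / √(n.factorial : ℝ) := by
  have hM : 0 ≤ M := by
    have h1 := (norm_nonneg _).trans (hb 0)
    have h2 := Real.exp_pos (B * ‖(0 : ℂ)‖ ^ 2)
    by_contra hcon
    push Not at hcon
    nlinarith
  have hR : 0 < √((n : ℝ) + 1) := Real.sqrt_pos.2 (by positivity)
  have h1 := norm_iteratedDeriv_le_of_forall_mem_sphere_norm_le (c := 0) (R := √((n : ℝ) + 1))
    (C := M * Real.exp B * Real.exp B ^ n) n hR hf.diffContOnCl (fun z hz => by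
      refine (hb z).trans (le_of_eq ?_)
      rw [mem_sphere_zero_iff_norm] at hz
      rw [hz, Real.sq_sqrt (by positivity), ← Real.exp_nat_mul, mul_assoc, ← Real.exp_add]
      congr 2
      ring)
  have hn : (0 : ℝ) < n.factorial := by exact_mod_cast n.factorial_pos
  unfold tc
  rw [norm_div, Complex.norm_natCast, div_le_div_iff₀ hn (sqrt_fac_pos n)]
  have h2 : ‖iteratedDeriv n f 0‖ * √(n.factorial : ℝ) ≤
      (n.factorial * (M * Real.exp B * Real.exp B ^ n) / √((n : ℝ) + 1) ^ n) * √((n : ℝ) + 1) ^ n :=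
    mul_le_mul h1 (sqrt_fac_le n) (Real.sqrt_nonneg _) (by positivity)
  rw [div_mul_cancel₀ _ (pow_pos hR n).ne'] at h2
  linarith

/-- Functions of order less than two. -/
lemma gr2_le {G : ℂ → ℂ} (hG : Gr2 G) {δ : ℝ} (hδ : 0 < δ) :
    ∃ K : ℝ, 0 ≤ K ∧ ∀ w, ‖G w‖ ≤ K * Real.exp (δ * ‖w‖ ^ 2) := by
  obtain ⟨C, ρ, hC, hρ0, hρ, hb⟩ := hG
  obtain ⟨Y, hY⟩ := eventually_atTop.1
    ((tendsto_rpow_atTop (by linarith : 0 < 2 - ρ)).eventually_ge_atTop (2 * C / δ))
  set Y0 := max Y 1 with hY0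
  refine ⟨Real.exp (δ + C * Y0 ^ ρ), (Real.exp_pos _).le, fun w => (hb w).trans ?_⟩
  rw [← Real.exp_add, Real.exp_le_exp]
  have hw : 0 ≤ ‖w‖ := norm_nonneg w
  have hy1 : 1 ≤ 1 + ‖w‖ := by linarith
  have h0 : 0 ≤ C * Y0 ^ ρ := mul_nonneg hC (Real.rpow_nonneg (by positivity) _)
  rcases le_total Y0 (1 + ‖w‖) with h | h
  · have h1 := hY (1 + ‖w‖) ((le_max_left _ _).trans h)
    have h2 : (1 + ‖w‖) ^ ρ * (1 + ‖w‖) ^ (2 - ρ) = (1 + ‖w‖) ^ 2 := by
      rw [← Real.rpow_add (by positivity), ← Real.rpow_natCast]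
      norm_num
    have h3 : 0 ≤ (1 + ‖w‖) ^ ρ := Real.rpow_nonneg (by positivity) _
    have h4 : (1 + ‖w‖) ^ ρ * (2 * C / δ) ≤ (1 + ‖w‖) ^ 2 := by
      rw [← h2]
      exact mul_le_mul_of_nonneg_left h1 h3
    have h5 : C * (1 + ‖w‖) ^ ρ ≤ δ / 2 * (1 + ‖w‖) ^ 2 := by
      have h6 : (1 + ‖w‖) ^ ρ * (2 * C / δ) * (δ / 2) = C * (1 + ‖w‖) ^ ρ := by
        field_simp
      rw [← h6]
      nlinarith
    nlinarith [sq_nonneg (1 - ‖w‖)]
  · have h1 : (1 + ‖w‖) ^ ρ ≤ Y0 ^ ρ := Real.rpow_le_rpow (by positivity) h hρ0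
    have h2 := mul_le_mul_of_nonneg_left h1 hC
    have h3 : 0 ≤ δ * ‖w‖ ^ 2 := by positivity
    linarith

/-- Derivatives of functions of order less than two. -/
lemma deriv_le {G : ℂ → ℂ} (hd : Differentiable ℂ G) (hG : Gr2 G) {η : ℝ} (hη : 0 < η) (r : ℝ)
    (hr : 0 ≤ r) : ∃ K : ℝ, 0 ≤ K ∧ ∀ z : ℂ, ‖z‖ ≤ r → ∀ j : ℕ,
      ‖iteratedDeriv j G z‖ ≤ K * (η ^ j * √(j.factorial : ℝ)) := by
  set T : ℝ := (Real.exp 1 / η) ^ 2 with hT
  have hT0 : 0 < T := by positivity
  have hsT : √T = Real.exp 1 / η := Real.sqrt_sq (by positivity)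
  obtain ⟨K, hK, hb⟩ := gr2_le hG (δ := 1 / (2 * T)) (by positivity)
  refine ⟨K * Real.exp (1 / T * r ^ 2) * Real.exp 1, by positivity, fun z hz j => ?_⟩
  have hR : 0 < √(((j : ℝ) + 1) * T) := Real.sqrt_pos.2 (by positivity)
  have h1 := norm_iteratedDeriv_le_of_forall_mem_sphere_norm_le (c := z)
    (R := √(((j : ℝ) + 1) * T))
    (C := K * Real.exp (1 / T * r ^ 2) * Real.exp 1 * Real.exp 1 ^ j) j hR hd.diffContOnCl
    (fun w hw => by
      refine (hb w).trans ?_
      rw [mem_sphere_iff_norm] at hw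
      rw [← Real.exp_nat_mul, mul_assoc, mul_assoc, ← Real.exp_add, ← Real.exp_add]
      refine mul_le_mul_of_nonneg_left (Real.exp_le_exp.2 ?_) hK
      have h2 : ‖w‖ ≤ r + √(((j : ℝ) + 1) * T) := by
        calc ‖w‖ = ‖z + (w - z)‖ := by ring_nf
          _ ≤ ‖z‖ + ‖w - z‖ := norm_add_le _ _
          _ ≤ _ := by rw [hw]; linarith
      have h3 : ‖w‖ ^ 2 ≤ 2 * r ^ 2 + 2 * (((j : ℝ) + 1) * T) := by
        have h4 := pow_le_pow_left₀ (norm_nonneg w) h2 2
        have h5 : √(((j : ℝ) + 1) * T) ^ 2 = ((j : ℝ) + 1) * T := Real.sq_sqrt (by positivity)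
        nlinarith [sq_nonneg (r - √(((j : ℝ) + 1) * T))]
      calc 1 / (2 * T) * ‖w‖ ^ 2 ≤ 1 / (2 * T) * (2 * r ^ 2 + 2 * (((j : ℝ) + 1) * T)) :=
            mul_le_mul_of_nonneg_left h3 (by positivity)
        _ = _ := by
            field_simp
            ring)
  refine h1.trans ?_
  have h2 : √(((j : ℝ) + 1) * T) ^ j = √((j : ℝ) + 1) ^ j * (Real.exp 1 / η) ^ j := by
    rw [Real.sqrt_mul (by positivity), mul_pow, hsT]
  rw [h2, div_le_iff₀ (by positivity)]
  have h3 : η ^ j * (Real.exp 1 / η) ^ j = Real.exp 1 ^ j := by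
    rw [← mul_pow, mul_div_cancel₀ _ hη.ne']
  have h4 : (j.factorial : ℝ) ≤ √(j.factorial : ℝ) * √((j : ℝ) + 1) ^ j := by
    calc (j.factorial : ℝ) = √(j.factorial : ℝ) * √(j.factorial : ℝ) := (Real.mul_self_sqrt (by positivity)).symm
      _ ≤ _ := mul_le_mul_of_nonneg_left (sqrt_fac_le j) (Real.sqrt_nonneg _)
  calc (j.factorial : ℝ) * (K * Real.exp (1 / T * r ^ 2) * Real.exp 1 * Real.exp 1 ^ j) ≤
      (√(j.factorial : ℝ) * √((j : ℝ) + 1) ^ j) *
        (K * Real.exp (1 / T * r ^ 2) * Real.exp 1 * Real.exp 1 ^ j) :=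
        mul_le_mul_of_nonneg_right h4 (by positivity)
    _ = _ := by
      rw [← h3]
      ring

/-- Products of Taylor coefficients of reciprocal functions. -/
lemma tc_mul {e φ : ℂ → ℂ} (he : Differentiable ℂ e) (hφ : Differentiable ℂ φ)
    (h1 : ∀ s, e s * φ s = 1) (m : ℕ) :
    ∑ p ∈ Finset.HasAntidiagonal.antidiagonal m, tc e p.1 * tc φ p.2 = if m = 0 then 1 else 0 := by
  have h2 : (e * φ) = fun _ => (1 : ℂ) := funext h1
  have h3 := iteratedDeriv_mul (n := m) (x := (0 : ℂ)) he.contDiff.contDiffAt hφ.contDiff.contDiffAt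
  rw [h2, iteratedDeriv_const] at h3
  have h4 : ∑ p ∈ Finset.HasAntidiagonal.antidiagonal m, tc e p.1 * tc φ p.2 =
      (∑ i ∈ Finset.range (m + 1), (m.choose i : ℂ) * iteratedDeriv i e 0 *
        iteratedDeriv (m - i) φ 0) / (m.factorial : ℂ) := by
    rw [Finset.Nat.sum_antidiagonal_eq_sum_range_succ (fun a b => tc e a * tc φ b) m,
      Finset.sum_div]
    refine Finset.sum_congr rfl fun i hi => ?_
    have hi' : i ≤ m := Nat.lt_succ_iff.1 (Finset.mem_range.1 hi)
    have h5 := Nat.choose_mul_factorial_mul_factorial hi'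
    have h6 : ((m.choose i : ℂ)) * (i.factorial : ℂ) * ((m - i).factorial : ℂ) = (m.factorial : ℂ) := by exact_mod_cast h5
    have h7 : (i.factorial : ℂ) ≠ 0 := by exact_mod_cast i.factorial_ne_zero
    have h8 : ((m - i).factorial : ℂ) ≠ 0 := by exact_mod_cast (m - i).factorial_ne_zero
    have h9 : (m.factorial : ℂ) ≠ 0 := by exact_mod_cast m.factorial_ne_zero
    unfold tc
    rw [div_mul_div_comm, div_eq_div_iff (mul_ne_zero h7 h8) h9, ← h6]
    ring
  rw [h4, ← h3]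
  by_cases hm : m = 0
  · subst hm
    simp
  · simp [hm]

/-- The weights times powers. -/
lemma wt_pow {k : ℝ → ℂ} (hk : Wt k) (n : ℕ) : Wt (fun u => k u * (I * u) ^ n) := by
  induction n with
  | zero => simpa using hk
  | succ n ih =>
    have h1 := ih.mulId
    have h2 : (fun u : ℝ => k u * (I * u) ^ n * (I * u)) = fun u : ℝ => k u * (I * u) ^ (n + 1) := by
      funext u
      rw [pow_succ, mul_assoc]
    rwa [h2] at h1

lemma iter_Lt {k : ℝ → ℂ} (hk : Wt k) (n : ℕ) :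
    iteratedDeriv n (Lt k) = Lt (fun u => k u * (I * u) ^ n) := by
  induction n with
  | zero => simp
  | succ n ih =>
    rw [iteratedDeriv_succ, ih, deriv_Lt (wt_pow hk n)]
    congr 1
    funext u
    rw [pow_succ, mul_assoc]

lemma iter_hasDeriv {G : ℂ → ℂ} (hd : Differentiable ℂ G) (n : ℕ) (z : ℂ) :
    HasDerivAt (iteratedDeriv n G) (iteratedDeriv (n + 1) G z) z := by
  have h1 : Differentiable ℂ (iteratedDeriv n G) :=
    (hd.contDiff (n := ⊤)).differentiable_iteratedDeriv n (by exact_mod_cast WithTop.coe_lt_top _)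
  rw [iteratedDeriv_succ]
  exact (h1 z).hasDerivAt

section main

variable {φ G X : ℂ → ℂ} (hφ : Differentiable ℂ φ) {M B : ℝ}
  (hb : ∀ s, ‖φ s‖ ≤ M * Real.exp (B * ‖s‖ ^ 2)) (hd : Differentiable ℂ G) (hG : Gr2 G)
include hφ hb hd hG

omit hφ hd hG in
lemma bound_nn : 0 ≤ M := by
  have h1 := (norm_nonneg _).trans (hb 0)
  have h2 := Real.exp_pos (B * ‖(0 : ℂ)‖ ^ 2)
  by_contra hcon
  push Not at hcon
  nlinarith

lemma dbl_bound (r : ℝ) (hr : 0 ≤ r) : ∃ K : ℝ, 0 ≤ K ∧ ∀ z : ℂ, ‖z‖ ≤ r → ∀ n k : ℕ,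
    ‖tc φ k * iteratedDeriv (n + k) G z‖ ≤
      K * ((1 / (4 * Real.exp B)) ^ n * 2 ^ n * √(n.factorial : ℝ)) * (1 / 2) ^ k := by
  obtain ⟨K, hK, hb2⟩ := deriv_le hd hG (η := 1 / (4 * Real.exp B)) (by positivity) r hr
  have hM := bound_nn hb
  refine ⟨M * Real.exp B * K, by positivity, fun z hz n k => ?_⟩
  rw [norm_mul]
  have h1 := tc_le hφ hb k
  have h2 := hb2 z hz (n + k)
  have h3 := sqrt_fac_add n k
  have hk := sqrt_fac_pos k
  calc ‖tc φ k‖ * ‖iteratedDeriv (n + k) G z‖ ≤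
      (M * Real.exp B * Real.exp B ^ k / √(k.factorial : ℝ)) *
        (K * ((1 / (4 * Real.exp B)) ^ (n + k) * (2 ^ (n + k) * (√(n.factorial : ℝ) * √(k.factorial : ℝ))))) := by
        refine mul_le_mul h1 (h2.trans ?_) (norm_nonneg _) (by positivity)
        gcongr
    _ = M * Real.exp B * K * ((1 / (4 * Real.exp B)) ^ n * 2 ^ n * √(n.factorial : ℝ)) *
        (Real.exp B * (1 / (4 * Real.exp B)) * 2) ^ k * (√(k.factorial : ℝ) / √(k.factorial : ℝ)) := by
        rw [mul_pow, mul_pow, pow_add, pow_add]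
        ring
    _ = _ := by
        rw [div_self hk.ne', mul_one]
        congr 2
        have := (Real.exp_pos B).ne'
        field_simp
        norm_num

/-- Termwise differentiation. -/
lemma termwise (hX : ∀ z, HasSum (fun k => tc φ k * iteratedDeriv k G z) (X z)) (n : ℕ) :
    ∀ z, HasSum (fun k => tc φ k * iteratedDeriv (n + k) G z) (iteratedDeriv n X z) := by
  induction n with
  | zero =>
    intro z
    simpa using hX z
  | succ n ih =>
    intro z
    obtain ⟨K, hK, hbd⟩ := dbl_bound hφ hb hd hG (‖z‖ + 1) (by positivity)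
    set u : ℕ → ℝ := fun k => K * ((1 / (4 * Real.exp B)) ^ (n + 1) * 2 ^ (n + 1) *
      √((n + 1).factorial : ℝ)) * (1 / 2) ^ k with hu
    have hus : Summable u := (summable_geometric_of_lt_one (by norm_num) (by norm_num)).mul_left _
    have hz : z ∈ Metric.ball (0 : ℂ) (‖z‖ + 1) := by
      rw [mem_ball_zero_iff]
      linarith
    let g : ℕ → ℂ → ℂ := fun k y => tc φ k * iteratedDeriv (n + k) G y
    let g' : ℕ → ℂ → ℂ := fun k y => tc φ k * iteratedDeriv (n + 1 + k) G y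
    have hg : ∀ k y, y ∈ Metric.ball (0 : ℂ) (‖z‖ + 1) → HasDerivAt (g k) (g' k y) y := by
      intro k y _
      have h2 := (iter_hasDeriv hd (n + k) y).const_mul (tc φ k)
      have h3 : n + k + 1 = n + 1 + k := by ring
      rw [h3] at h2
      exact h2
    have hg' : ∀ k y, y ∈ Metric.ball (0 : ℂ) (‖z‖ + 1) → ‖g' k y‖ ≤ u k := by
      intro k y hy
      rw [mem_ball_zero_iff] at hy
      exact hbd y hy.le (n + 1) k
    have h1 : HasDerivAt (fun z => ∑' k, g k z) (∑' k, g' k z) z :=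
      hasDerivAt_tsum_of_isPreconnected hus Metric.isOpen_ball
        (convex_ball (0 : ℂ) (‖z‖ + 1)).isPreconnected hg hg' hz (ih z).summable hz
    have h2 : (fun z => ∑' k, g k z) = iteratedDeriv n X :=
      funext fun z => (ih z).tsum_eq
    rw [h2] at h1
    rw [iteratedDeriv_succ, h1.deriv]
    have h3 : Summable (fun k => tc φ k * iteratedDeriv (n + 1 + k) G z) :=
      Summable.of_norm_bounded hus fun k => hbd z (by linarith) (n + 1) k
    exact h3.hasSum

/-- The inverse operator. -/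
lemma inverse (hX : ∀ z, HasSum (fun k => tc φ k * iteratedDeriv k G z) (X z)) {e : ℂ → ℂ}
    (he : Differentiable ℂ e) {M' : ℝ} (hbe : ∀ s, ‖e s‖ ≤ M' * Real.exp (B * ‖s‖ ^ 2))
    (h1 : ∀ s, e s * φ s = 1) (z : ℂ) :
    HasSum (fun n => tc e n * iteratedDeriv n X z) (G z) := by
  obtain ⟨K, hK, hbd⟩ := dbl_bound hφ hb hd hG ‖z‖ (norm_nonneg _)
  have hM' := bound_nn hbe
  let F : ℕ × ℕ → ℂ := fun p => tc e p.1 * (tc φ p.2 * iteratedDeriv (p.1 + p.2) G z)
  have hF : Summable F := by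
    have h2 : Summable (fun p : ℕ × ℕ =>
        (M' * Real.exp B * K * (1 / 2 : ℝ) ^ p.1) * (1 / 2 : ℝ) ^ p.2) :=
      ((summable_geometric_of_lt_one (by norm_num) (by norm_num)).mul_left _).mul_of_nonneg
        (summable_geometric_of_lt_one (by norm_num) (by norm_num))
        (fun n => by positivity) (fun n => by positivity)
    refine Summable.of_norm_bounded h2 fun p => ?_
    obtain ⟨n, k⟩ := p
    have h3 := tc_le he hbe n
    have h4 := hbd z le_rfl n k
    have hn := sqrt_fac_pos n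
    change ‖tc e n * (tc φ k * iteratedDeriv (n + k) G z)‖ ≤ _
    rw [norm_mul]
    calc ‖tc e n‖ * ‖tc φ k * iteratedDeriv (n + k) G z‖ ≤
        (M' * Real.exp B * Real.exp B ^ n / √(n.factorial : ℝ)) *
          (K * ((1 / (4 * Real.exp B)) ^ n * 2 ^ n * √(n.factorial : ℝ)) * (1 / 2) ^ k) :=
          mul_le_mul h3 h4 (norm_nonneg _) (by positivity)
      _ = M' * Real.exp B * K * (Real.exp B * (1 / (4 * Real.exp B)) * 2) ^ n * (1 / 2) ^ k *
          (√(n.factorial : ℝ) / √(n.factorial : ℝ)) := by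
          rw [mul_pow, mul_pow]
          ring
      _ = _ := by
          rw [div_self hn.ne', mul_one]
          congr 3
          have := (Real.exp_pos B).ne'
          field_simp
          norm_num
  have h2 : HasSum (fun n => tc e n * iteratedDeriv n X z) (∑' p, F p) :=
    hF.hasSum.prod_fiberwise fun n => (termwise hφ hb hd hG hX n z).mul_left (tc e n)
  have h3 : HasSum (fun m => ∑ p ∈ Finset.HasAntidiagonal.antidiagonal m, F p) (∑' p, F p) := by
    have h4 := (Finset.HasAntidiagonal.sigmaAntidiagonalEquivProd.hasSum_iff (f := F)).2 hF.hasSum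
    refine h4.sigma fun m => ?_
    have h5 := hasSum_fintype (fun p : Finset.HasAntidiagonal.antidiagonal m => F (p : ℕ × ℕ))
    rw [Finset.sum_coe_sort (Finset.HasAntidiagonal.antidiagonal m) F] at h5
    exact h5
  have h4 : (fun m => ∑ p ∈ Finset.HasAntidiagonal.antidiagonal m, F p) = fun m => if m = 0 then G z else 0 := by
    funext m
    have h5 : ∀ p ∈ Finset.HasAntidiagonal.antidiagonal m, F p = (tc e p.1 * tc φ p.2) * iteratedDeriv m G z := by
      intro p hp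
      rw [Finset.HasAntidiagonal.mem_antidiagonal] at hp
      change tc e p.1 * (tc φ p.2 * iteratedDeriv (p.1 + p.2) G z) = _
      rw [hp, mul_assoc]
    rw [Finset.sum_congr rfl h5, ← Finset.sum_mul, tc_mul he hφ h1]
    by_cases hm : m = 0
    · subst hm
      simp
    · rw [if_neg hm, if_neg hm, zero_mul]
  rw [h4] at h3
  have h5 : HasSum (fun m => if m = 0 then G z else 0) (G z) := hasSum_ite_eq 0 (G z)
  rw [← h3.unique h5]
  exact h2

end main

/-- The transform of a product with an entire function of order two. -/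
lemma sum_Lt {k : ℝ → ℂ} (hk : Wt k)
    (hk2 : ∀ M : ℝ, Integrable (fun u : ℝ => ‖k u‖ * Real.exp (M * u ^ 2)))
    {e : ℂ → ℂ} (he : Differentiable ℂ e) {M B : ℝ}
    (hbe : ∀ s, ‖e s‖ ≤ M * Real.exp (B * ‖s‖ ^ 2)) (z : ℂ) :
    HasSum (fun n => tc e n * iteratedDeriv n (Lt k) z) (Lt (fun u => k u * e (I * u)) z) := by
  have hM : 0 ≤ M := by
    have h1 := (norm_nonneg _).trans (hbe 0)
    have h2 := Real.exp_pos (B * ‖(0 : ℂ)‖ ^ 2)
    by_contra hcon
    push Not at hcon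
    nlinarith
  let F : ℕ → ℝ → ℂ := fun n u => tc e n * (k u * (I * u) ^ n * cexp (I * z * u))
  have hint : ∀ n, Integrable (F n) := fun n => ((wt_pow hk n).integrand z).const_mul _
  -- the bound
  set A : ℝ := 2 * Real.exp B with hA
  have hA0 : 0 < A := by positivity
  set b : ℝ → ℝ := fun u => ‖k u‖ * Real.exp ((A ^ 2 / 2 + 1) * u ^ 2) with hbdef
  have hb : Integrable b := hk2 _
  have hbd : ∀ n u, ‖F n u‖ ≤ M * Real.exp B * Real.exp (‖z‖ ^ 2) * (1 / 2) ^ n * b u := by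
    intro n u
    have h1 := tc_le he hbe n
    have h2 := norm_cexp_le z u
    have hn := sqrt_fac_pos n
    -- powers
    have h3 : (A * |u|) ^ n ≤ √(n.factorial : ℝ) * Real.exp (A ^ 2 / 2 * u ^ 2) := by
      have h4 : ((A * u) ^ 2) ^ n / (n.factorial : ℝ) ≤ Real.exp ((A * u) ^ 2) := by
        have h5 := Real.pow_div_factorial_le_exp ((A * u) ^ 2) (by positivity) n
        exact h5
      have hn' : (0 : ℝ) < n.factorial := by exact_mod_cast n.factorial_pos
      rw [div_le_iff₀ hn'] at h4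
      have h5 : ((A * |u|) ^ n) ^ 2 ≤ (√(n.factorial : ℝ) * Real.exp (A ^ 2 / 2 * u ^ 2)) ^ 2 := by
        rw [mul_pow (√(n.factorial : ℝ)), Real.sq_sqrt hn'.le, ← Real.exp_nat_mul]
        have h6 : ((A * |u|) ^ n) ^ 2 = ((A * u) ^ 2) ^ n := by
          rw [← pow_mul, mul_comm n 2, pow_mul, mul_pow A |u|, sq_abs, ← mul_pow]
        have h7 : ((2 : ℕ) : ℝ) * (A ^ 2 / 2 * u ^ 2) = (A * u) ^ 2 := by
          push_cast
          ring
        rw [h6, h7]
        linarith
      exact le_of_sq_le_sq h5 (by positivity)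
    have h4 : |u| ^ n ≤ √(n.factorial : ℝ) * Real.exp (A ^ 2 / 2 * u ^ 2) / A ^ n := by
      rw [le_div_iff₀ (by positivity)]
      rw [mul_pow] at h3
      linarith
    have h5 : Real.exp (‖z‖ * |u|) ≤ Real.exp (‖z‖ ^ 2) * Real.exp (u ^ 2) := by
      rw [← Real.exp_add, Real.exp_le_exp]
      nlinarith [sq_nonneg (‖z‖ - |u|), sq_abs u, sq_nonneg ‖z‖, sq_nonneg u]
    have h6 : ‖F n u‖ = ‖tc e n‖ * (‖k u‖ * |u| ^ n * ‖cexp (I * z * u)‖) := by
      change ‖tc e n * (k u * (I * u) ^ n * cexp (I * z * u))‖ = _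
      rw [norm_mul, norm_mul, norm_mul, norm_pow, norm_mul, Complex.norm_I, one_mul,
        Complex.norm_real, Real.norm_eq_abs]
    rw [h6]
    calc ‖tc e n‖ * (‖k u‖ * |u| ^ n * ‖cexp (I * z * u)‖) ≤
        (M * Real.exp B * Real.exp B ^ n / √(n.factorial : ℝ)) *
          (‖k u‖ * (√(n.factorial : ℝ) * Real.exp (A ^ 2 / 2 * u ^ 2) / A ^ n) *
            (Real.exp (‖z‖ ^ 2) * Real.exp (u ^ 2))) := by
          refine mul_le_mul h1 ?_ (by positivity) (by positivity)
          refine mul_le_mul (mul_le_mul_of_nonneg_left h4 (norm_nonneg _)) (h2.trans h5)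
            (norm_nonneg _) (by positivity)
      _ = M * Real.exp B * Real.exp (‖z‖ ^ 2) * (Real.exp B ^ n / A ^ n) *
          (‖k u‖ * (Real.exp (A ^ 2 / 2 * u ^ 2) * Real.exp (u ^ 2))) *
          (√(n.factorial : ℝ) / √(n.factorial : ℝ)) := by
          ring
      _ = _ := by
          rw [div_self hn.ne', mul_one, ← div_pow, ← Real.exp_add, hA, hbdef]
          have h7 : Real.exp B / (2 * Real.exp B) = 1 / 2 := by
            have := (Real.exp_pos B).ne'
            field_simp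
          rw [h7]
          congr 3
          ring
  have hnorm : Summable (fun n => ∫ u, ‖F n u‖) := by
    have h1 : Summable (fun n : ℕ => (M * Real.exp B * Real.exp (‖z‖ ^ 2) * ∫ u, b u) *
        (1 / 2 : ℝ) ^ n) :=
      (summable_geometric_of_lt_one (by norm_num) (by norm_num)).mul_left _
    refine Summable.of_nonneg_of_le (fun n => integral_nonneg fun u => norm_nonneg _)
      (fun n => ?_) h1
    calc ∫ u, ‖F n u‖ ≤ ∫ u, M * Real.exp B * Real.exp (‖z‖ ^ 2) * (1 / 2) ^ n * b u :=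
          integral_mono (hint n).norm (hb.const_mul _) (hbd n)
      _ = _ := by
          rw [integral_const_mul]
          ring
  have h1 := hasSum_integral_of_summable_integral_norm hint hnorm
  have h2 : ∀ n, ∫ u, F n u = tc e n * iteratedDeriv n (Lt k) z := by
    intro n
    rw [iter_Lt hk n]
    exact integral_const_mul _ _
  simp only [h2] at h1
  have h3 : ∫ u, ∑' n, F n u = Lt (fun u => k u * e (I * u)) z := by
    unfold Lt
    refine integral_congr_ae (Eventually.of_forall fun u => ?_)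
    have h4 := Complex.hasSum_taylorSeries_of_entire he 0 (I * u)
    have h5 := (h4.mul_left (k u)).mul_right (cexp (I * z * u))
    refine Eq.trans ?_ h5.tsum_eq
    refine tsum_congr fun n => ?_
    change tc e n * (k u * (I * u) ^ n * cexp (I * z * u)) = _
    unfold tc
    simp only [sub_zero, smul_eq_mul]
    ring
  rw [h3] at h1
  exact h1

/-- **Task C6.** -/
theorem c6 : S_C6 := by
  intro k hk hk2 c β lam hc hlam G hd hG hX z
  set φ : ℂ → ℂ := fun s => c * cexp (β * s - lam * s ^ 2) with hφdef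
  set e : ℂ → ℂ := fun s => (c : ℂ)⁻¹ * cexp (lam * s ^ 2 - β * s) with hedef
  have hφ : Differentiable ℂ φ := by fun_prop
  have he : Differentiable ℂ e := by fun_prop
  have hc' : (c : ℂ) ≠ 0 := by exact_mod_cast hc
  have hbd : ∀ (σ : ℝ) (s : ℂ), (σ = 1 ∨ σ = -1) → ‖cexp (σ * (β * s - lam * s ^ 2))‖ ≤
      Real.exp (|β| + |lam|) * Real.exp ((|β| + |lam|) * ‖s‖ ^ 2) := by
    intro σ s hσ
    rw [Complex.norm_exp, ← Real.exp_add, Real.exp_le_exp]
    refine (Complex.re_le_norm _).trans ?_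
    have h1 : ‖(σ : ℂ)‖ = 1 := by
      rw [Complex.norm_real, Real.norm_eq_abs]
      rcases hσ with rfl | rfl <;> simp
    rw [norm_mul, h1, one_mul]
    refine (norm_sub_le _ _).trans ?_
    rw [norm_mul, norm_mul, norm_pow, Complex.norm_real, Complex.norm_real, Real.norm_eq_abs,
      Real.norm_eq_abs]
    have h2 := abs_nonneg β
    have h3 := abs_nonneg lam
    have h4 : ‖s‖ ≤ 1 + ‖s‖ ^ 2 := by nlinarith [sq_nonneg (‖s‖ - 1), norm_nonneg s]
    nlinarith [mul_le_mul_of_nonneg_left h4 h2, mul_nonneg h3 (zero_le_one' ℝ)]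
  have hb : ∀ s, ‖φ s‖ ≤ (|c| * Real.exp (|β| + |lam|)) * Real.exp ((|β| + |lam|) * ‖s‖ ^ 2) := by
    intro s
    have h1 := hbd 1 s (Or.inl rfl)
    rw [Complex.ofReal_one, one_mul] at h1
    change ‖(c : ℂ) * cexp (β * s - lam * s ^ 2)‖ ≤ _
    rw [norm_mul, Complex.norm_real, Real.norm_eq_abs, mul_assoc]
    exact mul_le_mul_of_nonneg_left h1 (abs_nonneg _)
  have hbe : ∀ s, ‖e s‖ ≤ (|c|⁻¹ * Real.exp (|β| + |lam|)) * Real.exp ((|β| + |lam|) * ‖s‖ ^ 2) := by
    intro s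
    have h1 := hbd (-1) s (Or.inr rfl)
    have h2 : ((-1 : ℝ) : ℂ) * (β * s - lam * s ^ 2) = lam * s ^ 2 - β * s := by
      push_cast
      ring
    rw [h2] at h1
    change ‖(c : ℂ)⁻¹ * cexp (lam * s ^ 2 - β * s)‖ ≤ _
    rw [norm_mul, norm_inv, Complex.norm_real, Real.norm_eq_abs, mul_assoc]
    exact mul_le_mul_of_nonneg_left h1 (by positivity)
  have h1 : ∀ s, e s * φ s = 1 := by
    intro s
    change (c : ℂ)⁻¹ * cexp (lam * s ^ 2 - β * s) * (c * cexp (β * s - lam * s ^ 2)) = 1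
    have h2 : cexp (lam * s ^ 2 - β * s) * cexp (β * s - lam * s ^ 2) = 1 := by
      rw [← Complex.exp_add]
      ring_nf
      exact Complex.exp_zero
    calc (c : ℂ)⁻¹ * cexp (lam * s ^ 2 - β * s) * (c * cexp (β * s - lam * s ^ 2)) =
        ((c : ℂ)⁻¹ * c) * (cexp (lam * s ^ 2 - β * s) * cexp (β * s - lam * s ^ 2)) := by ring
      _ = 1 := by rw [h2, inv_mul_cancel₀ hc', mul_one]
  have hX' : ∀ z, HasSum (fun k => tc φ k * iteratedDeriv k G z) (Lt k z) := hX
  have h2 := inverse hφ hb hd hG hX' he hbe h1 z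
  have h3 := sum_Lt hk hk2 he hbe z
  rw [h2.unique h3]
  unfold Lt
  rw [← integral_const_mul]
  refine integral_congr_ae (Eventually.of_forall fun u => ?_)
  change k u * ((c : ℂ)⁻¹ * cexp (lam * (I * u) ^ 2 - β * (I * u))) * cexp (I * z * u) =
    (c : ℂ)⁻¹ * (k u * ((Real.exp (-(lam * u ^ 2)) : ℝ) : ℂ) * cexp (I * (z - β) * u))
  have h4 : cexp (lam * (I * u) ^ 2 - β * (I * u)) * cexp (I * z * u) =
      ((Real.exp (-(lam * u ^ 2)) : ℝ) : ℂ) * cexp (I * (z - β) * u) := by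
    rw [Complex.ofReal_exp, ← Complex.exp_add, ← Complex.exp_add]
    congr 1
    push_cast
    rw [mul_pow, Complex.I_sq]
    ring
  calc k u * ((c : ℂ)⁻¹ * cexp (lam * (I * u) ^ 2 - β * (I * u))) * cexp (I * z * u) =
      (c : ℂ)⁻¹ * (k u * (cexp (lam * (I * u) ^ 2 - β * (I * u)) * cexp (I * z * u))) := by ring
    _ = _ := by rw [h4]; ring

end Pool.Agent.N963.GNC6
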