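-- (by helper756; copy of Pool/Agent/N756/GN/F.lean)
import Pool.Agent.N963.GN.StmZ
import Pool.Agent.H24R2.JP.Mom
import Pool.Agent.H24R2.JP.Zeros
import Pool.Agent.H24R2.JP.B1
import Pool.Agent.H370R2.Digamma

set_option autoImplicit false

/-!
# Task F: the logarithmic derivative of the transform of the kernel of the xi function
-/

namespace Pool.Agent.N963.GNF

open Complex Filter Topology MeasureTheory
open Pool.Agent.N963.GN Pool.Agent.H24R2.JP Pool.Agent.Helper242
open scoped ArithmeticFunction.vonMangoldt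

/-- The transform in terms of `XX`. -/
theorem Lt_eq (z : ℂ) :
    Lt (fun u : ℝ => ((RK.Phi u : ℝ) : ℂ)) z = XX (-(I * z / 2)) / 32 := by
  rw [B1h.XX_neg]
  have h1 : XX (I * z / 2) = 8 * MomAux.L KK.Ph (I * z / 2) := congrFun MomAux.XX_eq _
  rw [h1]
  have h2 : ∫ u : ℝ, (fun t : ℝ => ((KK.Ph t : ℝ) : ℂ) * cexp (I * z / 2 * t)) (2 * u) =
      |(2 : ℝ)⁻¹| • ∫ t : ℝ, ((KK.Ph t : ℝ) : ℂ) * cexp (I * z / 2 * t) :=
    Measure.integral_comp_mul_left (fun t : ℝ => ((KK.Ph t : ℝ) : ℂ) * cexp (I * z / 2 * t)) 2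
  have h3 : ∫ u : ℝ, (fun t : ℝ => ((KK.Ph t : ℝ) : ℂ) * cexp (I * z / 2 * t)) (2 * u) =
      2 * Lt (fun u : ℝ => ((RK.Phi u : ℝ) : ℂ)) z := by
    unfold Lt
    rw [← integral_const_mul]
    refine integral_congr_ae (Eventually.of_forall fun u => ?_)
    simp only [KK.Ph]
    rw [show (2 * u) / 2 = u by ring]
    push_cast
    rw [show I * z / 2 * (2 * (u : ℂ)) = I * z * u by ring]
    ring
  rw [h3] at h2
  have h4 : MomAux.L KK.Ph (I * z / 2) = 4 * Lt (fun u : ℝ => ((RK.Phi u : ℝ) : ℂ)) z := by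
    unfold MomAux.L
    rw [abs_of_pos (by norm_num : (0 : ℝ) < 2⁻¹), Complex.real_smul] at h2
    push_cast at h2
    linear_combination (-2 : ℂ) * h2
  rw [h4]
  ring

theorem logDeriv_Lt (z : ℂ) :
    logDeriv (Lt (fun u : ℝ => ((RK.Phi u : ℝ) : ℂ))) z =
      -(I / 2) * logDeriv XX (-(I * z / 2)) := by
  have e : Lt (fun u : ℝ => ((RK.Phi u : ℝ) : ℂ)) =
      fun z => (XX ∘ fun z : ℂ => -(I * z / 2)) z * (1 / 32) := by
    funext z
    rw [Lt_eq]
    simp only [Function.comp]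
    ring
  rw [e, logDeriv_mul_const _ _ (by norm_num)]
  have hd : HasDerivAt (fun z : ℂ => -(I * z / 2)) (-(I / 2)) z := by
    have : HasDerivAt (fun z : ℂ => -(I * z / 2)) (-(I * 1 / 2)) z :=
      (((hasDerivAt_id z).const_mul I).div_const 2).neg
    exact this.congr_deriv (by ring)
  rw [logDeriv_comp (B1h.XX_diff _) hd.differentiableAt, hd.deriv]
  ring

/-- The logarithmic derivative of zeta is bounded in `Re s ≥ 2`. -/
theorem zeta_bd : ∃ C : ℝ, ∀ s : ℂ, 2 ≤ s.re → ‖logDeriv riemannZeta s‖ ≤ C := by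
  refine ⟨∑' n, ‖LSeries.term ((fun n : ℕ => ((Λ n : ℝ) : ℂ))) (2 : ℂ) n‖, fun s hs => ?_⟩
  have h1 : logDeriv riemannZeta s = - LSeries (fun n : ℕ => ((Λ n : ℝ) : ℂ)) s := by
    rw [ArithmeticFunction.LSeries_vonMangoldt_eq_deriv_riemannZeta_div (by linarith), logDeriv_apply]
    ring
  rw [h1, norm_neg]
  have h2 : LSeriesSummable (fun n : ℕ => ((Λ n : ℝ) : ℂ)) (2 : ℂ) :=
    ArithmeticFunction.LSeriesSummable_vonMangoldt (by norm_num)
  unfold LSeries
  refine tsum_of_norm_bounded h2.norm.hasSum fun n => ?_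
  exact LSeries.norm_term_le_of_re_le_re (fun n : ℕ => ((Λ n : ℝ) : ℂ)) (by simpa using hs) n

theorem XX_zeta' (z : ℂ) (h1 : 1 / 2 < z.re) :
    XX z = (4 * z ^ 2 - 1) * (Gammaℝ (1 / 2 + z) * riemannZeta (1 / 2 + z)) := by
  have hs0 : (1 / 2 + z : ℂ) ≠ 0 := by
    intro h
    have := congrArg Complex.re h
    simp at this
    linarith
  have hs1 : (1 - (1 / 2 + z) : ℂ) ≠ 0 := by
    intro h
    have := congrArg Complex.re h
    simp at this
    linarith
  have hre : 0 < (1 / 2 + z : ℂ).re := by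
    simp
    linarith
  have h3 := riemannZeta_def_of_ne_zero hs0
  have h4 : Gammaℝ (1 / 2 + z) ≠ 0 := Gammaℝ_ne_zero_of_re_pos hre
  rw [Zer.XX_eq z hs0 hs1, h3, mul_div_cancel₀ _ h4]

/-- The logarithmic derivative of `XX` to the right, upper half plane or lower half plane. -/
theorem XX_ld : ∃ C : ℝ, 0 < C ∧ ∀ w : ℂ, 3 / 2 ≤ w.re → w.re ≤ 5 / 2 → 1 ≤ |w.im| →
    XX w ≠ 0 ∧ ‖logDeriv XX w - ((Real.log |w.im / 2| / 2 : ℝ) : ℂ)‖ ≤ C := by
  obtain ⟨C1, hC1⟩ := zeta_bd
  obtain ⟨C2, hC2⟩ := H370.digamma_bound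
  refine ⟨|C1| + |C2| + 2 + |Real.log Real.pi|, by positivity, fun w h1 h2 h3 => ⟨?_, ?_⟩⟩
  · intro h
    have := Zer.re_le w h
    linarith
  · have hw1 : 3 / 2 ≤ ‖w‖ := h1.trans (re_le_norm w)
    have hq0 : (4 * w ^ 2 - 1 : ℂ) ≠ 0 := by
      intro h
      have h5 : ‖(4 * w ^ 2 : ℂ)‖ = 1 := by
        rw [show (4 * w ^ 2 : ℂ) = 1 by linear_combination h, norm_one]
      rw [norm_mul, norm_pow] at h5
      norm_num at h5
      nlinarith
    have hre : 0 < (1 / 2 + w : ℂ).re := by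
      simp
      linarith
    have hs : ((1 / 2 + w) / 2 : ℂ).re = (1 / 2 + w.re) / 2 := by simp
    have hsi : ((1 / 2 + w) / 2 : ℂ).im = w.im / 2 := by simp
    have hG0 : Gamma ((1 / 2 + w) / 2) ≠ 0 := Gamma_ne_zero_of_re_pos (by rw [hs]; linarith)
    have hGd : DifferentiableAt ℂ Gamma ((1 / 2 + w) / 2) := by
      apply differentiableAt_Gamma
      intro m h
      have := congrArg Complex.re h
      rw [hs] at this
      simp at this
      have hm : (0 : ℝ) ≤ m := Nat.cast_nonneg m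
      linarith
    have hz1 : (1 / 2 + w : ℂ) ≠ 1 := by
      intro h
      have := congrArg Complex.re h
      simp at this
      linarith
    have hz0 : riemannZeta (1 / 2 + w) ≠ 0 := by
      apply riemannZeta_ne_zero_of_one_lt_re
      simp
      linarith
    have hpi : (Real.pi : ℂ) ≠ 0 := by exact_mod_cast Real.pi_pos.ne'
    -- the factorization near w
    have hev : XX =ᶠ[𝓝 w] fun z => (4 * z ^ 2 - 1) * ((((Real.pi : ℂ) ^ (-(1 / 2 + z) / 2)) *
        (Gamma ∘ fun z : ℂ => (1 / 2 + z) / 2) z) * (riemannZeta ∘ fun z : ℂ => 1 / 2 + z) z) := by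
      have : {z : ℂ | 1 / 2 < z.re} ∈ 𝓝 w :=
        (isOpen_lt continuous_const continuous_re).mem_nhds (by
          show (1 / 2 : ℝ) < w.re
          linarith)
      filter_upwards [this] with z hz
      rw [XX_zeta' z hz, Gammaℝ_def]
      rfl
    have d1 : HasDerivAt (fun z : ℂ => 4 * z ^ 2 - 1) (8 * w) w := by
      have := ((hasDerivAt_pow 2 w).const_mul 4).sub_const 1
      refine this.congr_deriv ?_
      push_cast
      ring
    have dg : HasDerivAt (fun z : ℂ => (1 / 2 + z) / 2) (1 / 2) w :=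
      ((hasDerivAt_id w).const_add (1 / 2)).div_const 2
    have dz : HasDerivAt (fun z : ℂ => 1 / 2 + z) 1 w := (hasDerivAt_id w).const_add (1 / 2)
    have dp0 : HasDerivAt (fun z : ℂ => -(1 / 2 + z) / 2) (-(1 / 2)) w := by
      have := (((hasDerivAt_id w).const_add (1 / 2)).neg).div_const 2
      refine this.congr_deriv ?_
      ring
    have dp : HasDerivAt (fun z : ℂ => (Real.pi : ℂ) ^ (-(1 / 2 + z) / 2))
        ((Real.pi : ℂ) ^ (-(1 / 2 + w) / 2) * Complex.log Real.pi * (-(1 / 2))) w :=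
      dp0.const_cpow (Or.inl hpi)
    have dG : DifferentiableAt ℂ (Gamma ∘ fun z : ℂ => (1 / 2 + z) / 2) w :=
      DifferentiableAt.comp w hGd dg.differentiableAt
    have dZ : DifferentiableAt ℂ (riemannZeta ∘ fun z : ℂ => 1 / 2 + z) w :=
      DifferentiableAt.comp w (differentiableAt_riemannZeta hz1) dz.differentiableAt
    have hp0 : (Real.pi : ℂ) ^ (-(1 / 2 + w) / 2) ≠ 0 := by
      rw [Complex.cpow_def_of_ne_zero hpi]
      exact Complex.exp_ne_zero _
    have key : logDeriv XX w = 8 * w / (4 * w ^ 2 - 1) + (-(Complex.log Real.pi / 2) +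
        logDeriv Gamma ((1 / 2 + w) / 2) / 2 + logDeriv riemannZeta (1 / 2 + w)) := by
      rw [(logDeriv_congr_nhds hev).eq_of_nhds]
      rw [logDeriv_mul (f := fun z : ℂ => 4 * z ^ 2 - 1)
        (g := fun z : ℂ => (Real.pi : ℂ) ^ (-(1 / 2 + z) / 2) *
        (Gamma ∘ fun z : ℂ => (1 / 2 + z) / 2) z * (riemannZeta ∘ fun z : ℂ => 1 / 2 + z) z) w hq0
        (mul_ne_zero (mul_ne_zero hp0 hG0) hz0) d1.differentiableAt
        ((dp.differentiableAt.mul dG).mul dZ)]
      rw [logDeriv_mul (f := fun z : ℂ => (Real.pi : ℂ) ^ (-(1 / 2 + z) / 2) *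
        (Gamma ∘ fun z : ℂ => (1 / 2 + z) / 2) z) w (mul_ne_zero hp0 hG0) hz0
        (dp.differentiableAt.mul dG) dZ]
      rw [logDeriv_mul (f := fun z : ℂ => (Real.pi : ℂ) ^ (-(1 / 2 + z) / 2)) w hp0 hG0
        dp.differentiableAt dG]
      rw [logDeriv_comp (g := fun z : ℂ => (1 / 2 + z) / 2) hGd dg.differentiableAt,
        logDeriv_comp (g := fun z : ℂ => 1 / 2 + z) (differentiableAt_riemannZeta hz1)
        dz.differentiableAt, dg.deriv, dz.deriv]
      rw [logDeriv_apply (fun z : ℂ => 4 * z ^ 2 - 1), d1.deriv,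
        logDeriv_apply (fun z : ℂ => (Real.pi : ℂ) ^ (-(1 / 2 + z) / 2)), dp.deriv]
      have e1 : (Real.pi : ℂ) ^ (-(1 / 2 + w) / 2) * Complex.log Real.pi * (-(1 / 2)) /
          (Real.pi : ℂ) ^ (-(1 / 2 + w) / 2) = -(Complex.log Real.pi / 2) := by
        field_simp
      rw [e1]
      ring
    have b1 : ‖(8 * w / (4 * w ^ 2 - 1) : ℂ)‖ ≤ 2 := by
      have h6 : 3 * ‖w‖ ^ 2 ≤ ‖(4 * w ^ 2 - 1 : ℂ)‖ := by
        have h7 : ‖(4 * w ^ 2 : ℂ)‖ - ‖(1 : ℂ)‖ ≤ ‖(4 * w ^ 2 - 1 : ℂ)‖ := norm_sub_norm_le _ _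
        rw [norm_mul, norm_pow, norm_one] at h7
        norm_num at h7
        nlinarith
      have h8 : 0 < ‖(4 * w ^ 2 - 1 : ℂ)‖ := norm_pos_iff.2 hq0
      rw [norm_div, div_le_iff₀ h8, norm_mul]
      norm_num
      nlinarith
    have b2 : ‖(Complex.log Real.pi / 2 : ℂ)‖ ≤ |Real.log Real.pi| := by
      have h22 : ‖(2 : ℂ)‖ = 2 := by norm_num
      rw [← Complex.ofReal_log Real.pi_pos.le, norm_div, Complex.norm_real, Real.norm_eq_abs, h22]
      have := abs_nonneg (Real.log Real.pi)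
      linarith
    have b3 := hC1 (1 / 2 + w) (by
      simp
      linarith)
    have b4 := hC2 ((1 / 2 + w) / 2) (by rw [hs]; linarith) (by rw [hs]; linarith) (by
      rw [hsi, abs_div, abs_two]
      linarith)
    rw [hsi] at b4
    have e2 : logDeriv XX w - ((Real.log |w.im / 2| / 2 : ℝ) : ℂ) =
        8 * w / (4 * w ^ 2 - 1) + (-(Complex.log Real.pi / 2)) +
        (logDeriv Gamma ((1 / 2 + w) / 2) - Real.log |w.im / 2|) / 2 +
        logDeriv riemannZeta (1 / 2 + w) := by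
      rw [key]
      push_cast
      ring
    rw [e2]
    have n1 := norm_add_le (8 * w / (4 * w ^ 2 - 1) + (-(Complex.log Real.pi / 2)) +
        (logDeriv Gamma ((1 / 2 + w) / 2) - Real.log |w.im / 2|) / 2)
        (logDeriv riemannZeta (1 / 2 + w))
    have n2 := norm_add_le (8 * w / (4 * w ^ 2 - 1) + (-(Complex.log Real.pi / 2)))
        ((logDeriv Gamma ((1 / 2 + w) / 2) - Real.log |w.im / 2|) / 2)
    have n3 := norm_add_le (8 * w / (4 * w ^ 2 - 1)) (-(Complex.log Real.pi / 2))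
    rw [norm_neg] at n3
    have n4 : ‖(logDeriv Gamma ((1 / 2 + w) / 2) - Real.log |w.im / 2|) / 2‖ ≤ |C2| := by
      have h22 : ‖(2 : ℂ)‖ = 2 := by norm_num
      rw [norm_div, h22]
      have := le_abs_self C2
      have := norm_nonneg (logDeriv Gamma ((1 / 2 + w) / 2) - Real.log |w.im / 2|)
      linarith
    have := le_abs_self C1
    linarith

theorem f1 : S_F := by
  obtain ⟨C, hC, hX⟩ := XX_ld
  refine ⟨1 / 4, 4, 1, C + Real.log 8, 4, by norm_num, by norm_num, by norm_num, by positivity,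
    by norm_num, ?_⟩
  intro x hx z hz
  have hre : |z.re - x| ≤ 1 := by
    have := (abs_re_le_norm (z - ((x : ℂ) + (4 : ℝ) * I))).trans hz
    simpa using this
  have him : |z.im - 4| ≤ 1 := by
    have := (abs_im_le_norm (z - ((x : ℂ) + (4 : ℝ) * I))).trans hz
    simpa using this
  have hwr : (-(I * z / 2)).re = z.im / 2 := by
    have : (-(I * z / 2)).re = -((I * z).re / 2) := by
      rw [Complex.neg_re]
      congr 1
      rw [show (I * z / 2 : ℂ) = (I * z) / ((2 : ℝ) : ℂ) by norm_num, Complex.div_ofReal_re]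
    rw [this]
    simp
    ring
  have hwi : (-(I * z / 2)).im = -(z.re / 2) := by
    simp
  rw [abs_le] at him
  have hz1 : |x| - 1 ≤ |z.re| := by
    have := abs_sub_abs_le_abs_sub x z.re
    rw [abs_sub_comm x z.re] at this
    linarith
  have hz2 : |z.re| ≤ |x| + 1 := by
    have := abs_sub_abs_le_abs_sub z.re x
    linarith
  have hz3 : |(-(I * z / 2)).im| = |z.re| / 2 := by
    rw [hwi, abs_neg, abs_div, abs_two]
  obtain ⟨h1, h2⟩ := hX (-(I * z / 2)) (by rw [hwr]; linarith) (by rw [hwr]; linarith)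
    (by rw [hz3]; linarith)
  refine ⟨?_, ?_⟩
  · rw [Lt_eq]
    exact div_ne_zero h1 (by norm_num)
  · rw [logDeriv_Lt]
    set W : ℂ := -(I * z / 2) with hW
    have hlog : |(Real.log |W.im / 2|) - (Real.log |x|)| ≤ Real.log 8 := by
      have hx0 : 0 < |x| := by linarith
      have e : |W.im / 2| = |z.re| / 4 := by
        rw [abs_div, hz3, abs_two]
        ring
      rw [e, ← Real.log_div (by linarith) hx0.ne', abs_le]
      have hp : 0 < |z.re| / 4 / |x| := by
        apply div_pos _ hx0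
        linarith
      constructor
      · rw [← Real.log_inv]
        apply Real.log_le_log (by norm_num)
        rw [le_div_iff₀ hx0]
        linarith
      · apply Real.log_le_log hp
        rw [div_le_iff₀ hx0]
        linarith
    have e3 : -(I / 2) * logDeriv XX W + I * ((1 / 4 * Real.log |x| : ℝ) : ℂ) =
        -(I / 2) * (logDeriv XX W - ((Real.log |W.im / 2| / 2 : ℝ) : ℂ)) -
          (I / 4) * ((Real.log |W.im / 2| - Real.log |x| : ℝ) : ℂ) := by
      push_cast
      ring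
    rw [e3]
    have n1 := norm_sub_le (-(I / 2) * (logDeriv XX W - ((Real.log |W.im / 2| / 2 : ℝ) : ℂ)))
      ((I / 4) * ((Real.log |W.im / 2| - Real.log |x| : ℝ) : ℂ))
    have n2 : ‖-(I / 2) * (logDeriv XX W - ((Real.log |W.im / 2| / 2 : ℝ) : ℂ))‖ ≤ C := by
      have h22 : ‖(2 : ℂ)‖ = 2 := by norm_num
      rw [norm_mul, norm_neg, norm_div, norm_I, h22]
      have := norm_nonneg (logDeriv XX W - ((Real.log |W.im / 2| / 2 : ℝ) : ℂ))
      linarith
    have n3 : ‖(I / 4) * ((Real.log |W.im / 2| - Real.log |x| : ℝ) : ℂ)‖ ≤ Real.log 8 := by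
      rw [norm_mul, norm_div, norm_I, Complex.norm_real, Real.norm_eq_abs]
      have h44 : ‖(4 : ℂ)‖ = 4 := by norm_num
      rw [h44]
      have := abs_nonneg ((Real.log |W.im / 2|) - (Real.log |x|))
      linarith
    linarith

end Pool.Agent.N963.GNF
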