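import Pool.Agent.N963.GN.D2

set_option autoImplicit false

/-! Task D. -/

namespace Pool.Agent.N963.GN

open Complex Filter Topology MeasureTheory
open scoped ComplexConjugate

variable {K : ℂ → ℂ} {α : ℝ}

lemma Ka_herm (hK : Kern K α) (a : ℝ) (u : ℝ) : Ka K a ((-u : ℝ) : ℂ) = conj (Ka K a (u : ℂ)) := by
  unfold Ka
  rw [hK.herm, map_div₀]
  congr 1
  simp

lemma sym_G (hK : Kern K α) (a : ℝ) : Sym (Lt (fun u => Ka K a (u : ℂ))) := by
  refine sym_Lt fun u => ?_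
  exact Ka_herm hK a u

lemma Sym.im_zero {f : ℂ → ℂ} (hf : Sym f) (x : ℝ) : (f x).im = 0 := by
  have h := hf x
  rw [Complex.conj_ofReal] at h
  exact Complex.conj_eq_iff_im.1 h.symm

lemma Sym.deriv {f : ℂ → ℂ} (hf : Sym f) : Sym (deriv f) := by
  intro z
  have h1 : (starRingEnd ℂ) ∘ f ∘ (starRingEnd ℂ) = f := by
    funext w
    simp only [Function.comp_apply]
    rw [hf w, Complex.conj_conj]
  have h2 : _root_.deriv ((starRingEnd ℂ) ∘ f ∘ (starRingEnd ℂ)) =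
      (starRingEnd ℂ) ∘ _root_.deriv f ∘ (starRingEnd ℂ) := deriv_conj_conj
  rw [h1] at h2
  have h3 := congrFun h2 ((starRingEnd ℂ) z)
  simp only [Function.comp_apply, Complex.conj_conj] at h3
  exact h3

lemma real_of_im {z : ℂ} (h : z.im = 0) : z = (z.re : ℂ) := by
  apply Complex.ext <;> simp [h]

theorem taskD : S_D := by
  intro K α hK a ha t ht ht2 G
  have hw := wt_real hK ha
  have hG : G = Lt (fun u : ℝ => Ka K a (u : ℂ)) := rfl
  have hG1 : deriv G = Lt (fun u : ℝ => Ka K a (u : ℂ) * (I * u)) := by rw [hG, deriv_Lt hw]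
  have hG2 : deriv (deriv G) = Lt (fun u : ℝ => Ka K a (u : ℂ) * (I * u) * (I * u)) := by
    rw [hG1, deriv_Lt hw.mulId]
  have hsym : Sym G := sym_G hK a
  set F : ℕ → ℝ → ℂ := fun j x => ∫ u : ℝ, fj K a t j u * cexp (I * x * u) with hF
  have e0 : ∀ x : ℝ, F 0 x = G x * ((Real.exp (t * x) : ℝ) : ℂ) := by
    intro x
    rw [hF]
    simp only
    rw [← fj_eq hK ha ht ht2 (by norm_num) x, hG]
    unfold Lt
    congr 1
    refine integral_congr_ae (Eventually.of_forall fun u => ?_)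
    simp only [pow_zero, one_mul]
  have e1 : ∀ x : ℝ, F 1 x = deriv G x * ((Real.exp (t * x) : ℝ) : ℂ) := by
    intro x
    rw [hF]
    simp only
    rw [← fj_eq hK ha ht ht2 (by norm_num) x, hG1]
    unfold Lt
    congr 1
    refine integral_congr_ae (Eventually.of_forall fun u => ?_)
    simp only [pow_one]
    ring
  have e2 : ∀ x : ℝ, F 2 x = deriv (deriv G) x * ((Real.exp (t * x) : ℝ) : ℂ) := by
    intro x
    rw [hF]
    simp only
    rw [← fj_eq hK ha ht ht2 (by norm_num) x, hG2]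
    unfold Lt
    congr 1
    refine integral_congr_ae (Eventually.of_forall fun u => ?_)
    simp only
    ring
  obtain ⟨i0, m0⟩ := fj_int hK ha ht ht2 (j := 0) (by norm_num)
  obtain ⟨i1, m1⟩ := fj_int hK ha ht ht2 (j := 1) (by norm_num)
  obtain ⟨i2, m2⟩ := fj_int hK ha ht ht2 (j := 2) (by norm_num)
  obtain ⟨p0, q0⟩ := planch _ i0 m0
  obtain ⟨p1, q1⟩ := planch _ i1 m1
  obtain ⟨pp, qp⟩ := planch _ (i0.add i2) (m0.add m2)
  obtain ⟨pm, qm⟩ := planch _ (i0.sub i2) (m0.sub m2)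
  have hsplit : ∀ (x : ℝ) (j : ℕ), Integrable (fj K a t j) → Integrable (fun u : ℝ => fj K a t j u * cexp (I * x * u)) := by
    intro x j hj
    refine hj.mul_bdd (c := 1) (by fun_prop) (Eventually.of_forall fun u => ?_)
    have : I * (x : ℂ) * u = ((x * u : ℝ) : ℂ) * I := by push_cast; ring
    rw [this, Complex.norm_exp_ofReal_mul_I]
  have ep : ∀ x : ℝ, (∫ u : ℝ, (fj K a t 0 + fj K a t 2) u * cexp (I * x * u)) = F 0 x + F 2 x := by
    intro x
    rw [hF]
    simp only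
    rw [← integral_add (hsplit x 0 i0) (hsplit x 2 i2)]
    refine integral_congr_ae (Eventually.of_forall fun u => ?_)
    simp only [Pi.add_apply]
    ring
  have em : ∀ x : ℝ, (∫ u : ℝ, (fj K a t 0 - fj K a t 2) u * cexp (I * x * u)) = F 0 x - F 2 x := by
    intro x
    rw [hF]
    simp only
    rw [← integral_sub (hsplit x 0 i0) (hsplit x 2 i2)]
    refine integral_congr_ae (Eventually.of_forall fun u => ?_)
    simp only [Pi.sub_apply]
    ring
  simp only [ep] at pp qp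
  simp only [em] at pm qm
  have hexp : ∀ x : ℝ, Real.exp (t * x) ^ 2 = Real.exp (2 * t * x) := by
    intro x
    rw [← Real.exp_nat_mul]; congr 1; push_cast; ring
  have k0 : ∀ x : ℝ, ‖G x‖ ^ 2 * Real.exp (2 * t * x) = ‖F 0 x‖ ^ 2 := by
    intro x
    rw [e0, norm_mul, mul_pow, Complex.norm_real, Real.norm_eq_abs, Real.abs_exp, hexp]
  have kk : ∀ x : ℝ, ((deriv G x) ^ 2 - G x * deriv (deriv G) x).re * Real.exp (2 * t * x) =
      ‖F 1 x‖ ^ 2 - (‖F 0 x + F 2 x‖ ^ 2 - ‖F 0 x - F 2 x‖ ^ 2) / 4 := by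
    intro x
    rw [e0, e1, e2]
    have r0 := real_of_im (hsym.im_zero x)
    have r1 := real_of_im (hsym.deriv.im_zero x)
    have r2 := real_of_im (hsym.deriv.deriv.im_zero x)
    rw [r0, r1, r2]
    set A := (G x).re
    set B := (deriv G x).re
    set D := (deriv (deriv G) x).re
    set E := Real.exp (t * x) with hE
    rw [← hexp x, ← hE]
    have f1 : ‖(B : ℂ) * (E : ℂ)‖ ^ 2 = (B * E) ^ 2 := by
      rw [← Complex.ofReal_mul, Complex.norm_real, Real.norm_eq_abs, sq_abs]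
    have f2 : ‖(A : ℂ) * (E : ℂ) + (D : ℂ) * (E : ℂ)‖ ^ 2 = (A * E + D * E) ^ 2 := by
      rw [← Complex.ofReal_mul, ← Complex.ofReal_mul, ← Complex.ofReal_add, Complex.norm_real,
        Real.norm_eq_abs, sq_abs]
    have f3 : ‖(A : ℂ) * (E : ℂ) - (D : ℂ) * (E : ℂ)‖ ^ 2 = (A * E - D * E) ^ 2 := by
      rw [← Complex.ofReal_mul, ← Complex.ofReal_mul, ← Complex.ofReal_sub, Complex.norm_real,
        Real.norm_eq_abs, sq_abs]
    rw [f1, f2, f3]
    have f4 : ((B : ℂ) ^ 2 - (A : ℂ) * (D : ℂ)).re = B ^ 2 - A * D := by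
      rw [← Complex.ofReal_pow, ← Complex.ofReal_mul, ← Complex.ofReal_sub, Complex.ofReal_re]
    rw [f4]
    ring
  have n0 : Integrable (fun u : ℝ => ‖fj K a t 0 u‖ ^ 2) := m0.integrable_norm_pow (by norm_num)
  have n1 : Integrable (fun u : ℝ => ‖fj K a t 1 u‖ ^ 2) := m1.integrable_norm_pow (by norm_num)
  have np : Integrable (fun u : ℝ => ‖(fj K a t 0 + fj K a t 2) u‖ ^ 2) :=
    (m0.add m2).integrable_norm_pow (by norm_num)
  have nm : Integrable (fun u : ℝ => ‖(fj K a t 0 - fj K a t 2) u‖ ^ 2) :=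
    (m0.sub m2).integrable_norm_pow (by norm_num)
  refine ⟨?_, ?_, ?_, ?_⟩
  · exact p0.congr (Eventually.of_forall fun x => (k0 x).symm)
  · have := p1.sub ((pp.sub pm).div_const 4)
    exact this.congr (Eventually.of_forall fun x => (kk x).symm)
  · rw [integral_congr_ae (Eventually.of_forall k0), q0]
    congr 1
    refine integral_congr_ae (Eventually.of_forall fun u => ?_)
    simp only [fj, pow_zero, one_mul]
  · rw [integral_congr_ae (Eventually.of_forall kk)]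
    have p1' : Integrable (fun x => ‖F 1 x‖ ^ 2) := p1
    have pd : Integrable (fun x => (‖F 0 x + F 2 x‖ ^ 2 - ‖F 0 x - F 2 x‖ ^ 2) / 4) :=
      (pp.sub pm).div_const 4
    have q1' : ∫ x : ℝ, ‖F 1 x‖ ^ 2 = 2 * Real.pi * ∫ u : ℝ, ‖fj K a t 1 u‖ ^ 2 := q1
    rw [integral_sub p1' pd, integral_div, integral_sub pp pm, q1', qp, qm]
    have : ∫ u : ℝ, u ^ 2 * ‖Ka K a ((u : ℂ) + t * I)‖ ^ 2 =
        1 / 2 * ((∫ u : ℝ, ‖fj K a t 1 u‖ ^ 2) - ((∫ u : ℝ, ‖(fj K a t 0 + fj K a t 2) u‖ ^ 2) -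
          ∫ u : ℝ, ‖(fj K a t 0 - fj K a t 2) u‖ ^ 2) / 4) := by
      have nd : Integrable (fun u : ℝ => (‖(fj K a t 0 + fj K a t 2) u‖ ^ 2 -
          ‖(fj K a t 0 - fj K a t 2) u‖ ^ 2) / 4) := (np.sub nm).div_const 4
      rw [← integral_sub np nm, ← integral_div, ← integral_sub n1 nd,
        ← integral_const_mul]
      refine integral_congr_ae (Eventually.of_forall fun u => ?_)
      simp only [fj, Pi.add_apply, Pi.sub_apply, pow_zero, one_mul, pow_one]
      set κ := Ka K a ((u : ℂ) + t * I)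
      have g1 : κ + (I * ((u : ℂ) + t * I)) ^ 2 * κ = (1 + (I * ((u : ℂ) + t * I)) ^ 2) * κ := by ring
      have g2 : κ - (I * ((u : ℂ) + t * I)) ^ 2 * κ = (1 - (I * ((u : ℂ) + t * I)) ^ 2) * κ := by ring
      rw [g1, g2, norm_mul _ κ, norm_mul _ κ, norm_mul _ κ, mul_pow _ ‖κ‖, mul_pow _ ‖κ‖, mul_pow _ ‖κ‖]
      have h1 : ‖I * ((u : ℂ) + t * I)‖ ^ 2 = u ^ 2 + t ^ 2 := by
        rw [norm_mul, Complex.norm_I, one_mul, ← Complex.normSq_eq_norm_sq, Complex.normSq_add_mul_I]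
      have h2 : (I * ((u : ℂ) + t * I)) ^ 2 = ((t ^ 2 - u ^ 2 : ℝ) : ℂ) + ((-(2 * u * t) : ℝ) : ℂ) * I := by
        push_cast
        have := Complex.I_mul_I
        linear_combination ((u : ℂ) ^ 2 + 2 * u * t * I + t ^ 2 * I ^ 2 - t ^ 2) * this
      have h3 : ‖1 + (I * ((u : ℂ) + t * I)) ^ 2‖ ^ 2 = (1 + (t ^ 2 - u ^ 2)) ^ 2 + (2 * u * t) ^ 2 := by
        rw [h2, ← add_assoc, ← Complex.ofReal_one, ← Complex.ofReal_add, ← Complex.normSq_eq_norm_sq,
          Complex.normSq_add_mul_I]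
        ring
      have h4 : ‖1 - (I * ((u : ℂ) + t * I)) ^ 2‖ ^ 2 = (1 - (t ^ 2 - u ^ 2)) ^ 2 + (2 * u * t) ^ 2 := by
        have h5 : (1 : ℂ) - (I * ((u : ℂ) + t * I)) ^ 2 =
            ((1 - (t ^ 2 - u ^ 2) : ℝ) : ℂ) + ((2 * u * t : ℝ) : ℂ) * I := by
          rw [h2]; push_cast; ring
        rw [h5, ← Complex.normSq_eq_norm_sq, Complex.normSq_add_mul_I]
      rw [h1, h3, h4]
      ring
    rw [this]
    ring

end Pool.Agent.N963.GN
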