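import Pool.Agent.N963.GN.T4
import Pool.Agent.N768.GN.A
import Pool.Agent.N170.GN.R

set_option autoImplicit false

/-!
# The abstract theorem: averages with Polya frequency weights have infinitely many non-real zeros
-/

namespace Pool.Agent.N963.GN

open Complex Filter Topology MeasureTheory Polynomial
open scoped ComplexConjugate

variable {K : ℂ → ℂ} {α : ℝ}

lemma Kern.cont (hK : Kern K α) : Continuous (fun u : ℝ => K (u : ℂ)) := by
  rw [continuous_iff_continuousAt]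
  intro u
  have h1 : ContinuousAt K (u : ℂ) := (hK.diff u (by simp [hK.pos])).continuousAt
  exact h1.comp Complex.continuous_ofReal.continuousAt

lemma Kern.wt (hK : Kern K α) : Wt (fun u : ℝ => K (u : ℂ)) := by
  refine Wt.of_norm hK.cont.aestronglyMeasurable fun M hM => ?_
  obtain ⟨C, hC, h⟩ := hK.dec 0 le_rfl hK.pos (M + 1)
  refine (exp_abs_integrable C).mono' (by
    exact (hK.cont.norm.mul (by fun_prop)).aestronglyMeasurable) (Eventually.of_forall fun u => ?_)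
  have h1 := h (u : ℂ) (by simp)
  rw [Complex.ofReal_re] at h1
  rw [Real.norm_eq_abs, abs_mul, abs_norm, Real.abs_exp]
  calc ‖K (u : ℂ)‖ * Real.exp (M * |u|) ≤ C * Real.exp (-((M + 1) * |u|)) * Real.exp (M * |u|) := by
        gcongr
    _ = C * Real.exp (-|u|) := by
        rw [mul_assoc, ← Real.exp_add]
        congr 2
        ring

lemma gro_Lt (hK : Kern K α) {h : ℝ → ℂ} (hh : Wt h) (hle : ∀ u : ℝ, ‖h u‖ ≤ ‖K (u : ℂ)‖) : Gro (Lt h) := by
  obtain ⟨C, hC, hg⟩ := hK.gro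
  refine ⟨C, hC, fun z => (norm_Lt_le hh z).trans (le_trans ?_ (hg ‖z‖ (norm_nonneg _)))⟩
  refine integral_mono (hh.norm_int _) (hK.wt.norm_int _) fun u => ?_
  exact mul_le_mul_of_nonneg_right (hle u) (Real.exp_pos _).le

lemma LD.ne {X : ℂ → ℂ} (h : LD X) : ∃ z, X z ≠ 0 := by
  obtain ⟨c0, h0, r0, CC, x0, hc0, hr0, hrh, hCC, hx0, hL⟩ := h
  exact ⟨_, (hL x0 (by rw [abs_of_pos (by linarith)]) ((x0 : ℂ) + h0 * I) (by simp [hr0.le])).1⟩

lemma X_eq (hK : Kern K α) {a : ℝ} (ha : 0 < a) :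
    (fun z => Lt (fun u : ℝ => Ka K a (u : ℂ)) z - deriv (Lt (fun u : ℝ => Ka K a (u : ℂ))) z / a) =
      Lt (fun u : ℝ => K (u : ℂ)) := by
  have hw := wt_real hK ha
  funext z
  rw [deriv_Lt hw]
  unfold Lt
  rw [← integral_div, ← integral_sub (hw.integrand z) ((hw.mulId.integrand z).div_const _)]
  refine integral_congr_ae (Eventually.of_forall fun u => ?_)
  simp only [Ka]
  have h1 := den_ne ha (w := (u : ℂ)) (by simp)
  have ha' : (a : ℂ) ≠ 0 := by exact_mod_cast ha.ne'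
  have h2 : K (u : ℂ) = K (u : ℂ) / (1 - I * u / a) * (1 - I * u / a) := (div_mul_cancel₀ _ h1).symm
  conv_rhs => rw [h2]
  ring

theorem engine_pos (h1 : S_H1) (h3 : S_H3) (h5 : S_T5) (h6 : S_T6) (hK : Kern K α) (hM : MS K α)
    (hL : LD (Lt (fun u : ℝ => K (u : ℂ)))) {a : ℝ} (ha : 0 < a) (m : ℕ) :
    ¬ App m (Lt (fun u : ℝ => Ka K a (u : ℂ))) := by
  intro hA
  have hw := wt_real hK ha
  have hX := X_eq hK ha
  have hG : Differentiable ℂ (Lt (fun u : ℝ => Ka K a (u : ℂ))) := diff_Lt hw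
  have hs : Sym (Lt (fun u : ℝ => Ka K a (u : ℂ))) := sym_G hK a
  have hgr : Gro (Lt (fun u : ℝ => Ka K a (u : ℂ))) :=
    gro_Lt hK hw (fun u => norm_Ka_le ha (by simp))
  have hgrX : Gro (Lt (fun u : ℝ => K (u : ℂ))) := gro_Lt hK hK.wt (fun u => le_rfl)
  have hdX : Differentiable ℂ (Lt (fun u : ℝ => K (u : ℂ))) := diff_Lt hK.wt
  have hsX : Sym (Lt (fun u : ℝ => K (u : ℂ))) := sym_Lt (fun u => hK.herm u)
  have hXne := hL.ne
  have hGne : ∃ z, Lt (fun u : ℝ => Ka K a (u : ℂ)) z ≠ 0 := by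
    by_contra hcon
    push Not at hcon
    obtain ⟨z, hz⟩ := hXne
    apply hz
    have e : Lt (fun u : ℝ => Ka K a (u : ℂ)) = fun _ => 0 := funext hcon
    rw [← hX]
    simp only
    rw [e]
    simp
  have hfin := Pool.Agent.N768.GN.a4 m _ hG hGne hA
  have hAX : App m (Lt (fun u : ℝ => K (u : ℂ))) := by
    have h := Pool.Agent.N768.GN.a3 m _ (1 / a) hG hA
    rw [← hX]
    convert h using 2 with z
    push_cast
    ring
  have hfinX := Pool.Agent.N768.GN.a4 m _ hdX hXne hAX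
  have hLB := h5 _ hdX hsX hgrX hfinX hL
  exact h6 K α hK hM a ha (t4 h1 h3 _ a ha.ne' hG hs hgr hfin (by rw [hX]; exact hL) (by rw [hX]; exact hLB))

theorem engine (h1 : S_H1) (h3 : S_H3) (h5 : S_T5) (h6 : S_T6) (hK : Kern K α) (hM : MS K α)
    (hL : LD (Lt (fun u : ℝ => K (u : ℂ)))) {a : ℝ} (ha : a ≠ 0) (m : ℕ) :
    ¬ App m (Lt (fun u : ℝ => Ka K a (u : ℂ))) := by
  rcases lt_or_gt_of_ne ha with ha | ha
  · obtain ⟨r1, r2, r3, r4⟩ := Pool.Agent.N170.GN.r K α hK
    intro hA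
    exact engine_pos h1 h3 h5 h6 r1 (r2 hM) (r3 hL) (neg_pos.2 ha) m (r4 a m hA)
  · exact engine_pos h1 h3 h5 h6 hK hM hL ha m

lemma Sf_neg (lam β : ℝ) (r : ℕ → ℝ) (u : ℝ) : Sf lam β r (-u) = conj (Sf lam β r u) := by
  unfold Sf
  rw [map_mul, ← Complex.exp_conj]
  congr 1
  · congr 1
    simp only [map_add, map_mul, map_pow, Complex.conj_ofReal, Complex.conj_I]
    push_cast
    ring
  · have e : ∀ k, (1 - I * r k * ((-u : ℝ) : ℂ)) * cexp (I * r k * ((-u : ℝ) : ℂ)) =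
        conj ((1 - I * r k * u) * cexp (I * r k * u)) := by
      intro k
      rw [map_mul, ← Complex.exp_conj]
      simp only [map_sub, map_one, map_mul, Complex.conj_ofReal, Complex.conj_I]
      push_cast
      ring_nf
    simp_rw [e]
    by_cases hm : Multipliable (fun k => (1 - I * r k * u) * cexp (I * r k * u))
    · exact (hm.map_tprod (starRingEnd ℂ) Complex.continuous_conj).symm
    · have hm' : ¬ Multipliable (fun k => conj ((1 - I * r k * u) * cexp (I * r k * u))) := by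
        intro h
        apply hm
        have := h.map (starRingEnd ℂ) Complex.continuous_conj
        convert this using 2 with k
        rw [Function.comp_apply, Complex.conj_conj]
      rw [tprod_eq_one_of_not_multipliable hm', tprod_eq_one_of_not_multipliable hm, map_one]

theorem gn (h1 : S_H1) (h2 : S_H2) (h3 : S_H3) (h5 : S_T5) (h6 : S_T6) (q : S_Q) (hK : Kern K α) (hM : MS K α)
    (hL : LD (Lt (fun u : ℝ => K (u : ℂ)))) {lam β : ℝ} {r : ℕ → ℝ} (hlam : 0 ≤ lam)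
    (hr : Summable (fun k => r k ^ 2)) {k0 : ℕ} (hk0 : r k0 ≠ 0) :
    (NRZ (Lt (fun u : ℝ => K (u : ℂ) / Sf lam β r u))).Infinite := by
  intro hfin
  obtain ⟨hS1, hSm, hQ⟩ := q (fun u : ℝ => K (u : ℂ)) hK.wt lam β r hlam hr
  have hle : ∀ u : ℝ, ‖K (u : ℂ) / Sf lam β r u‖ ≤ ‖K (u : ℂ)‖ := fun u => by
    rw [norm_div]
    exact div_le_self (norm_nonneg _) (hS1 u)
  have hw : Wt (fun u : ℝ => K (u : ℂ) / Sf lam β r u) := by
    refine Wt.of_norm (hK.cont.measurable.div hSm).aestronglyMeasurable fun M hM => ?_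
    refine (hK.wt.norm_int M).mono' ?_ (Eventually.of_forall fun u => ?_)
    · exact ((hK.cont.measurable.div hSm).norm.mul (by fun_prop)).aestronglyMeasurable
    · rw [Real.norm_eq_abs, abs_mul, abs_norm, Real.abs_exp]
      exact mul_le_mul_of_nonneg_right (hle u) (Real.exp_pos _).le
  have hd := diff_Lt hw
  have hs : Sym (Lt (fun u : ℝ => K (u : ℂ) / Sf lam β r u)) := by
    refine sym_Lt (fun u => ?_)
    rw [Sf_neg, hK.herm, map_div₀]
  have hgr := gro_Lt hK hw hle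
  obtain ⟨P, g, hP, hg, hgs, -, hfac, -⟩ := h1 _ hd hs hgr hfin 0
  have hA : App P.natDegree (Lt (fun u : ℝ => K (u : ℂ) / Sf lam β r u)) := by
    have := h2 P g hP hg hgs
    rw [← funext hfac] at this
    exact this
  have hA2 := hQ k0 _ hA
  have e : (fun u : ℝ => K (u : ℂ) / (1 - I * r k0 * u)) = fun u : ℝ => Ka K (1 / r k0) (u : ℂ) := by
    funext u
    rw [Ka]
    congr 2
    have : (r k0 : ℂ) ≠ 0 := by exact_mod_cast hk0
    push_cast
    field_simp
  rw [e] at hA2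
  exact engine h1 h3 h5 h6 hK hM hL (one_div_ne_zero hk0) _ hA2

end Pool.Agent.N963.GN
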