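import Pool.Agent.N963.GN.T4b
import Pool.Agent.N963.GN.Main
import Pool.Agent.N186.GN.H1
import Pool.Agent.N400.GN.H2
import Pool.Agent.N282.GN.T5
import Pool.Agent.N868.GN.T6
import Pool.Agent.N558.GN.Z0

set_option autoImplicit false

/-!
# First order equations `G' - a G = X`
-/

namespace Pool.Agent.N963.GN

open Complex Filter Topology MeasureTheory Polynomial
open scoped ComplexConjugate

variable {K : ℂ → ℂ} {α : ℝ}

lemma App.smul {m : ℕ} {f : ℂ → ℂ} {c : ℝ} (hc : c ≠ 0) (h : App m f) : App m (fun z => c * f z) := by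
  intro R ε hε
  obtain ⟨P, hP, hd, hb⟩ := h R (ε / |c|) (by positivity)
  refine ⟨C c * P, mul_ne_zero (by simpa using hc) hP, ?_, fun z hz => ?_⟩
  · rw [natDegree_C_mul hc, roots_C_mul _ hc]
    exact hd
  · rw [map_mul, aeval_C, Complex.coe_algebraMap, ← mul_sub, norm_mul, Complex.norm_real, Real.norm_eq_abs]
    have h1 := mul_le_mul_of_nonneg_left (hb z hz) (abs_nonneg c)
    rwa [mul_div_cancel₀ _ (abs_ne_zero.2 hc)] at h1

lemma App.deriv_sub {m : ℕ} {G : ℂ → ℂ} (hG : Differentiable ℂ G) (h : App m G) (a : ℝ) :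
    App m (fun z => deriv G z - a * G z) := by
  refine Pool.Agent.N768.GN.a1 m _ fun R ε hε => ?_
  obtain ⟨B, hB⟩ := (isCompact_closedBall (0 : ℂ) R).exists_bound_of_continuousOn hG.continuous.continuousOn
  obtain ⟨δ, hδ, hδB, hδa⟩ : ∃ δ : ℝ, 0 < δ ∧ δ * (|B| + 1) ≤ ε ∧ a + δ ≠ 0 := by
    by_cases h1 : a + ε / (|B| + 1) = 0
    · refine ⟨ε / (|B| + 1) / 2, by positivity, ?_, ?_⟩
      · have : ε / (|B| + 1) / 2 * (|B| + 1) = ε / 2 := by field_simp
        linarith
      · intro h2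
        have h3 : 0 < ε / (|B| + 1) := by positivity
        linarith
    · refine ⟨ε / (|B| + 1), by positivity, ?_, h1⟩
      have : ε / (|B| + 1) * (|B| + 1) = ε := by field_simp
      linarith
  refine ⟨fun z => ((-(a + δ) : ℝ) : ℂ) * (G z - ((1 / (a + δ) : ℝ) : ℂ) * deriv G z),
    App.smul (neg_ne_zero.2 hδa) (Pool.Agent.N768.GN.a3 m G (1 / (a + δ)) hG h), fun z hz => ?_⟩
  have hδa' : ((a : ℂ) + δ) ≠ 0 := by exact_mod_cast hδa
  have e : deriv G z - a * G z - ((-(a + δ) : ℝ) : ℂ) * (G z - ((1 / (a + δ) : ℝ) : ℂ) * deriv G z) =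
      δ * G z := by
    push_cast
    field_simp
    ring
  rw [e, norm_mul, Complex.norm_real, Real.norm_eq_abs, abs_of_pos hδ]
  have h2 := hB z (by simpa using hz)
  calc δ * ‖G z‖ ≤ δ * (|B| + 1) := by
        gcongr
        linarith [le_abs_self B]
    _ ≤ ε := hδB

lemma gro_ode {G X : ℂ → ℂ} {a : ℝ} (hG : Differentiable ℂ G) (hX : Gro X)
    (h : ∀ z, deriv G z - a * G z = X z) : Gro G := by
  obtain ⟨C, hC, hX⟩ := hX
  refine ⟨‖G 0‖ + 1 + C + 2 * |a|, by positivity, fun z => ?_⟩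
  set r : ℝ := ‖z‖ with hr
  have hr0 : 0 ≤ r := norm_nonneg z
  set E : ℂ → ℂ := fun w => G w * cexp (-(a * w)) with hE
  have hd : ∀ w, HasDerivAt E (X w * cexp (-(a * w))) w := by
    intro w
    have h1 := (hG w).hasDerivAt.mul (((hasDerivAt_id w).const_mul (a : ℂ)).neg.cexp)
    have h2 : deriv G w * cexp (-((a : ℂ) * id w)) + G w * (cexp (-((a : ℂ) * id w)) * -((a : ℂ) * 1)) =
        X w * cexp (-(a * w)) := by
      rw [← h w]
      simp only [id]
      ring
    exact HasDerivAt.congr_deriv h1 h2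
  set q : ℝ := C * (1 + r) ^ (3 / 2 : ℝ) + |a| * r with hq
  have hpw : 1 ≤ (1 + r) ^ (3 / 2 : ℝ) := Real.one_le_rpow (by linarith) (by norm_num)
  have hpr : 1 + r ≤ (1 + r) ^ (3 / 2 : ℝ) := by
    calc 1 + r = (1 + r) ^ (1 : ℝ) := (Real.rpow_one _).symm
      _ ≤ _ := Real.rpow_le_rpow_of_exponent_le (by linarith) (by norm_num)
  have hexp : ∀ w : ℂ, ‖w‖ ≤ r → ‖cexp (-(a * w))‖ ≤ Real.exp (|a| * r) := by
    intro w hw
    rw [Complex.norm_exp, Real.exp_le_exp]
    calc (-((a : ℂ) * w)).re ≤ ‖-((a : ℂ) * w)‖ := Complex.re_le_norm _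
      _ = |a| * ‖w‖ := by rw [norm_neg, norm_mul, Complex.norm_real, Real.norm_eq_abs]
      _ ≤ |a| * r := by gcongr
  have hmv := (convex_closedBall (0 : ℂ) r).norm_image_sub_le_of_norm_hasDerivWithin_le
    (f := E) (f' := fun w => X w * cexp (-(a * w))) (C := Real.exp q) (x := 0) (y := z)
    (fun w _ => (hd w).hasDerivWithinAt) (fun w hw => by
      have hw' : ‖w‖ ≤ r := by simpa using hw
      rw [norm_mul, hq, Real.exp_add]
      refine mul_le_mul ((hX w).trans (Real.exp_le_exp.2 ?_)) (hexp w hw') (norm_nonneg _) (Real.exp_pos _).le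
      gcongr) (by simp [hr0]) (by simp [hr])
  have hE0 : E 0 = G 0 := by simp [hE]
  rw [hE0, sub_zero, ← hr] at hmv
  have hEz : ‖E z‖ ≤ ‖G 0‖ + Real.exp q * r := by
    have h1 : ‖E z‖ ≤ ‖E z - G 0‖ + ‖G 0‖ := by simpa using norm_add_le (E z - G 0) (G 0)
    linarith
  have hGz : G z = E z * cexp (a * z) := by
    simp only [hE]
    rw [mul_assoc, ← Complex.exp_add]
    simp
  have hez : ‖cexp (a * z)‖ ≤ Real.exp (|a| * r) := by
    have := hexp (-z) (by simp [hr])
    simpa using this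
  have hq0 : 0 ≤ q := by positivity
  have h3 : ‖G 0‖ + Real.exp q * r ≤ Real.exp (‖G 0‖ + r + q) := by
    have h4 : 1 ≤ Real.exp q := Real.one_le_exp hq0
    calc ‖G 0‖ + Real.exp q * r ≤ Real.exp q * ‖G 0‖ + Real.exp q * r := by
          gcongr
          exact le_mul_of_one_le_left (norm_nonneg _) h4
      _ = (‖G 0‖ + r) * Real.exp q := by ring
      _ ≤ Real.exp (‖G 0‖ + r) * Real.exp q := by
          gcongr
          linarith [Real.add_one_le_exp (‖G 0‖ + r)]
      _ = _ := (Real.exp_add _ _).symm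
  rw [hGz, norm_mul]
  calc ‖E z‖ * ‖cexp (a * z)‖ ≤ Real.exp (‖G 0‖ + r + q) * Real.exp (|a| * r) :=
        mul_le_mul (hEz.trans h3) hez (norm_nonneg _) (Real.exp_pos _).le
    _ = Real.exp (‖G 0‖ + r + q + |a| * r) := (Real.exp_add _ _).symm
    _ ≤ _ := by
        rw [Real.exp_le_exp, hq]
        have h5 : 0 ≤ ‖G 0‖ := norm_nonneg _
        have h6 : 0 ≤ |a| := abs_nonneg a
        have h7 : ‖G 0‖ ≤ ‖G 0‖ * (1 + r) ^ (3 / 2 : ℝ) := le_mul_of_one_le_right h5 hpw
        have h8 : |a| * r ≤ |a| * (1 + r) ^ (3 / 2 : ℝ) := by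
          gcongr
          linarith
        nlinarith

/-- bounded on the real line -/
lemma Lt_real_bound {h : ℝ → ℂ} (hh : Wt h) : ∃ B : ℝ, 0 ≤ B ∧ ∀ x : ℝ, ‖Lt h x‖ ≤ B := by
  refine ⟨∫ u : ℝ, ‖h u‖, integral_nonneg (fun u => norm_nonneg _), fun x => ?_⟩
  refine norm_integral_le_of_norm_le hh.integrable.norm (Eventually.of_forall fun u => ?_)
  rw [norm_mul, Complex.norm_exp]
  have : (I * (x : ℂ) * (u : ℂ)).re = 0 := by simp
  rw [this, Real.exp_zero, mul_one]

/-- a growing exponential contradicts the strong Laguerre inequality -/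
lemma not_SL_of_exp {g0 : ℂ → ℂ} {a : ℝ} (ha : 0 < a) (hg0 : Differentiable ℂ g0) {B : ℝ} (hB : 0 ≤ B)
    (h0 : ∀ x : ℝ, ‖g0 x‖ ≤ B) (h1 : ∀ x : ℝ, ‖deriv g0 x‖ ≤ B) (h2 : ∀ x : ℝ, ‖deriv (deriv g0) x‖ ≤ B)
    {c : ℂ} (hc : c ≠ 0) : ¬ SL (fun z => g0 z + c * cexp (a * z)) := by
  intro hSL
  obtain ⟨x1, hx1, hS⟩ := hSL 1
  have hE : ∀ z : ℂ, HasDerivAt (fun z : ℂ => c * cexp (a * z)) (a * (c * cexp (a * z))) z := by
    intro z
    have h := (((hasDerivAt_id z).const_mul (a : ℂ)).cexp).const_mul c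
    refine HasDerivAt.congr_deriv h ?_
    simp only [id]
    ring
  have hd1 : deriv (fun z => g0 z + c * cexp (a * z)) = fun z => deriv g0 z + a * (c * cexp (a * z)) := by
    funext z
    exact ((hg0 z).hasDerivAt.add (hE z)).deriv
  have hd2 : deriv (deriv (fun z => g0 z + c * cexp (a * z))) =
      fun z => deriv (deriv g0) z + a * (a * (c * cexp (a * z))) := by
    rw [hd1]
    funext z
    exact ((diff_deriv hg0 z).hasDerivAt.add ((hE z).const_mul (a : ℂ))).deriv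
  -- choose `x`
  have hcn : 0 < ‖c‖ := norm_pos_iff.2 hc
  have hlim : Tendsto (fun x : ℝ => ‖c‖ * Real.exp (a * x)) atTop atTop :=
    (Real.tendsto_exp_atTop.comp (tendsto_id.const_mul_atTop ha)).const_mul_atTop hcn
  set D : ℝ := 2 * B + 1 + 8 * B ^ 2 + 4 * B * (2 * a + 1 + a ^ 2) with hD
  obtain ⟨x, hx, hx'⟩ := ((hlim.eventually_ge_atTop D).and (eventually_ge_atTop (max x1 (Real.exp 1)))).exists
  have hxx1 : x1 ≤ x := (le_max_left _ _).trans hx'
  have hxe : Real.exp 1 ≤ x := (le_max_right _ _).trans hx'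
  have hxp : 0 < x := lt_of_lt_of_le (by linarith) hxx1
  have hlog : 1 ≤ Real.log x := by rwa [Real.le_log_iff_exp_le hxp]
  have hS' := hS x (by rw [abs_of_pos hxp]; exact hxx1)
  rw [hd2, hd1, abs_of_pos hxp, one_mul] at hS'
  simp only at hS'
  set y : ℂ := c * cexp (a * x) with hy
  have hyn : ‖y‖ = ‖c‖ * Real.exp (a * x) := by
    rw [hy, norm_mul, Complex.norm_exp]
    congr 2
    rw [← Complex.ofReal_mul, Complex.ofReal_re]
  rw [← hyn] at hx
  set u0 := g0 x
  set u1 := deriv g0 x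
  set u2 := deriv (deriv g0) x
  have b0 : ‖u0‖ ≤ B := h0 x
  have b1 : ‖u1‖ ≤ B := h1 x
  have b2 : ‖u2‖ ≤ B := h2 x
  have hlow : ‖y‖ - B ≤ ‖u0 + y‖ := by
    have : ‖y‖ ≤ ‖u0 + y‖ + ‖u0‖ := by
      have := norm_sub_le (u0 + y) u0
      simpa using this
    linarith
  have hup : ((u1 + a * y) ^ 2 - (u0 + y) * (u2 + a * (a * y))).re ≤
      2 * B ^ 2 + ‖y‖ * (B * (2 * a + 1 + a ^ 2)) := by
    have e : (u1 + a * y) ^ 2 - (u0 + y) * (u2 + a * (a * y)) =
        (u1 ^ 2 - u0 * u2) + y * (2 * a * u1 - u2 - (a : ℂ) ^ 2 * u0) := by ring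
    rw [e]
    refine (Complex.re_le_norm _).trans ((norm_add_le _ _).trans (add_le_add ?_ ?_))
    · refine (norm_sub_le _ _).trans ?_
      rw [norm_pow, norm_mul]
      have g1 : ‖u1‖ ^ 2 ≤ B ^ 2 := pow_le_pow_left₀ (norm_nonneg _) b1 2
      have g2 : ‖u0‖ * ‖u2‖ ≤ B * B := mul_le_mul b0 b2 (norm_nonneg _) hB
      nlinarith
    · rw [norm_mul]
      refine mul_le_mul_of_nonneg_left ?_ (norm_nonneg _)
      refine (norm_sub_le _ _).trans ?_
      refine (add_le_add (norm_sub_le _ _) le_rfl).trans ?_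
      rw [norm_mul, norm_mul, norm_mul, norm_pow, Complex.norm_real, Real.norm_eq_abs, abs_of_pos ha]
      have : ‖(2 : ℂ)‖ = 2 := by simp
      rw [this]
      have g1 : 2 * a * ‖u1‖ ≤ 2 * a * B := by gcongr
      have g2 : a ^ 2 * ‖u0‖ ≤ a ^ 2 * B := by gcongr
      linarith
  have hB2 : 0 ≤ B ^ 2 := sq_nonneg B
  have hBa : 0 ≤ B * (2 * a + 1 + a ^ 2) := by positivity
  have hy1 : 2 * B + 1 ≤ ‖y‖ := by
    have : 0 ≤ 4 * B * (2 * a + 1 + a ^ 2) := by positivity
    nlinarith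
  have hlow2 : ‖y‖ / 2 ≤ ‖u0 + y‖ := by linarith
  have hlow3 : ‖y‖ ^ 2 / 4 ≤ ‖u0 + y‖ ^ 2 := by
    have := pow_le_pow_left₀ (by positivity) hlow2 2
    calc ‖y‖ ^ 2 / 4 = (‖y‖ / 2) ^ 2 := by ring
      _ ≤ _ := this
  have h5 : ‖u0 + y‖ ^ 2 ≤ Real.log x * ‖u0 + y‖ ^ 2 := le_mul_of_one_le_left (sq_nonneg _) hlog
  have h6 : ‖y‖ ^ 2 / 4 ≤ 2 * B ^ 2 + ‖y‖ * (B * (2 * a + 1 + a ^ 2)) := by linarith
  have h7 : D * ‖y‖ ≤ ‖y‖ * ‖y‖ := mul_le_mul_of_nonneg_right hx (norm_nonneg _)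
  nlinarith

theorem ode_pos (hK : Kern K α) (hM : MS K α) (hL : LD (Lt (fun u : ℝ => K (u : ℂ)))) {a : ℝ} (ha : 0 < a)
    {G : ℂ → ℂ} (hG : Differentiable ℂ G) (hSL : SL G)
    (hode : ∀ z, deriv G z - a * G z = Lt (fun u : ℝ => K (u : ℂ)) z) {m : ℕ} (hA : App m G) : False := by
  have hw := wt_real hK ha
  have ha' : (a : ℂ) ≠ 0 := by exact_mod_cast ha.ne'
  set Ga : ℂ → ℂ := Lt (fun u : ℝ => Ka K a (u : ℂ)) with hGa
  have hGad : Differentiable ℂ Ga := diff_Lt hw
  set g0 : ℂ → ℂ := fun z => ((-(1 / a) : ℝ) : ℂ) * Ga z with hg0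
  have hg0d : Differentiable ℂ g0 := hGad.const_mul _
  have hdg0 : deriv g0 = fun z => ((-(1 / a) : ℝ) : ℂ) * deriv Ga z := by
    funext z
    exact ((hGad z).hasDerivAt.const_mul _).deriv
  have hode0 : ∀ z, deriv g0 z - a * g0 z = Lt (fun u : ℝ => K (u : ℂ)) z := by
    intro z
    rw [← X_eq hK ha, hdg0]
    simp only [hg0]
    push_cast
    field_simp
    ring
  obtain ⟨c, hc⟩ : ∃ c : ℂ, ∀ z, G z = g0 z + c * cexp (a * z) := by
    have hdiff : ∀ z, HasDerivAt (fun z => (G z - g0 z) * cexp (-(a * z))) 0 z := by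
      intro z
      have h1 := ((hG z).hasDerivAt.sub (hg0d z).hasDerivAt).mul
        (((hasDerivAt_id z).const_mul (a : ℂ)).neg.cexp)
      have h2 : (deriv G z - deriv g0 z) * cexp (-((a : ℂ) * id z)) +
          (G z - g0 z) * (cexp (-((a : ℂ) * id z)) * -((a : ℂ) * 1)) = 0 := by
        have h3 := hode z
        have h4 := hode0 z
        have h5 : deriv G z - deriv g0 z = a * (G z - g0 z) := by linear_combination h3 - h4
        rw [h5]
        ring
      exact HasDerivAt.congr_deriv h1 h2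
    have hconst := is_const_of_deriv_eq_zero (𝕜 := ℂ) (f := fun z => (G z - g0 z) * cexp (-(a * z)))
      (fun z => (hdiff z).differentiableAt) (fun z => (hdiff z).deriv)
    refine ⟨G 0 - g0 0, fun z => ?_⟩
    have h1 := hconst z 0
    simp only [mul_zero, neg_zero, Complex.exp_zero, mul_one] at h1
    rw [← h1, mul_assoc, ← Complex.exp_add]
    simp
  by_cases hc0 : c = 0
  · have e : (fun z => ((-a : ℝ) : ℂ) * G z) = Ga := by
      funext z
      rw [hc z, hc0, hg0]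
      push_cast
      field_simp
      ring
    have h1 := App.smul (neg_ne_zero.2 ha.ne') hA
    rw [e] at h1
    exact engine_pos Pool.Agent.N186.GN.t_H1 Pool.Agent.N400.GN.h3
      (Pool.Agent.N282.GN.t5 Pool.Agent.N186.GN.t_H1) Pool.Agent.N868.GN.t_T6 hK hM hL ha m h1
  · have e : G = fun z => g0 z + c * cexp (a * z) := funext hc
    rw [e] at hSL
    obtain ⟨B0, hB0, hb0⟩ := Lt_real_bound hw
    obtain ⟨B1, hB1, hb1⟩ := Lt_real_bound hw.mulId
    obtain ⟨B2, hB2, hb2⟩ := Lt_real_bound hw.mulId.mulId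
    have hddg0 : deriv (deriv g0) = fun z => ((-(1 / a) : ℝ) : ℂ) * deriv (deriv Ga) z := by
      rw [hdg0]
      funext z
      exact ((diff_deriv hGad z).hasDerivAt.const_mul _).deriv
    have hn : ‖((-(1 / a) : ℝ) : ℂ)‖ = 1 / a := by
      rw [Complex.norm_real, Real.norm_eq_abs, abs_neg, abs_of_pos (by positivity)]
    have hia : 0 ≤ 1 / a := by positivity
    refine not_SL_of_exp ha hg0d (B := 1 / a * (B0 + B1 + B2)) (by positivity) ?_ ?_ ?_ hc0 hSL
    · intro x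
      simp only [hg0]
      rw [norm_mul, hn]
      gcongr
      linarith [hb0 x]
    · intro x
      rw [hdg0]
      simp only
      rw [norm_mul, hn, hGa, deriv_Lt hw]
      gcongr
      linarith [hb1 x]
    · intro x
      rw [hddg0]
      simp only
      rw [norm_mul, hn, hGa, deriv_Lt hw, deriv_Lt hw.mulId]
      gcongr
      linarith [hb2 x]

theorem ode (hK : Kern K α) (hM : MS K α) (hL : LD (Lt (fun u : ℝ => K (u : ℂ)))) (hK0 : K 0 ≠ 0) {a : ℝ}
    {G : ℂ → ℂ} (hG : Differentiable ℂ G) (hs : Sym G)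
    (hode : ∀ z, deriv G z - a * G z = Lt (fun u : ℝ => K (u : ℂ)) z) (m : ℕ) : ¬ App m G := by
  intro hA
  have hX : (fun z => deriv G z - a * G z) = Lt (fun u : ℝ => K (u : ℂ)) := funext hode
  have hgrX : Gro (Lt (fun u : ℝ => K (u : ℂ))) := gro_Lt hK hK.wt (fun u => le_rfl)
  have hdX : Differentiable ℂ (Lt (fun u : ℝ => K (u : ℂ))) := diff_Lt hK.wt
  have hsX : Sym (Lt (fun u : ℝ => K (u : ℂ))) := sym_Lt (fun u => hK.herm u)
  have hgr : Gro G := gro_ode hG hgrX hode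
  have hXne := hL.ne
  have hGne : ∃ z, G z ≠ 0 := by
    by_contra hcon
    push Not at hcon
    obtain ⟨z, hz⟩ := hXne
    apply hz
    have e : G = fun _ => 0 := funext hcon
    rw [← hode z, e]
    simp
  have hfin := Pool.Agent.N768.GN.a4 m _ hG hGne hA
  have hAX : App m (Lt (fun u : ℝ => K (u : ℂ))) := by
    have h := App.deriv_sub hG hA a
    rwa [hX] at h
  have hfinX := Pool.Agent.N768.GN.a4 m _ hdX hXne hAX
  have hLB := Pool.Agent.N282.GN.t5 Pool.Agent.N186.GN.t_H1 _ hdX hsX hgrX hfinX hL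
  have hSL : SL G := t4b Pool.Agent.N186.GN.t_H1 Pool.Agent.N400.GN.h3 G a hG hs hgr hfin
    (by rw [hX]; exact hL) (by rw [hX]; exact hLB)
  rcases lt_trichotomy a 0 with ha | ha | ha
  · -- reflect
    obtain ⟨r1, r2, r3, -⟩ := Pool.Agent.N170.GN.r K α hK
    have hG' : Differentiable ℂ (fun z => -G (-z)) := (hG.comp differentiable_neg).neg
    have hd : deriv (fun z => -G (-z)) = fun z => deriv G (-z) := by
      funext z
      have h1 := ((hG (-z)).hasDerivAt.comp z (hasDerivAt_neg z)).neg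
      have h2 : -(deriv G (-z) * -1) = deriv G (-z) := by ring
      rw [h2] at h1
      exact h1.deriv
    have hode' : ∀ z, deriv (fun z => -G (-z)) z - ((-a : ℝ) : ℂ) * (-G (-z)) =
        Lt (fun u : ℝ => K (-(u : ℂ))) z := by
      intro z
      rw [hd]
      have h1 := hode (-z)
      have h2 := Pool.Agent.N170.GN.lt_neg (fun u : ℝ => K (u : ℂ)) z
      simp only [Complex.ofReal_neg] at h2
      rw [h2, ← h1]
      push_cast
      ring
    have hA' : App m (fun z => -G (-z)) := by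
      have h1 := App.smul (c := -1) (by norm_num) (Pool.Agent.N170.GN.app_neg m G hA)
      convert h1 using 2 with z
      push_cast
      ring
    have hSL' : SL (fun z => -G (-z)) := by
      intro A
      obtain ⟨x1, hx1, h⟩ := hSL A
      refine ⟨x1, hx1, fun x hx => ?_⟩
      have h1 := h (-x) (by rwa [abs_neg])
      have hdd : deriv (deriv (fun z => -G (-z))) = fun z => -deriv (deriv G) (-z) := by
        rw [hd]
        funext z
        have h1 := ((diff_deriv hG (-z)).hasDerivAt.comp z (hasDerivAt_neg z))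
        have h2 : (deriv (deriv G) (-z) * -1) = -deriv (deriv G) (-z) := by ring
        rw [h2] at h1
        exact h1.deriv
      rw [hdd, hd]
      simp only
      rw [abs_neg] at h1
      push_cast at h1
      rw [norm_neg]
      convert h1 using 2
      ring
    exact ode_pos r1 (r2 hM) (r3 hL) (neg_pos.2 ha) hG' hSL' hode' hA'
  · subst ha
    exact Pool.Agent.N558.GN.z0 K α hK hK0 G hG (fun z => by simpa using hode z) hSL
  · exact ode_pos hK hM hL ha hG hSL hode hA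

end Pool.Agent.N963.GN
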