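import Pool.Agent.N963.GN.W
import Pool.Agent.N963.GN.D1

set_option autoImplicit false

/-! The identities of Plancherel for the kernels `Ka`. -/

namespace Pool.Agent.N963.GN

open Complex Filter Topology MeasureTheory
open scoped ComplexConjugate

variable {K : ℂ → ℂ} {α : ℝ}

lemma den_re (a : ℝ) (w : ℂ) : (1 - I * w / a).re = 1 + w.im / a := by
  have h1 : I * w / (a : ℂ) = (((-w.im) / a : ℝ) : ℂ) + ((w.re / a : ℝ) : ℂ) * I := by
    apply Complex.ext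
    · rw [Complex.div_ofReal_re]
      simp
    · rw [Complex.div_ofReal_im]
      simp
  rw [h1]
  simp
  ring

lemma one_le_den {a : ℝ} (ha : 0 < a) {w : ℂ} (hw : 0 ≤ w.im) : 1 ≤ ‖1 - I * w / a‖ := by
  have h1 := Complex.re_le_norm (1 - I * w / a)
  rw [den_re] at h1
  have : 0 ≤ w.im / a := by positivity
  linarith

lemma den_ne {a : ℝ} (ha : 0 < a) {w : ℂ} (hw : 0 ≤ w.im) : 1 - I * w / a ≠ 0 := by
  intro h
  have := one_le_den ha hw
  rw [h, norm_zero] at this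
  linarith

lemma norm_Ka_le {a : ℝ} (ha : 0 < a) {w : ℂ} (hw : 0 ≤ w.im) : ‖Ka K a w‖ ≤ ‖K w‖ := by
  rw [Ka, norm_div]
  exact div_le_self (norm_nonneg _) (one_le_den ha hw)

lemma diff_Ka (hK : Kern K α) {a : ℝ} (ha : 0 < a) {w : ℂ} (hw : 0 ≤ w.im) (hw2 : w.im < α) :
    DifferentiableAt ℂ (Ka K a) w := by
  refine DifferentiableAt.div (hK.diff w (by rw [abs_of_nonneg hw]; exact hw2)) (by fun_prop)
    (den_ne ha hw)

lemma sq_bound {t : ℝ} (ht : 0 ≤ t) {w : ℂ} (hw : 0 ≤ w.im) (hw2 : w.im ≤ t) {j : ℕ} (hj : j ≤ 2) :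
    ‖w‖ ^ j ≤ 4 * (1 + t) ^ 2 * Real.exp (|w.re|) := by
  have h1 : ‖w‖ ≤ |w.re| + t := by
    refine (Complex.norm_le_abs_re_add_abs_im w).trans ?_
    rw [abs_of_nonneg hw]; linarith
  have h2 : ‖w‖ ^ j ≤ (1 + ‖w‖) ^ 2 := by
    have h3 : (1 : ℝ) ≤ 1 + ‖w‖ := by linarith [norm_nonneg w]
    calc ‖w‖ ^ j ≤ (1 + ‖w‖) ^ j := pow_le_pow_left₀ (norm_nonneg _) (by linarith) j
      _ ≤ (1 + ‖w‖) ^ 2 := pow_le_pow_right₀ h3 hj
  have h4 : (1 + ‖w‖) ≤ (1 + t) * (1 + |w.re|) := by nlinarith [abs_nonneg w.re]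
  have h5 : 1 + |w.re| ≤ 2 * Real.exp (|w.re| / 2) := by
    have := Real.add_one_le_exp (|w.re| / 2)
    linarith
  have h6 : Real.exp (|w.re|) = Real.exp (|w.re| / 2) ^ 2 := by
    rw [← Real.exp_nat_mul]; congr 1; push_cast; ring
  calc ‖w‖ ^ j ≤ (1 + ‖w‖) ^ 2 := h2
    _ ≤ ((1 + t) * (1 + |w.re|)) ^ 2 := pow_le_pow_left₀ (by positivity) h4 2
    _ = (1 + t) ^ 2 * (1 + |w.re|) ^ 2 := by ring
    _ ≤ (1 + t) ^ 2 * (2 * Real.exp (|w.re| / 2)) ^ 2 := by gcongr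
    _ = 4 * (1 + t) ^ 2 * Real.exp (|w.re|) := by rw [h6]; ring

/-- decay of the kernels times powers -/
lemma Ka_decay (hK : Kern K α) {a : ℝ} (ha : 0 < a) {t : ℝ} (ht : 0 ≤ t) (ht2 : t < α) (M : ℝ) :
    ∃ C : ℝ, 0 ≤ C ∧ ∀ (j : ℕ), j ≤ 2 → ∀ w : ℂ, 0 ≤ w.im → w.im ≤ t →
      ‖w ^ j * Ka K a w‖ ≤ C * Real.exp (-(M * |w.re|)) := by
  obtain ⟨C, hC, h⟩ := hK.dec t ht ht2 (M + 1)
  refine ⟨4 * (1 + t) ^ 2 * C, by positivity, fun j hj w hw hw2 => ?_⟩
  have h1 := h w (by rw [abs_of_nonneg hw]; exact hw2)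
  rw [norm_mul, norm_pow]
  calc ‖w‖ ^ j * ‖Ka K a w‖ ≤ (4 * (1 + t) ^ 2 * Real.exp (|w.re|)) * (C * Real.exp (-((M + 1) * |w.re|))) := by
        gcongr
        · exact sq_bound ht hw hw2 hj
        · exact (norm_Ka_le ha hw).trans h1
    _ = 4 * (1 + t) ^ 2 * C * (Real.exp (|w.re|) * Real.exp (-((M + 1) * |w.re|))) := by ring
    _ = 4 * (1 + t) ^ 2 * C * Real.exp (-(M * |w.re|)) := by
        rw [← Real.exp_add]; congr 2; ring

lemma cont_line (hK : Kern K α) {a : ℝ} (ha : 0 < a) {t : ℝ} (ht : 0 ≤ t) (ht2 : t < α) :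
    Continuous (fun u : ℝ => Ka K a ((u : ℂ) + t * I)) := by
  rw [continuous_iff_continuousAt]
  intro u
  have h1 : ContinuousAt (Ka K a) ((u : ℂ) + t * I) :=
    (diff_Ka hK ha (by simp [ht]) (by simp [ht2])).continuousAt
  exact ContinuousAt.comp (f := fun u : ℝ => ((u : ℂ) + t * I)) h1 (by fun_prop)

lemma wt_line (hK : Kern K α) {a : ℝ} (ha : 0 < a) {t : ℝ} (ht : 0 ≤ t) (ht2 : t < α) :
    Wt (fun u : ℝ => Ka K a ((u : ℂ) + t * I)) := by
  refine Wt.of_norm (cont_line hK ha ht ht2).aestronglyMeasurable fun M hM => ?_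
  obtain ⟨C, hC, h⟩ := Ka_decay hK ha ht ht2 (M + 1)
  refine (exp_abs_integrable C).mono' (by
    exact ((cont_line hK ha ht ht2).norm.mul (by fun_prop)).aestronglyMeasurable)
    (Eventually.of_forall fun u => ?_)
  have h1 := h 0 (by norm_num) ((u : ℂ) + t * I) (by simp [ht]) (by simp)
  simp only [pow_zero, one_mul, add_re, ofReal_re, mul_re, I_re, mul_zero, ofReal_im, I_im, mul_one,
    sub_self, add_zero] at h1
  rw [norm_mul, norm_norm, Real.norm_eq_abs, Real.abs_exp]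
  calc ‖Ka K a ((u : ℂ) + t * I)‖ * Real.exp (M * |u|)
      ≤ C * Real.exp (-((M + 1) * |u|)) * Real.exp (M * |u|) := by gcongr
    _ = C * Real.exp (-|u|) := by
        rw [mul_assoc, ← Real.exp_add]; congr 2; ring

lemma wt_real (hK : Kern K α) {a : ℝ} (ha : 0 < a) : Wt (fun u : ℝ => Ka K a (u : ℂ)) := by
  have := wt_line hK ha (le_refl (0 : ℝ)) hK.pos
  simpa using this

/-- the function on the shifted line -/
noncomputable def fj (K : ℂ → ℂ) (a t : ℝ) (j : ℕ) (u : ℝ) : ℂ :=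
  (I * ((u : ℂ) + t * I)) ^ j * Ka K a ((u : ℂ) + t * I)

lemma fj_cont (hK : Kern K α) {a : ℝ} (ha : 0 < a) {t : ℝ} (ht : 0 ≤ t) (ht2 : t < α) (j : ℕ) :
    Continuous (fj K a t j) := by
  unfold fj
  exact Continuous.mul (by fun_prop) (cont_line hK ha ht ht2)

lemma fj_bound (hK : Kern K α) {a : ℝ} (ha : 0 < a) {t : ℝ} (ht : 0 ≤ t) (ht2 : t < α) :
    ∃ C : ℝ, 0 ≤ C ∧ ∀ j : ℕ, j ≤ 2 → ∀ u : ℝ, ‖fj K a t j u‖ ≤ C * Real.exp (-|u|) := by
  obtain ⟨C, hC, h⟩ := Ka_decay hK ha ht ht2 1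
  refine ⟨C, hC, fun j hj u => ?_⟩
  have h1 := h j hj ((u : ℂ) + t * I) (by simp [ht]) (by simp)
  simp only [add_re, ofReal_re, mul_re, I_re, mul_zero, ofReal_im, I_im, mul_one,
    sub_self, add_zero, one_mul] at h1
  unfold fj
  rw [mul_pow, mul_assoc, norm_mul, norm_pow, Complex.norm_I, one_pow, one_mul]
  exact h1

lemma fj_int (hK : Kern K α) {a : ℝ} (ha : 0 < a) {t : ℝ} (ht : 0 ≤ t) (ht2 : t < α) {j : ℕ} (hj : j ≤ 2) :
    Integrable (fj K a t j) ∧ MemLp (fj K a t j) 2 := by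
  obtain ⟨C, hC, h⟩ := fj_bound hK ha ht ht2
  have hc := fj_cont hK ha ht ht2 j
  have h1 : Integrable (fj K a t j) :=
    (exp_abs_integrable C).mono' hc.aestronglyMeasurable (Eventually.of_forall fun u => h j hj u)
  refine ⟨h1, ?_⟩
  rw [memLp_two_iff_integrable_sq_norm hc.aestronglyMeasurable]
  refine (h1.norm.const_mul C).mono' (hc.norm.pow 2).aestronglyMeasurable
    (Eventually.of_forall fun u => ?_)
  rw [Real.norm_of_nonneg (by positivity), sq]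
  gcongr
  refine (h j hj u).trans ?_
  have : Real.exp (-|u|) ≤ 1 := Real.exp_le_one_iff.2 (by simp)
  nlinarith

/-- the transforms on the real line through the shifted line -/
theorem fj_eq (hK : Kern K α) {a : ℝ} (ha : 0 < a) {t : ℝ} (ht : 0 ≤ t) (ht2 : t < α) {j : ℕ} (hj : j ≤ 2)
    (x : ℝ) : (∫ u : ℝ, (I * (u : ℂ)) ^ j * Ka K a (u : ℂ) * cexp (I * x * u)) * ((Real.exp (t * x) : ℝ) : ℂ) =
      ∫ u : ℝ, fj K a t j u * cexp (I * x * u) := by
  obtain ⟨C, hC, h⟩ := Ka_decay hK ha ht ht2 1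
  have hs := shift (φ := fun w : ℂ => (I * w) ^ j * Ka K a w * cexp (I * x * w)) ht (by
    intro w hw hw2
    have h1 := diff_Ka hK ha hw (lt_of_le_of_lt hw2 ht2)
    exact DifferentiableAt.mul (DifferentiableAt.mul (by fun_prop) h1) (by fun_prop))
    (C := C * Real.exp (|x| * t)) (by
      intro w hw hw2
      have h1 := h j hj w hw hw2
      rw [norm_mul, mul_pow, mul_assoc (I ^ j), norm_mul, norm_pow, Complex.norm_I, one_pow, one_mul]
      have h2 : ‖cexp (I * x * w)‖ ≤ Real.exp (|x| * t) := by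
        rw [Complex.norm_exp, Real.exp_le_exp]
        have h3 : (I * (x : ℂ) * w).re = -(x * w.im) := by simp
        rw [h3]
        calc -(x * w.im) ≤ |x * w.im| := neg_le_abs _
          _ = |x| * w.im := by rw [abs_mul, abs_of_nonneg hw]
          _ ≤ |x| * t := by gcongr
      calc ‖w ^ j * Ka K a w‖ * ‖cexp (I * x * w)‖ ≤ (C * Real.exp (-(1 * |w.re|))) * Real.exp (|x| * t) := by
            gcongr
        _ = C * Real.exp (|x| * t) * Real.exp (-|w.re|) := by rw [one_mul]; ring)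
  have h2 := hs.2.2
  rw [h2, ← integral_mul_const]
  refine integral_congr_ae (Eventually.of_forall fun u => ?_)
  simp only [fj]
  rw [mul_assoc _ (cexp _) _]
  congr 1
  rw [Complex.ofReal_exp, ← Complex.exp_add]
  congr 1
  push_cast
  have := Complex.I_mul_I
  linear_combination ((x : ℂ) * t) * this

end Pool.Agent.N963.GN
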