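import Pool.Agent.N963.GN.NewfL
import Pool.Agent.W97.TW.Delta
import Pool.Agent.H128R3.JD.DelK

set_option autoImplicit false

/-!
# The modular discriminant
-/

namespace Pool.Agent.N963.GN

open UpperHalfPlane hiding I
open Complex Filter Topology MeasureTheory MatrixGroups CongruenceSubgroup
open Pool.Agent.W97.TW (deltaForm isNewform_delta)
open Pool.Agent.H128R3.JD.DelK (Dl Dl_eq Dl_inv)
open scoped ComplexConjugate

lemma pt_eq (u : ℝ) : I * cexp (u : ℂ) / (Real.sqrt ((1 : ℕ) : ℝ) : ℝ) = I * ((Real.exp u : ℝ) : ℂ) := by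
  rw [Nat.cast_one, Real.sqrt_one, Complex.ofReal_one, div_one, Complex.ofReal_exp]

lemma delta_val {y : ℝ} (hy : 0 < y) : deltaForm (ofComplex (I * (y : ℂ))) = ((Dl y : ℝ) : ℂ) := by
  rw [Dl_eq hy]
  rfl

theorem mf_delta : MF 1 12 (fun w => deltaForm (ofComplex w)) (fun n => (qExpansion 1 deltaForm).coeff n) 1 := by
  refine mf_of (N := 1) (k := 12) (by norm_num) deltaForm ?_ (ε := 1) (Or.inl rfl) ?_ ?_ (by norm_num)
  · rw [isNewform_delta.coeff_one]
    exact one_ne_zero
  · intro u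
    rw [pt_eq, delta_val (Real.exp_pos u), Complex.ofReal_im]
  · intro u
    rw [pt_eq, pt_eq, delta_val (Real.exp_pos u), delta_val (Real.exp_pos _), Real.exp_neg, Dl_inv (Real.exp_pos u)]
    push_cast
    rw [← Complex.exp_nat_mul]
    push_cast
    ring

theorem Km_delta (u : ℝ) : Km 1 12 (fun w => deltaForm (ofComplex w)) 1 (u : ℂ) =
    ((Dl (Real.exp u) : ℝ) : ℂ) * cexp (6 * u) := by
  unfold Km
  simp only
  rw [pt_eq, delta_val (Real.exp_pos u)]
  congr 1
  · rw [one_mul]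
  · congr 1
    push_cast
    ring

theorem Lt_delta (z : ℂ) : Lt (fun u : ℝ => Km 1 12 (fun w => deltaForm (ofComplex w)) 1 (u : ℂ)) z =
    mellin (fun y : ℝ => ((Dl y : ℝ) : ℂ)) (6 + I * z) := by
  rw [Pool.Agent.N348.GN.Lt_eq, one_mul]
  have e : ((12 : ℕ) : ℂ) / 2 + I * z = 6 + I * z := by
    push_cast
    ring
  rw [e]
  unfold mellin
  refine setIntegral_congr_fun measurableSet_Ioi fun t ht => ?_
  have ht0 : (0 : ℝ) < t := ht
  simp only
  rw [Nat.cast_one, Real.sqrt_one, Complex.ofReal_one, div_one, delta_val ht0]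

end Pool.Agent.N963.GN
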