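import Pool.Agent.N963.GN.OpM
import Pool.Agent.N868.GN.M0

set_option autoImplicit false

/-!
# Cusp forms for `Γ₀(N)` that are eigenfunctions of the Fricke involution and real on the imaginary axis
-/

namespace Pool.Agent.N963.GN

open UpperHalfPlane hiding I
open Complex Filter Topology MeasureTheory MatrixGroups CongruenceSubgroup
open scoped ComplexConjugate

lemma coe_le_coe (N : ℕ) : (Gamma1 N : Subgroup (GL (Fin 2) ℝ)) ≤ (Gamma0 N : Subgroup (GL (Fin 2) ℝ)) := by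
  rintro _ ⟨γ, hγ, rfl⟩
  exact ⟨γ, Gamma1_in_Gamma0 N hγ, rfl⟩

/-- restriction to `Γ₁(N)` -/
noncomputable def toG1 {N k : ℕ} (f : CuspForm (Gamma0 N : Subgroup (GL (Fin 2) ℝ)) (k : ℤ)) :
    CuspForm (Gamma1 N : Subgroup (GL (Fin 2) ℝ)) (k : ℤ) where
  toFun := f
  slash_action_eq' g hg := f.slash_action_eq' g (coe_le_coe N hg)
  holo' := f.holo'
  zero_at_cusps' hc := f.zero_at_cusps' (hc.mono (coe_le_coe N))

theorem mf_of {N k : ℕ} [NeZero N] (hk : 0 < k) (f : CuspForm (Gamma0 N : Subgroup (GL (Fin 2) ℝ)) (k : ℤ))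
    (h1 : (qExpansion 1 f).coeff 1 ≠ 0) {ε : ℝ} (hε : ε = 1 ∨ ε = -1)
    (hreal : ∀ u : ℝ, (f (ofComplex (I * cexp (u : ℂ) / (Real.sqrt N : ℝ)))).im = 0)
    (hfr : ∀ u : ℝ, f (ofComplex (I * cexp ((-u : ℝ) : ℂ) / (Real.sqrt N : ℝ))) =
      ε * cexp (k * u) * f (ofComplex (I * cexp (u : ℂ) / (Real.sqrt N : ℝ)))) {κ : ℂ} (hκ : κ ^ 2 = ε) :
    MF N k (fun w => f (ofComplex w)) (fun n => (qExpansion 1 f).coeff n) κ := by
  have hκ0 : κ ≠ 0 := by
    rintro rfl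
    rcases hε with h | h <;> rw [h] at hκ <;> norm_num at hκ
  have hκc : conj κ = ε * κ := by
    rcases hε with h | h
    · rw [h] at hκ ⊢
      have h2 : (κ - 1) * (κ + 1) = 0 := by
        push_cast at hκ
        linear_combination hκ
      rcases mul_eq_zero.1 h2 with h3 | h3
      · rw [sub_eq_zero.1 h3]; simp
      · rw [eq_neg_of_add_eq_zero_left h3]; simp
    · rw [h] at hκ ⊢
      have h2 : (κ - I) * (κ + I) = 0 := by
        push_cast at hκ
        linear_combination hκ - Complex.I_sq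
      rcases mul_eq_zero.1 h2 with h3 | h3
      · rw [sub_eq_zero.1 h3]; simp
      · rw [eq_neg_of_add_eq_zero_left h3]; simp
  set f1 := toG1 f with hf1
  refine ⟨Nat.pos_of_ne_zero (NeZero.ne N), hk, Pool.Agent.N868.GN.sum1 f1, h1,
    Pool.Agent.N868.GN.coeff_bound1 f1, Pool.Agent.N868.GN.bound1 f1,
    fun a b' c d g1 g2 g3 g4 τ hτ => Pool.Agent.N868.GN.aut1 f1 a b' c d g1 g2 g3 g4 τ hτ, hκ0, ?_⟩
  intro u
  have hr : conj (f (ofComplex (I * cexp (u : ℂ) / (Real.sqrt N : ℝ)))) =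
      f (ofComplex (I * cexp (u : ℂ) / (Real.sqrt N : ℝ))) := Complex.conj_eq_iff_im.2 (hreal u)
  unfold Km
  simp only
  rw [hfr u, map_mul, map_mul, hr, hκc, ← Complex.exp_conj]
  have e1 : conj ((k : ℂ) * (u : ℂ) / 2) = (k : ℂ) * u / 2 := by
    rw [map_div₀, map_mul, Complex.conj_ofReal, Complex.conj_natCast]
    congr 1
    exact Complex.conj_ofNat 2
  rw [e1]
  have e2 : cexp ((k : ℂ) * u) * cexp ((k : ℂ) * ((-u : ℝ) : ℂ) / 2) = cexp ((k : ℂ) * u / 2) := by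
    rw [← Complex.exp_add]
    congr 1
    push_cast
    ring
  linear_combination κ * ε * f (ofComplex (I * cexp (u : ℂ) / (Real.sqrt N : ℝ))) * e2

end Pool.Agent.N963.GN
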