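import Pool.Agent.N963.GN.Newf
import Pool.Agent.N712.GN.Z1

set_option autoImplicit false

/-!
# Completed L-functions of cusp forms
-/

namespace Pool.Agent.N963.GN

open UpperHalfPlane hiding I
open Complex Filter Topology MeasureTheory MatrixGroups CongruenceSubgroup
open scoped ComplexConjugate

/-- a function that is real on the real line is symmetric -/
lemma sym_of_real' {G : ℂ → ℂ} (hG : Differentiable ℂ G) (h : ∀ x : ℝ, (G x).im = 0) : Sym G := by
  have h1 : Differentiable ℂ (conj ∘ G ∘ conj) := by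
    intro z
    have h4 := (hG (conj z)).conj_conj
    rw [Complex.conj_conj] at h4
    exact h4
  have h3 : (conj ∘ G ∘ conj) = G := by
    refine (h1.differentiableOn.analyticOnNhd isOpen_univ).eq_of_frequently_eq
      (hG.differentiableOn.analyticOnNhd isOpen_univ) (z₀ := 0) ?_
    have h5 : Tendsto (fun u : ℝ => (u : ℂ)) (𝓝[≠] (0 : ℝ)) (𝓝[≠] (0 : ℂ)) := by
      refine tendsto_nhdsWithin_iff.2 ⟨?_, ?_⟩
      · have : Tendsto (fun u : ℝ => (u : ℂ)) (𝓝 0) (𝓝 ((0 : ℝ) : ℂ)) :=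
          Complex.continuous_ofReal.tendsto 0
        rw [Complex.ofReal_zero] at this
        exact this.mono_left nhdsWithin_le_nhds
      · filter_upwards [self_mem_nhdsWithin] with u hu
        simpa using hu
    refine h5.frequently ?_
    refine (Eventually.of_forall fun u => ?_).frequently
    simp only [Function.comp_apply, Complex.conj_ofReal]
    exact Complex.conj_eq_iff_im.2 (h u)
  intro z
  have h4 := congrFun h3 (conj z)
  simp only [Function.comp_apply, Complex.conj_conj] at h4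
  exact h4.symm

lemma LSeries_eq_shift (b : ℕ → ℂ) (s : ℂ) (hs : s ≠ 0) :
    LSeries b s = ∑' n : ℕ, b (n + 1) * ((n + 1 : ℕ) : ℂ) ^ (-s) := by
  unfold LSeries
  have h0 : LSeries.term b s 0 = 0 := LSeries.term_zero b s
  by_cases hsum : Summable (LSeries.term b s)
  · rw [hsum.tsum_eq_zero_add, h0, zero_add]
    refine tsum_congr fun n => ?_
    rw [LSeries.term_of_ne_zero (Nat.succ_ne_zero n), Complex.cpow_neg, div_eq_mul_inv]
  · rw [tsum_eq_zero_of_not_summable hsum, tsum_eq_zero_of_not_summable]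
    intro h
    apply hsum
    refine (summable_nat_add_iff 1).1 (h.congr fun n => ?_)
    rw [LSeries.term_of_ne_zero (Nat.succ_ne_zero n), Complex.cpow_neg, div_eq_mul_inv]

theorem Lt_eq_Lam {N k : ℕ} {F : ℂ → ℂ} {b : ℕ → ℂ} {κ : ℂ} (h : MF N k F b κ) {Λ : ℂ → ℂ}
    (hd : Differentiable ℂ Λ) {C : ℝ}
    (hs : ∀ s : ℂ, C < s.re → Λ s = ((Real.sqrt N / (2 * Real.pi) : ℝ) : ℂ) ^ s * Complex.Gamma s *
      ∑' n : ℕ, b (n + 1) * ((n + 1 : ℕ) : ℂ) ^ (-s)) (z : ℂ) :
    Lt (fun u : ℝ => Km N k F κ (u : ℂ)) z = κ * Λ (k / 2 + I * z) := by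
  have hN : 0 < Real.sqrt N := Real.sqrt_pos.2 (by exact_mod_cast h.hN)
  have hpi := Real.pi_pos
  have h1 : Differentiable ℂ (Lt (fun u : ℝ => Km N k F κ (u : ℂ))) := diff_Lt (kernM h).wt
  have h2 : Differentiable ℂ (fun z => κ * Λ (k / 2 + I * z)) :=
    (hd.comp (by fun_prop : Differentiable ℂ (fun z : ℂ => (k : ℂ) / 2 + I * z))).const_mul κ
  have hk : (0 : ℝ) ≤ k := Nat.cast_nonneg k
  set D : ℝ := max C ((k : ℝ) + 1) with hD
  have hev : Lt (fun u : ℝ => Km N k F κ (u : ℂ)) =ᶠ[𝓝 (-(I * ((D + 1 : ℝ) : ℂ)))]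
      (fun z => κ * Λ (k / 2 + I * z)) := by
    have hopen : IsOpen {z : ℂ | D < ((k : ℂ) / 2 + I * z).re} :=
      isOpen_lt continuous_const (by fun_prop)
    refine Filter.eventually_of_mem (hopen.mem_nhds ?_) (fun w hw => ?_)
    · show D < ((k : ℂ) / 2 + I * (-(I * ((D + 1 : ℝ) : ℂ)))).re
      have e : (k : ℂ) / 2 + I * (-(I * ((D + 1 : ℝ) : ℂ))) = (((k : ℝ) / 2 + (D + 1) : ℝ) : ℂ) := by
        push_cast
        linear_combination (-((D : ℂ) + 1)) * Complex.I_mul_I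
      rw [e, Complex.ofReal_re]
      linarith
    · have hw' : D < ((k : ℂ) / 2 + I * w).re := hw
      have hw1 : (k : ℝ) + 1 < ((k : ℂ) / 2 + I * w).re := (le_max_right _ _).trans_lt hw'
      show Lt (fun u : ℝ => Km N k F κ (u : ℂ)) w = κ * Λ (k / 2 + I * w)
      rw [Pool.Agent.N348.GN.Lt_formula h hw1, hs _ ((le_max_left _ _).trans_lt hw')]
      set s : ℂ := (k : ℂ) / 2 + I * w with hsdef
      have hs0 : s ≠ 0 := by
        intro h0
        rw [h0, Complex.zero_re] at hw1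
        linarith
      rw [LSeries_eq_shift b s hs0]
      have e : (((2 * Real.pi / Real.sqrt N : ℝ) : ℂ)) ^ (-s) =
          ((Real.sqrt N / (2 * Real.pi) : ℝ) : ℂ) ^ s := by
        rw [Complex.cpow_neg, ← Complex.inv_cpow]
        · congr 1
          push_cast
          rw [inv_div]
        · rw [Complex.arg_ofReal_of_nonneg (by positivity)]
          exact Real.pi_pos.ne
      rw [e]
      ring
  exact congrFun (AnalyticOnNhd.eq_of_eventuallyEq (fun z _ => h1.analyticAt z)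
    (fun z _ => h2.analyticAt z) hev) z

/-- real coefficients: real on the imaginary axis -/
lemma real_of_coeff {N k : ℕ} [NeZero N] (f : CuspForm (Gamma0 N : Subgroup (GL (Fin 2) ℝ)) (k : ℤ))
    (hr : ∀ n, ((qExpansion 1 f).coeff n).im = 0) (u : ℝ) :
    (f (ofComplex (I * cexp (u : ℂ) / (Real.sqrt N : ℝ)))).im = 0 := by
  have hN : 0 < Real.sqrt N := Real.sqrt_pos.2 (by exact_mod_cast Nat.pos_of_ne_zero (NeZero.ne N))
  have hpt : I * cexp (u : ℂ) / ((Real.sqrt N : ℝ) : ℂ) = I * ((Real.exp u / Real.sqrt N : ℝ) : ℂ) := by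
    push_cast
    ring
  set y : ℝ := Real.exp u / Real.sqrt N with hy
  have hy0 : 0 < y := by positivity
  have h := Pool.Agent.N868.GN.sum1 (toG1 f) (I * (y : ℂ)) (by simpa using hy0)
  rw [hpt]
  have h2 := Complex.hasSum_im h
  have h3 : (fun n : ℕ => (((qExpansion 1 (toG1 f)).coeff (n + 1) *
      cexp (2 * Real.pi * I * ((n + 1 : ℕ) : ℂ) * (I * (y : ℂ)))).im)) = fun _ => 0 := by
    funext n
    have e : cexp (2 * Real.pi * I * ((n + 1 : ℕ) : ℂ) * (I * (y : ℂ))) =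
        ((Real.exp (-(2 * Real.pi * (n + 1) * y)) : ℝ) : ℂ) := by
      rw [Complex.ofReal_exp]
      congr 1
      push_cast
      linear_combination (2 * Real.pi * ((n : ℂ) + 1) * y) * Complex.I_mul_I
    have e2 : ((qExpansion 1 (toG1 f)).coeff (n + 1)).im = 0 := hr (n + 1)
    rw [e, Complex.im_mul_ofReal, e2, zero_mul]
  rw [h3] at h2
  exact (h2.unique hasSum_zero)

theorem opM' {N k : ℕ} {F : ℂ → ℂ} {b : ℕ → ℂ} {κ : ℂ} (h : MF N k F b κ) {φ : ℂ → ℂ} (hφ : LPc φ)
    (hφ1 : ∃ a, φ a = 0) {G : ℂ → ℂ} (hG : Differentiable ℂ G) (hs : Sym G) (hgr : Gr2 G)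
    (hX : ∀ z : ℂ, HasSum (trm φ G z) (Lt (fun u : ℝ => Km N k F κ (u : ℂ)) z)) : (NRZ G).Infinite :=
  opM Pool.Agent.N712.GN.Z1 h hφ hφ1 hG hs hgr hX

end Pool.Agent.N963.GN
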