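import Pool.Agent.N963.GN.Stm4

set_option autoImplicit false

namespace Pool.Agent.N963.GN

open Complex Filter Topology MeasureTheory Polynomial
open scoped ComplexConjugate

/-- Task Z1: antiderivatives, the case `K 0 = 0`. `K₁(w) = K(w) (1 - i w) / (i w)` (removable singularity at `0`) is again
a `Kern` (hermitian because `1 - i u` and `i u` are), and `MS K₁ α` holds: for `|Im w| = α - δ ≥ α/2` the quotient
`|1 - i w|²/|w|²` is bounded above and below. `Ka K₁ 1 = K(w)/(i w)`, and by T6 (`Pool.Agent.N868.GN.t_T6`, module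
Pool.Agent.N868.GN.T6) `¬ SL (Lt (Ka K₁ 1))`. Now `(Lt (Ka K₁ 1))' = Lt K` (W.lean: deriv_Lt), so `G = Lt (Ka K₁ 1) + c`.
If `c ≠ 0`: on the real line `Lt (Ka K₁ 1) x`, `Lt K x` and its derivative tend to `0` for `x → + ∞` (Riemann-Lebesgue, or
the exponential decay in Pool/Agent/N558/GN/Z0.lean), against `SL G` with `A = 1`. -/
def S_Z1 : Prop := ∀ (K : ℂ → ℂ) (α : ℝ), Kern K α → MS K α → K 0 = 0 → ∀ G : ℂ → ℂ, Differentiable ℂ G →
  (∀ z : ℂ, deriv G z = Lt (fun u : ℝ => K (u : ℂ)) z) → ¬ SL G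

end Pool.Agent.N963.GN
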