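import Pool.Agent.N963.GN.Stm

set_option autoImplicit false

/-!
# Cusp forms: specifications (helper963)
-/

namespace Pool.Agent.N963.GN

open Complex Filter Topology MeasureTheory
open scoped ComplexConjugate

/-- The kernel of the completed L-function of a cusp form. -/
noncomputable def Km (N k : ℕ) (F : ℂ → ℂ) (κ : ℂ) (w : ℂ) : ℂ :=
  κ * F (I * cexp w / (Real.sqrt N : ℝ)) * cexp (k * w / 2)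

/-- Analytic data of a cusp form `F` of weight `k` for `Γ₁(N)`, related to its conjugate by the Fricke involution
(`herm`, for a suitable constant `κ`). -/
structure MF (N k : ℕ) (F : ℂ → ℂ) (b : ℕ → ℂ) (κ : ℂ) : Prop where
  hN : 0 < N
  hk : 0 < k
  sum : ∀ τ : ℂ, 0 < τ.im →
    HasSum (fun n : ℕ => b (n + 1) * cexp (2 * Real.pi * I * ((n + 1 : ℕ) : ℂ) * τ)) (F τ)
  b1 : b 1 ≠ 0
  bb : ∃ B : ℝ, 0 ≤ B ∧ ∀ n : ℕ, 1 ≤ n → ‖b n‖ ≤ B * (n : ℝ) ^ k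
  bound : ∃ B : ℝ, 0 ≤ B ∧ ∀ τ : ℂ, 0 < τ.im → ‖F τ‖ ^ 2 * τ.im ^ k ≤ B
  aut : ∀ a b' c d : ℤ, a * d - b' * c = 1 → (N : ℤ) ∣ c → (N : ℤ) ∣ a - 1 → (N : ℤ) ∣ d - 1 →
    ∀ τ : ℂ, 0 < τ.im → F ((a * τ + b') / (c * τ + d)) = (c * τ + d) ^ k * F τ
  κ0 : κ ≠ 0
  herm : ∀ u : ℝ, Km N k F κ ((-u : ℝ) : ℂ) = conj (Km N k F κ (u : ℂ))

/-- Task M1. (`F` is holomorphic for `Im τ > 0`; `‖F τ‖ ≤ C exp(-2 π Im τ)` for `Im τ ≥ c > 0`, from `sum` and `bb`;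
for `Re w ≥ 0`, `|Im w| ≤ Y < π/2`, `τ = i e^w / √N` has `Im τ = e^(Re w) cos (Im w) / √N`; for `Re w < 0` use the
identity `Km (-conj w) = conj (Km w)` in the strip, from `herm` and the identity theorem (`herm_strip` of
Pool/Agent/N170/GN/R.lean has the argument). `gro` as in `Pool/Agent/N14/GN/E1.lean`.) -/
def S_M1 : Prop := ∀ (N k : ℕ) (F : ℂ → ℂ) (b : ℕ → ℂ) (κ : ℂ), MF N k F b κ →
  Kern (Km N k F κ) (Real.pi / 2)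

/-- Task M2c: counting coprime pairs in a box (with step `N`). With `p = N m + s`, `q = N n`, `m` and `n` in intervals of
lengths `A`, `B ~ Q`: the pairs with a common prime factor `r` (prime to `N` because `s = ± 1`) are at most
`(A/r + 1)(B/r + 1)`, and `∑ 1/r² ≤ 1/4 + ∑_{odd r ≥ 3} 1/r² < 1/2`. -/
def S_M2c : Prop := ∀ (N : ℕ) (s : ℤ) (x1 x2 : ℝ), 0 < N → (s = 1 ∨ s = -1) → x1 < x2 →
  ∃ c Q0 : ℝ, 0 < c ∧ 1 ≤ Q0 ∧ ∀ Q : ℝ, Q0 ≤ Q → ∃ T : Finset (ℤ × ℤ), c * Q ^ 2 ≤ T.card ∧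
    ∀ e ∈ T, Q ≤ e.2 ∧ (e.2 : ℝ) ≤ 2 * Q ∧ (N : ℤ) ∣ e.2 ∧ (N : ℤ) ∣ e.1 - s ∧ IsCoprime e.1 e.2 ∧
      x1 * e.2 ≤ e.1 ∧ (e.1 : ℝ) ≤ x2 * e.2

/-- Task M2a: upper bounds. `|Km w|² ≤ C e^(k u) (Im τ)^(-k) = C' (cos t)^(-k)`, `w = u ± i t`, `cos t = sin δ`,
`t = π/2 - δ`; for `|u| ≥ log (1/δ)` the factor `exp(-4 π Im τ)` (`u > 0`), and for `u < 0` the symmetry
`‖Km(-conj w)‖ = ‖Km w‖`. -/
def S_M2a : Prop := ∀ (N k : ℕ) (F : ℂ → ℂ) (b : ℕ → ℂ) (κ : ℂ), MF N k F b κ →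
  ∃ C δ0 : ℝ, 0 < C ∧ 0 < δ0 ∧ δ0 < 1 ∧
  ∀ δ : ℝ, 0 < δ → δ ≤ δ0 → ∀ σ : ℝ, (σ = 1 ∨ σ = -1) →
    ∫ u : ℝ, ‖Km N k F κ ((u : ℂ) + (σ * (Real.pi / 2 - δ) : ℝ) * I)‖ ^ 2 / (1 + u ^ 2) ≤
      C * δ ^ (-(k : ℝ)) ∧
    ∫ u : ℝ, ‖Km N k F κ ((u : ℂ) + (σ * (Real.pi / 2 - δ) : ℝ) * I)‖ ^ 2 ≤
      C * δ ^ (-(k : ℝ)) * Real.log (1 / δ)

/-- Task M2b: lower bound. `τ(u) = i e^(u ± i t)/√N = x(u) + i y(u)`, `x = ∓ e^u cos δ/√N`, `y = |x| tan δ`. For a pair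
`(p, q)` of M2c (with `Q = c1 δ^(-1/2)`, `c1` small, `N ∣ q`, `p ≡ -1` mod `N`) and `|x(u) - p/q| ≤ y/2`, take `a, b'` with
`a (-p) - b' q = 1` (then `N ∣ a - 1`): `F(τ) = (q τ - p)^(-k) F(γ τ)`, `|q τ - p|² ≤ 2 q² y²`, `Im γ τ = y/|qτ-p|² ∈
[1/(2 q² y), 1/(q² y)]`, and `‖F τ'‖ ≥ ½ |b 1| exp(-2 π Im τ')` for `Im τ' ≥ Y0`. So `‖F τ‖² ≥ c δ^(-k)` on these
intervals of `u`, which are disjoint (`|p/q - p'/q'| ≥ 1/(q q')`) and of length `≥ c δ`, and there are `≥ c/δ` of them. -/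
def S_M2b : Prop := S_M2c → ∀ (N k : ℕ) (F : ℂ → ℂ) (b : ℕ → ℂ) (κ : ℂ), MF N k F b κ →
  ∃ c δ0 : ℝ, 0 < c ∧ 0 < δ0 ∧ δ0 < 1 ∧
  ∀ δ : ℝ, 0 < δ → δ ≤ δ0 → ∀ σ : ℝ, (σ = 1 ∨ σ = -1) →
    c * δ ^ (-(k : ℝ)) ≤ ∫ u in (0 : ℝ)..1, ‖Km N k F κ ((u : ℂ) + (σ * (Real.pi / 2 - δ) : ℝ) * I)‖ ^ 2

/-- Task M3: the logarithmic derivative. For `z` in the lower half plane, `Lt K z = κ N^(s/2) (2π)^(-s) Γ(s) ∑ b(n) n^(-s)`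
with `s = k/2 + i z`, real part as large as we please (`h0` large: `∑_{n ≥ 2} |b n| n^(-Re s) ≤ |b 1|/2`, also with
`log n`); `Γ'/Γ(s) = log s + O(1)`
(`Pool/Agent/H370R2/Digamma.lean: digamma_bound`); so `logDeriv (Lt K) z = i log |x| + O(1)`; then the symmetry
`Lt K (conj z) = conj (Lt K z)` (`sym_Lt` in Pool/Agent/N963/GN/W.lean). `c0 = 1`. Compare
`Pool/Agent/N756/GN/F.lean` (the case of zeta). -/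
def S_M3 : Prop := ∀ (N k : ℕ) (F : ℂ → ℂ) (b : ℕ → ℂ) (κ : ℂ), MF N k F b κ →
  LD (Lt (fun u : ℝ => Km N k F κ (u : ℂ)))

end Pool.Agent.N963.GN
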