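import Pool.Agent.N963.GN.B0
import Pool.Agent.N963.GN.Stm5
import Pool.Agent.N963.GN.StmM
import Pool.Agent.N702.GN.C1
import Pool.Agent.N134.GN.C2
import Pool.Agent.N455.GN.C3
import Pool.Agent.N525.GN.C5
import Pool.Agent.N722.GN.Q
import Pool.Agent.N498.GN.M1
import Pool.Agent.N455.GN.M2a
import Pool.Agent.N558.GN.M2b
import Pool.Agent.N157.GN.M2c
import Pool.Agent.N348.GN.M3

set_option autoImplicit false

/-!
# The theorem for cusp forms (given `S_Z1`)
-/

namespace Pool.Agent.N963.GN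

open Complex Filter Topology MeasureTheory Polynomial
open scoped ComplexConjugate

/-- first order equations, without a hypothesis on `K 0` -/
theorem ode' (z1 : S_Z1) {K : ℂ → ℂ} {α : ℝ} (hK : Kern K α) (hM : MS K α)
    (hL : LD (Lt (fun u : ℝ => K (u : ℂ)))) {a : ℝ}
    {G : ℂ → ℂ} (hG : Differentiable ℂ G) (hs : Sym G)
    (hode : ∀ z, deriv G z - a * G z = Lt (fun u : ℝ => K (u : ℂ)) z) (m : ℕ) : ¬ App m G := by
  by_cases hK0 : K 0 = 0
  · intro hA
    have hX : (fun z => deriv G z - a * G z) = Lt (fun u : ℝ => K (u : ℂ)) := funext hode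
    have hgrX : Gro (Lt (fun u : ℝ => K (u : ℂ))) := gro_Lt hK hK.wt (fun u => le_rfl)
    have hdX : Differentiable ℂ (Lt (fun u : ℝ => K (u : ℂ))) := diff_Lt hK.wt
    have hsX : Sym (Lt (fun u : ℝ => K (u : ℂ))) := sym_Lt (fun u => hK.herm u)
    have hgr : Gro G := gro_ode hG hgrX hode
    have hXne := hL.ne
    have hGne : ∃ z, G z ≠ 0 := by
      by_contra hcon
      push Not at hcon
      obtain ⟨z, hz⟩ := hXne
      apply hz
      have e : G = fun _ => 0 := funext hcon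
      rw [← hode z, e]
      simp
    have hfin := Pool.Agent.N768.GN.a4 m _ hG hGne hA
    have hAX : App m (Lt (fun u : ℝ => K (u : ℂ))) := by
      have h := App.deriv_sub hG hA a
      rwa [hX] at h
    have hfinX := Pool.Agent.N768.GN.a4 m _ hdX hXne hAX
    have hLB := Pool.Agent.N282.GN.t5 Pool.Agent.N186.GN.t_H1 _ hdX hsX hgrX hfinX hL
    have hSL : SL G := t4b Pool.Agent.N186.GN.t_H1 Pool.Agent.N400.GN.h3 G a hG hs hgr hfin
      (by rw [hX]; exact hL) (by rw [hX]; exact hLB)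
    rcases lt_trichotomy a 0 with ha | ha | ha
    · -- reflect
      obtain ⟨r1, r2, r3, -⟩ := Pool.Agent.N170.GN.r K α hK
      have hG' : Differentiable ℂ (fun z => -G (-z)) := (hG.comp differentiable_neg).neg
      have hd : deriv (fun z => -G (-z)) = fun z => deriv G (-z) := by
        funext z
        have h1 := ((hG (-z)).hasDerivAt.comp z (hasDerivAt_neg z)).neg
        have h2 : -(deriv G (-z) * -1) = deriv G (-z) := by ring
        rw [h2] at h1
        exact h1.deriv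
      have hode' : ∀ z, deriv (fun z => -G (-z)) z - ((-a : ℝ) : ℂ) * (-G (-z)) =
          Lt (fun u : ℝ => K (-(u : ℂ))) z := by
        intro z
        rw [hd]
        have h1 := hode (-z)
        have h2 := Pool.Agent.N170.GN.lt_neg (fun u : ℝ => K (u : ℂ)) z
        simp only [Complex.ofReal_neg] at h2
        rw [h2, ← h1]
        push_cast
        ring
      have hA' : App m (fun z => -G (-z)) := by
        have h1 := App.smul (c := -1) (by norm_num) (Pool.Agent.N170.GN.app_neg m G hA)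
        convert h1 using 2 with z
        push_cast
        ring
      have hSL' : SL (fun z => -G (-z)) := by
        intro A
        obtain ⟨x1, hx1, h⟩ := hSL A
        refine ⟨x1, hx1, fun x hx => ?_⟩
        have h1 := h (-x) (by rwa [abs_neg])
        have hdd : deriv (deriv (fun z => -G (-z))) = fun z => -deriv (deriv G) (-z) := by
          rw [hd]
          funext z
          have h1 := ((diff_deriv hG (-z)).hasDerivAt.comp z (hasDerivAt_neg z))
          have h2 : (deriv (deriv G) (-z) * -1) = -deriv (deriv G) (-z) := by ring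
          rw [h2] at h1
          exact h1.deriv
        rw [hdd, hd]
        simp only
        rw [abs_neg] at h1
        push_cast at h1
        rw [norm_neg]
        convert h1 using 2
        ring
      exact ode_pos r1 (r2 hM) (r3 hL) (neg_pos.2 ha) hG' hSL' hode' hA'
    · subst ha
      exact z1 K α hK hM hK0 G hG (fun z => by simpa using hode z) hSL
    · exact ode_pos hK hM hL ha hG hSL hode hA
  · exact ode hK hM hL hK0 hG hs hode m

/-- operators whose symbol has a zero -/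
theorem op2 (z1 : S_Z1) {K : ℂ → ℂ} {α : ℝ} (hK : Kern K α) (hM : MS K α)
    (hL : LD (Lt (fun u : ℝ => K (u : ℂ))))
    {φ : ℂ → ℂ} (hφ : LPc φ) (hφ1 : ∃ a, φ a = 0)
    {G : ℂ → ℂ} (hG : Differentiable ℂ G) (hs : Sym G) (hgr : Gr2 G)
    (hX : ∀ z : ℂ, HasSum (trm φ G z) (Lt (fun u : ℝ => K (u : ℂ)) z)) : (NRZ G).Infinite := by
  intro hfin
  obtain ⟨m, hA⟩ := Pool.Agent.N702.GN.c1 G hG hs hgr hfin
  obtain ⟨a0, ha0⟩ := hφ1
  obtain ⟨him, ψ, hψ, hfac⟩ := Pool.Agent.N455.GN.c3 φ hφ a0 ha0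
  obtain ⟨-, c2, c3, c4, c5⟩ := Pool.Agent.N525.GN.t_C5 Pool.Agent.N134.GN.c2 ψ hψ G hG hgr
  have hφe : (fun s => (s - a0) * ψ s) = φ := (funext hfac).symm
  have ha : a0 = ((a0.re : ℝ) : ℂ) := by
    apply Complex.ext <;> simp [him]
  refine ode' z1 hK hM hL (a := a0.re) c2 (c3 hs) (fun z => ?_) m (c4 m hA)
  have h1 := c5 a0 z
  rw [hφe] at h1
  rw [← ha]
  exact h1.unique (hX z)

/-! ## cusp forms -/

variable {N k : ℕ} {F : ℂ → ℂ} {b : ℕ → ℂ} {κ : ℂ}

theorem kernM (h : MF N k F b κ) : Kern (Km N k F κ) (Real.pi / 2) := Pool.Agent.N498.GN.M1 N k F b κ h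

theorem msM (h : MF N k F b κ) : MS (Km N k F κ) (Real.pi / 2) := by
  obtain ⟨C, δ1, hC, hδ1, hδ11, hup⟩ := Pool.Agent.N455.GN.m2a N k F b κ h
  obtain ⟨c, δ2, hc, hδ2, hδ21, hlow⟩ := Pool.Agent.N558.GN.m2b Pool.Agent.N157.GN.m2c N k F b κ h
  have hk : (0 : ℝ) < k := by exact_mod_cast h.hk
  have hpi := Real.pi_gt_three
  refine ⟨C, c, k, min δ1 δ2, hC, hc, hk, lt_min hδ1 hδ2, ?_, (min_le_left _ _).trans_lt hδ11, ?_⟩
  · exact ((min_le_left _ _).trans_lt hδ11).trans (by linarith)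
  · intro δ h0 h1 σ hσ
    obtain ⟨u1, u2⟩ := hup δ h0 (h1.trans (min_le_left _ _)) σ hσ
    exact ⟨u1, u2, hlow δ h0 (h1.trans (min_le_right _ _)) σ hσ⟩

theorem ldM (h : MF N k F b κ) : LD (Lt (fun u : ℝ => Km N k F κ (u : ℂ))) :=
  Pool.Agent.N348.GN.m3 N k F b κ h

theorem opM (z1 : S_Z1) (h : MF N k F b κ) {φ : ℂ → ℂ} (hφ : LPc φ) (hφ1 : ∃ a, φ a = 0)
    {G : ℂ → ℂ} (hG : Differentiable ℂ G) (hs : Sym G) (hgr : Gr2 G)
    (hX : ∀ z : ℂ, HasSum (trm φ G z) (Lt (fun u : ℝ => Km N k F κ (u : ℂ)) z)) : (NRZ G).Infinite :=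
  op2 z1 (kernM h) (msM h) (ldM h) hφ hφ1 hG hs hgr hX

theorem avM (h : MF N k F b κ) {lam β : ℝ} {r : ℕ → ℝ} (hlam : 0 ≤ lam) (hr : Summable (fun k => r k ^ 2))
    (hk : ∃ k, r k ≠ 0) :
    (NRZ (Lt (fun u : ℝ => Km N k F κ (u : ℂ) / Sf lam β r u))).Infinite := by
  obtain ⟨k0, hk0⟩ := hk
  exact gn Pool.Agent.N186.GN.t_H1 Pool.Agent.N400.GN.h2 Pool.Agent.N400.GN.h3
    (Pool.Agent.N282.GN.t5 Pool.Agent.N186.GN.t_H1) Pool.Agent.N868.GN.t_T6 Pool.Agent.N722.GN.q
    (kernM h) (msM h) (ldM h) hlam hr hk0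

end Pool.Agent.N963.GN
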