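import Pool.Agent.N963.GN.Stm2

set_option autoImplicit false

/-!
# Logarithmic derivatives of polynomials far from the imaginary axis
-/

namespace Pool.Agent.N963.GN

open Complex Filter Topology MeasureTheory Polynomial
open scoped ComplexConjugate

/-- first and second logarithmic derivative of a polynomial -/
noncomputable def D1p (q : ℂ[X]) (z : ℂ) : ℂ := (derivative q).eval z / q.eval z

noncomputable def D2p (q : ℂ[X]) (z : ℂ) : ℂ :=
  ((derivative (derivative q)).eval z * q.eval z - (derivative q).eval z ^ 2) / q.eval z ^ 2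

def EP (Y : ℝ) (q : ℂ[X]) : Prop := ∃ C x1 : ℝ, 0 ≤ C ∧ 1 ≤ x1 ∧ ∀ z : ℂ, x1 ≤ |z.re| → |z.im| ≤ Y →
  q.eval z ≠ 0 ∧ ‖D1p q z‖ ≤ C / |z.re| ∧ |(D1p q z).im| ≤ C / |z.re| ^ 2 ∧ ‖D2p q z‖ ≤ C / |z.re| ^ 2

lemma D1p_mul {p q : ℂ[X]} {z : ℂ} (hp : p.eval z ≠ 0) (hq : q.eval z ≠ 0) :
    D1p (p * q) z = D1p p z + D1p q z := by
  unfold D1p
  rw [derivative_mul, eval_add, eval_mul, eval_mul, eval_mul]
  field_simp

lemma D2p_mul {p q : ℂ[X]} {z : ℂ} (hp : p.eval z ≠ 0) (hq : q.eval z ≠ 0) :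
    D2p (p * q) z = D2p p z + D2p q z := by
  unfold D2p
  rw [derivative_mul, derivative_add, derivative_mul, derivative_mul]
  simp only [eval_add, eval_mul]
  field_simp
  ring

lemma EP_C {Y : ℝ} {c : ℂ} (hc : c ≠ 0) : EP Y (C c) := by
  refine ⟨0, 1, le_rfl, le_rfl, fun z hz _ => ?_⟩
  simp [D1p, D2p, hc]

lemma EP_lin {Y : ℝ} (hY : 0 ≤ Y) (w : ℂ) : EP Y (X - C w) := by
  refine ⟨4 * (1 + Y + ‖w‖), 2 * ‖w‖ + 1, by positivity, by linarith [norm_nonneg w], fun z hz hz2 => ?_⟩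
  have hx : 1 ≤ |z.re| := by linarith [norm_nonneg w]
  have h1 : |z.re| / 2 ≤ ‖z - w‖ := by
    have h2 : |z.re| ≤ ‖z‖ := Complex.abs_re_le_norm z
    have h3 : ‖z‖ ≤ ‖z - w‖ + ‖w‖ := by simpa using norm_add_le (z - w) w
    linarith
  have h0 : 0 < ‖z - w‖ := by linarith
  have h4 : z - w ≠ 0 := norm_pos_iff.1 h0
  have e1 : D1p (X - C w) z = (z - w)⁻¹ := by simp [D1p]
  have e2 : D2p (X - C w) z = -((z - w) ^ 2)⁻¹ := by
    simp only [D2p, derivative_sub, derivative_X, derivative_C, sub_zero, derivative_one, eval_zero, zero_mul,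
      eval_one, one_pow, zero_sub, eval_sub, eval_X, eval_C]
    rw [neg_div, one_div]
  have hsq : |z.re| ^ 2 / 4 ≤ ‖z - w‖ ^ 2 := by
    have := pow_le_pow_left₀ (by positivity) h1 2
    calc |z.re| ^ 2 / 4 = (|z.re| / 2) ^ 2 := by ring
      _ ≤ _ := this
  refine ⟨by simpa using h4, ?_, ?_, ?_⟩
  · rw [e1, norm_inv, inv_le_comm₀ h0 (by positivity), inv_div]
    refine le_trans ?_ h1
    rw [div_le_div_iff₀ (by positivity) (by norm_num)]
    nlinarith [norm_nonneg w, abs_nonneg z.re]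
  · rw [e1, Complex.inv_im, abs_div, abs_neg, Complex.normSq_eq_norm_sq, abs_of_nonneg (sq_nonneg ‖z - w‖)]
    rw [div_le_div_iff₀ (by positivity) (by positivity)]
    have h5 : |(z - w).im| ≤ Y + ‖w‖ := by
      rw [Complex.sub_im]
      exact (abs_sub _ _).trans (add_le_add hz2 (Complex.abs_im_le_norm w))
    calc |(z - w).im| * |z.re| ^ 2 ≤ (Y + ‖w‖) * (4 * ‖z - w‖ ^ 2) := by
          apply mul_le_mul h5 (by linarith) (by positivity) (by positivity)
      _ ≤ 4 * (1 + Y + ‖w‖) * ‖z - w‖ ^ 2 := by nlinarith [sq_nonneg ‖z - w‖]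
  · rw [e2, norm_neg, norm_inv, norm_pow, inv_le_comm₀ (by positivity) (by positivity), inv_div]
    refine le_trans ?_ hsq
    rw [div_le_div_iff₀ (by positivity) (by norm_num)]
    nlinarith [norm_nonneg w, sq_nonneg |z.re|]

lemma EP_mul {Y : ℝ} {p q : ℂ[X]} (hp : EP Y p) (hq : EP Y q) : EP Y (p * q) := by
  obtain ⟨C, x, hC, hx, h⟩ := hp
  obtain ⟨C', x', hC', hx', h'⟩ := hq
  refine ⟨C + C', max x x', by positivity, hx.trans (le_max_left _ _), fun z hz hz2 => ?_⟩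
  obtain ⟨a0, a1, a2, a3⟩ := h z ((le_max_left _ _).trans hz) hz2
  obtain ⟨b0, b1, b2, b3⟩ := h' z ((le_max_right _ _).trans hz) hz2
  refine ⟨by rw [eval_mul]; exact mul_ne_zero a0 b0, ?_, ?_, ?_⟩
  · rw [D1p_mul a0 b0, add_div]
    exact (norm_add_le _ _).trans (add_le_add a1 b1)
  · rw [D1p_mul a0 b0, add_div, Complex.add_im]
    exact (abs_add_le _ _).trans (add_le_add a2 b2)
  · rw [D2p_mul a0 b0, add_div]
    exact (norm_add_le _ _).trans (add_le_add a3 b3)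

lemma EP_prod {Y : ℝ} (hY : 0 ≤ Y) (s : Multiset ℂ) : EP Y (s.map (fun a => X - C a)).prod := by
  induction s using Multiset.induction_on with
  | empty =>
    have := EP_C (Y := Y) (c := 1) one_ne_zero
    simpa using this
  | cons a s ih =>
    rw [Multiset.map_cons, Multiset.prod_cons]
    exact EP_mul (EP_lin hY a) ih

theorem EP_all {Y : ℝ} (hY : 0 ≤ Y) {q : ℂ[X]} (hq : q ≠ 0) : EP Y q := by
  have h := (IsAlgClosed.splits q).eq_prod_roots
  rw [h]
  exact EP_mul (EP_C (leadingCoeff_ne_zero.2 hq)) (EP_prod hY _)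

/-- the logarithmic derivative of a polynomial with real roots, lower bound -/
def EM (q : ℂ[X]) (n : ℕ) : Prop := ∃ x1 : ℝ, 1 ≤ x1 ∧ ∀ z : ℂ, x1 ≤ |z.re| → 0 < z.im → z.im ≤ 1 →
  q.eval z ≠ 0 ∧ (n : ℝ) * z.im / (4 * |z.re| ^ 2) ≤ -(D1p q z).im

lemma EM_lin {w : ℂ} (hw : w.im = 0) : EM (X - C w) 1 := by
  refine ⟨‖w‖ + 1, by linarith [norm_nonneg w], fun z hz h0 h1 => ?_⟩
  have hx : 1 ≤ |z.re| := by linarith [norm_nonneg w]
  have h4 : z - w ≠ 0 := by
    intro h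
    have := congrArg Complex.im h
    rw [Complex.sub_im, hw] at this
    simp only [Complex.zero_im] at this
    linarith
  have e1 : D1p (X - C w) z = (z - w)⁻¹ := by simp [D1p]
  refine ⟨by simpa using h4, ?_⟩
  rw [e1, Complex.inv_im, neg_div, neg_neg, Complex.normSq_eq_norm_sq, Complex.sub_im, hw, sub_zero,
    Nat.cast_one, one_mul]
  have h5 : ‖z - w‖ ^ 2 ≤ 4 * |z.re| ^ 2 + 1 := by
    rw [← Complex.normSq_eq_norm_sq, Complex.normSq_apply, Complex.sub_re, Complex.sub_im, hw, sub_zero]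
    have h6 : |w.re| ≤ ‖w‖ := Complex.abs_re_le_norm w
    have h7 : |z.re - w.re| ≤ 2 * |z.re| - 1 := (abs_sub _ _).trans (by linarith)
    have h8 : (z.re - w.re) * (z.re - w.re) = |z.re - w.re| ^ 2 := by rw [sq_abs]; ring
    rw [h8]
    have h9 := pow_le_pow_left₀ (abs_nonneg _) h7 2
    nlinarith
  have h6 : ‖z - w‖ ^ 2 ≤ 4 * |z.re| ^ 2 := by
    rw [← Complex.normSq_eq_norm_sq, Complex.normSq_apply, Complex.sub_re, Complex.sub_im, hw, sub_zero]
    have h6 : |w.re| ≤ ‖w‖ := Complex.abs_re_le_norm w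
    have h7 : |z.re - w.re| ≤ 2 * |z.re| - 1 := (abs_sub _ _).trans (by linarith)
    have h8 : (z.re - w.re) * (z.re - w.re) = |z.re - w.re| ^ 2 := by rw [sq_abs]; ring
    rw [h8]
    have h9 := pow_le_pow_left₀ (abs_nonneg _) h7 2
    nlinarith
  have h7 : 0 < ‖z - w‖ ^ 2 := by have := norm_pos_iff.2 h4; positivity
  exact div_le_div_of_nonneg_left h0.le h7 h6

lemma EM_mul {p q : ℂ[X]} {m n : ℕ} (hp : EM p m) (hq : EM q n) : EM (p * q) (m + n) := by
  obtain ⟨x, hx, h⟩ := hp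
  obtain ⟨x', hx', h'⟩ := hq
  refine ⟨max x x', hx.trans (le_max_left _ _), fun z hz h0 h1 => ?_⟩
  obtain ⟨a0, a1⟩ := h z ((le_max_left _ _).trans hz) h0 h1
  obtain ⟨b0, b1⟩ := h' z ((le_max_right _ _).trans hz) h0 h1
  refine ⟨by rw [eval_mul]; exact mul_ne_zero a0 b0, ?_⟩
  rw [D1p_mul a0 b0, Complex.add_im, Nat.cast_add, add_mul, add_div]
  linarith

lemma EM_prod (s : Multiset ℂ) (hs : ∀ w ∈ s, w.im = 0) : EM (s.map (fun a => X - C a)).prod s.card := by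
  induction s using Multiset.induction_on with
  | empty =>
    refine ⟨1, le_rfl, fun z hz h0 h1 => ?_⟩
    simp [D1p]
  | cons a s ih =>
    rw [Multiset.map_cons, Multiset.prod_cons, Multiset.card_cons, add_comm]
    exact EM_mul (EM_lin (hs a (Multiset.mem_cons_self a s)))
      (ih (fun w hw => hs w (Multiset.mem_cons_of_mem hw)))

theorem EM_all {q : ℂ[X]} (hq : q ≠ 0) (hr : ∀ w, q.eval w = 0 → w.im = 0) : EM q q.roots.card := by
  have h := (IsAlgClosed.splits q).eq_prod_roots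
  have h1 := EM_prod q.roots (fun w hw => hr w ((mem_roots hq).1 hw))
  obtain ⟨x, hx, h2⟩ := h1
  refine ⟨x, hx, fun z hz h0 h1 => ?_⟩
  obtain ⟨a0, a1⟩ := h2 z hz h0 h1
  have hl : (C q.leadingCoeff).eval z ≠ 0 := by
    rw [eval_C]
    exact leadingCoeff_ne_zero.2 hq
  refine ⟨?_, ?_⟩
  · rw [h, eval_mul]
    exact mul_ne_zero hl a0
  · have e : D1p q z = D1p (q.roots.map (fun a => X - C a)).prod z := by
      conv_lhs => rw [h]
      rw [D1p_mul hl a0]
      simp [D1p]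
    rw [e]
    exact a1

end Pool.Agent.N963.GN
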