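import Pool.Agent.N963.GN.Stm

set_option autoImplicit false

/-!
# Averages of the xi function with Polya frequency weights: second list of specifications (helper963)
-/

namespace Pool.Agent.N963.GN

open Complex Filter Topology MeasureTheory Polynomial
open scoped ComplexConjugate

/-- Lower bound for `-Im X'/X` on every horizontal line close to the real axis. -/
def LB (X : ℂ → ℂ) : Prop := ∃ c η0 : ℝ, 0 < c ∧ 0 < η0 ∧ ∀ η : ℝ, 0 < η → η < η0 → ∃ x1 : ℝ, 1 ≤ x1 ∧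
  ∀ x : ℝ, x1 ≤ |x| → X ((x : ℂ) + η * I) ≠ 0 ∧ c * Real.log |x| ≤ -(logDeriv X ((x : ℂ) + η * I)).im

/-- The Laguerre inequality with a large factor, far out. -/
def SL (G : ℂ → ℂ) : Prop := ∀ A : ℝ, ∃ x1 : ℝ, 1 ≤ x1 ∧ ∀ x : ℝ, x1 ≤ |x| →
  A * Real.log |x| * ‖G x‖ ^ 2 ≤ ((deriv G x) ^ 2 - G x * deriv (deriv G) x).re

/-- Task H1: factorisation. `f ≠ 0` because `NRZ f` is finite. Choose real `β`, `|β| ≤ 1`, with `f β ≠ 0`, apply
`H24R2.JP.had_split` (module Pool.Agent.H24R2.JP.Had) to `f (z + β)` with a radius `> ρ + 1` beyond all the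
non-real zeros; `H24R2.JP.had_symm` gives the symmetry of `g`, and `g` has real zeros only;
`Gro g`: `‖P w‖ ≥ 1`-like lower bound for large `w` (P nonzero), compactness for the others; `RR g` from
`Y275.GL.had_real` (module Pool.Agent.Y275.GL.Had1). Shift back by `β`. -/
def S_H1 : Prop := ∀ f : ℂ → ℂ, Differentiable ℂ f → Sym f → Gro f → (NRZ f).Finite → ∀ ρ : ℝ,
  ∃ (P : ℝ[X]) (g : ℂ → ℂ), P ≠ 0 ∧ RR g ∧ Sym g ∧ Gro g ∧ (∀ w, f w = aeval w P * g w) ∧
    ∀ w, ‖w‖ ≤ ρ → g w ≠ 0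

/-- Task H2: If `Q N → g` with `Q N` having real roots only and `g` symmetric, replace `Q N = c ∏ (X - x_j)` by the real
polynomial `Re c ∏ (X - x_j)`, whose values are `(Q N z + conj (Q N (conj z)))/2`; nonzero for large `N`
(evaluate at a point where `g ≠ 0`); then multiply by `P`. -/
def S_H2 : Prop := ∀ (P : ℝ[X]) (g : ℂ → ℂ), P ≠ 0 → RR g → Sym g →
  App P.natDegree (fun z => aeval z P * g z)

/-- Task H3: an entire function of order at most 3/2 without zeros (`Y275.GL.base1` with radius to infinity). -/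
def S_H3 : Prop := ∀ f : ℂ → ℂ, Differentiable ℂ f → Gro f → (∀ z, f z ≠ 0) →
  ∃ b c : ℂ, ∀ z, f z = c * cexp (b * z)

/-- Task T5. By H1 `X = P X1`. The logarithmic derivative `L_P` of `P` tends to `0`. With the constants of `LD X`, for
`0 < η < h0 - r0` use three circles (S_C) around `c = x + i h0` with radii `r0 < h0 - η < h0 - η/2` for
`f z = logDeriv X1 z + i c0 log |x|` (holomorphic for `Im z > 0` by B1): on the first circle it is at most `C + 1`;
on the third at most `C' log |x|` (B3 and B4 with `w = x + i h0`, where `-Im logDeriv X1 w ≤ c0 log |x| + C + 1`);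
so at `x + i η` it is at most `(C+1)^(1-θ) (C' log|x|)^θ = o(log |x|)`. Conclusion with `c = c0/2`. -/
def S_T5 : Prop := ∀ X : ℂ → ℂ, Differentiable ℂ X → Sym X → Gro X → (NRZ X).Finite → LD X → LB X

/-- Task T4. By H1 `G = P G1`, and `G1` has infinitely many zeros (otherwise by H1 and H3 `G = P P1 c exp (b z)`
and `X'/X` is bounded for large real part of `z`, against `LD X`), so `G1 = P1 G2` with `P1` of large degree (H1).
`L = G'/G`, `X = G (1 - L/a)`, `X'/X = L - L'/(a - L)`. -/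
def S_T4 : Prop := ∀ (G : ℂ → ℂ) (a : ℝ), a ≠ 0 → Differentiable ℂ G → Sym G → Gro G → (NRZ G).Finite →
  LD (fun z => G z - deriv G z / a) → LB (fun z => G z - deriv G z / a) → SL G

/-- Task T6 (the contradiction). Let `G = Lt (Ka K a)` and choose `A` large (depending on `a` and the constants of
`MS`), `x1` from `SL`. Let `δ → 0`, `t = α - δ`, `t' = α - √δ`. By `taskD` (module Pool.Agent.N963.GN.D3)
`∫ (G'² - G G'').re e^(2 t x) = 4 π ∫ u² ‖Ka(u+it)‖² ≤ 4 π a² ∫ ‖K(u+it)‖² ≤ 4 π a² C δ^(-p) log(1/δ)`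
(`‖1 - i (u + i t)/a‖² = (1 + t/a)² + u²/a²`), and from below it is at least
`A (1/2) log (1/δ) ∫_{x > δ^(-1/2)} ‖G‖² e^(2 t x) - B'` (the part `|x| ≤ x1` is bounded by `B'`, the parts
`x < -x1` and `x1 < x < δ^(-1/2)` are nonnegative), where
`∫_{x > δ^(-1/2)} ‖G‖² e^(2 t x) ≥ 2 π ∫_0^1 ‖Ka(u+it)‖² du - e² ∫ ‖G‖² e^(2 t' x)` (for `x ≤ δ^(-1/2)`,
`e^(2 t x) ≤ e² e^(2 t' x)`), `≥ c' δ^(-p) - C' δ^(-p/2)` by the first and the third bound of `MS`. -/
def S_T6 : Prop := ∀ (K : ℂ → ℂ) (α : ℝ), Kern K α → MS K α → ∀ a : ℝ, 0 < a →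
  ¬ SL (Lt (fun u => Ka K a (u : ℂ)))

/-- Task R: reflection. (`K (-conj w) = conj (K w)` in the strip, from `herm` by the identity theorem; see
`sym_G`/`Ka_herm` in Pool.Agent.N963.GN.D3; so `‖K (-w)‖ = ‖K (conj w)‖` and, for the kernel `K(-w)`, the side
`σ` becomes `-σ`. `Lt (fun u => K (-u)) z = Lt K (-z)`, and `Lt K (conj z) = conj (Lt K z)` (W.lean: sym_Lt), so that its
logarithmic derivative at `z` is `-conj (logDeriv (Lt K) (-conj z))`.) -/
def S_R : Prop := ∀ (K : ℂ → ℂ) (α : ℝ), Kern K α →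
  Kern (fun w => K (-w)) α ∧ (MS K α → MS (fun w => K (-w)) α) ∧
  (LD (Lt (fun u => K (u : ℂ))) → LD (Lt (fun u => K (-(u : ℂ))))) ∧
  (∀ (a : ℝ) (m : ℕ), App m (Lt (fun u => Ka K a (u : ℂ))) →
    App m (Lt (fun u => Ka (fun w => K (-w)) (-a) (u : ℂ))))

/-- The reciprocal of the transform of a Polya frequency density (Schoenberg). -/
noncomputable def Sf (lam β : ℝ) (r : ℕ → ℝ) (u : ℝ) : ℂ :=
  cexp (lam * u ^ 2 + I * β * u) * ∏' k, ((1 - I * r k * u) * cexp (I * r k * u))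

/-- Task Q: reduction to one factor. `T_N (u) = e^(i r_{k0} u) e^(i β u) (1 + lam u²/N)^N ∏_{k < N, k ≠ k0} (1 - i r_k u) e^(i r_k u)`;
`|T_N u| ≤ |S u / (1 - i r_{k0} u)|` and `T_N u → S u / ((1 - i r_{k0} u))`; multiplying the weight by `1 - i b u` is
`1 - b D` on the transform (A3, W.lean: deriv_Lt, hasDerivAt_Lt), `1 + lam u²/N = (1 - i s u)(1 + i s u)` with
`s = √(lam/N)`, multiplying by `e^(i b u)` is the shift by `b` (A2), the limit is A1 with dominated convergence: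
`|Lt h z| ≤ ∫ |h u| e^(R |u|) du` for `‖z‖ ≤ R`. -/
def S_Q : Prop := ∀ (k : ℝ → ℂ), Wt k → ∀ (lam β : ℝ) (r : ℕ → ℝ), 0 ≤ lam → Summable (fun j => r j ^ 2) →
  (∀ u : ℝ, 1 ≤ ‖Sf lam β r u‖) ∧ Measurable (Sf lam β r) ∧
  ∀ (j0 : ℕ) (m : ℕ), App m (Lt (fun u => k u / Sf lam β r u)) →
    App m (Lt (fun u => k u / (1 - I * r j0 * u)))

end Pool.Agent.N963.GN
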