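import Pool.Agent.N963.GN.Stm3

set_option autoImplicit false

namespace Pool.Agent.N963.GN

open Complex Filter Topology MeasureTheory Polynomial
open scoped ComplexConjugate

/-- Task Z0: antiderivatives. Put `X = Lt K`. By the contour shift (`shift` in Pool/Agent/N963/GN/D1.lean; `S_R` =
`Pool.Agent.N170.GN.r` for the reflected kernel) `‖X x‖ ≤ C exp (-t |x|)` on the real line, `t = α/2`, and the same for `X'`;
in particular `X` is integrable, and `∫ X = 2 π K 0` by Fourier inversion. If `SL G`, then with `A = 1`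
`log |x| ‖G x‖² ≤ ‖X x‖² + ‖G x‖ ‖X' x‖`, so `G x → 0` for `x → ± ∞`, so `∫_{-R}^R X = G R - G (-R) → 0`,
and `K 0 = 0`. -/
def S_Z0 : Prop := ∀ (K : ℂ → ℂ) (α : ℝ), Kern K α → K 0 ≠ 0 → ∀ G : ℂ → ℂ, Differentiable ℂ G →
  (∀ z : ℂ, deriv G z = Lt (fun u : ℝ => K (u : ℂ)) z) → ¬ SL G

end Pool.Agent.N963.GN
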