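import Pool.Agent.N963.GN.StmM

set_option autoImplicit false

namespace Pool.Agent.N963.GN

open Complex UpperHalfPlane MatrixGroups CongruenceSubgroup
open scoped ComplexConjugate

/-- Task M0: a cusp form for `Γ₁(N)` (Mathlib) with nonzero first coefficient and `f(-1/(N τ)) = η τ^k conj(f(-conj τ))` gives
the data `MF` (`b n = (qExpansion 1 f).coeff n`, `F = f ∘ UpperHalfPlane.ofComplex`, `κ` a suitable square root).
The bound `‖F τ‖² (Im τ)^k ≤ B` and the bound of the coefficients are Hecke's (Mathlib: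
`CuspFormClass.exp_decay_atImInfty`, `petersson` bounded, `CuspForm.qExpansion_coeff...`; see
`Pool/Agent/H128R3/EC/NF.lean` and the proof of the same for `Gamma1` in Pool/Agent/TH839 or Pool/Agent/H128R3). -/
def S_M0 : Prop := ∀ (N : ℕ) [NeZero N] (k : ℕ), 0 < k →
  ∀ (f : CuspForm (Gamma1 N : Subgroup (GL (Fin 2) ℝ)) (k : ℤ)),
  (qExpansion 1 f).coeff 1 ≠ 0 → ∀ η : ℂ, η ≠ 0 →
  (∀ τ τ' τ'' : ℍ, (τ' : ℂ) * ((N : ℂ) * (τ : ℂ)) = -1 → (τ'' : ℂ) = -conj (τ : ℂ) →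
    f τ' = η * (τ : ℂ) ^ k * conj (f τ'')) →
  ∃ κ : ℂ, MF N k (fun w => f (UpperHalfPlane.ofComplex w)) (fun n => (qExpansion 1 f).coeff n) κ

end Pool.Agent.N963.GN
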