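import Pool.Agent.N963.GN.T4

set_option autoImplicit false

/-!
# Task T4 for `X = G' - a G`, all real `a`
-/

namespace Pool.Agent.N963.GN

open Complex Filter Topology MeasureTheory Polynomial
open scoped ComplexConjugate

/-- `X = G' - a G`: logarithmic derivative -/
lemma logDeriv_X' {G : ℂ → ℂ} (hG : Differentiable ℂ G) {a : ℝ} {z : ℂ} (hz : G z ≠ 0)
    (hX : deriv G z - a * G z ≠ 0) :
    (a : ℂ) - logDeriv G z ≠ 0 ∧
    logDeriv (fun w => deriv G w - a * G w) z = logDeriv G z - L2 G z / (a - logDeriv G z) := by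
  have e1 : (a : ℂ) - logDeriv G z = -((deriv G z - a * G z) / G z) := by
    rw [logDeriv_apply]
    field_simp
    ring
  have h1 : (a : ℂ) - logDeriv G z ≠ 0 := by
    rw [e1]
    exact neg_ne_zero.2 (div_ne_zero hX hz)
  refine ⟨h1, ?_⟩
  have h2 : deriv (fun w => deriv G w - a * G w) z = deriv (deriv G) z - a * deriv G z := by
    have h3 := ((diff_deriv hG z).hasDerivAt).sub ((hG z).hasDerivAt.const_mul (a : ℂ))
    exact h3.deriv
  rw [logDeriv_apply, h2, e1, logDeriv_apply, L2]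
  generalize deriv (deriv G) z = g2 at *
  generalize deriv G z = g1 at *
  generalize G z = g0 at *
  field_simp
  ring

/-- infinitely many zeros -/
lemma zeros_infinite' (h1 : S_H1) (h3 : S_H3) {G g : ℂ → ℂ} {P : ℝ[X]} {a : ℝ}
    (hP : P ≠ 0) (hg : RR g) (hs : Sym g) (hgro : Gro g)
    (b1 : S_B1) (hG : ∀ w, G w = aeval w P * g w)
    (hLD : LD (fun z => deriv G z - a * G z)) : ({w | g w = 0} : Set ℂ).Infinite := by
  intro hfin
  obtain ⟨ρ, hρ⟩ : ∃ ρ : ℝ, ∀ w ∈ {w | g w = 0}, ‖w‖ ≤ ρ := by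
    obtain ⟨ρ, hρ⟩ := (hfin.image (fun w => ‖w‖)).bddAbove
    exact ⟨ρ, fun w hw => hρ (Set.mem_image_of_mem _ hw)⟩
  have hnr : (NRZ g).Finite := hfin.subset (fun w hw => hw.1)
  obtain ⟨P1, g1, hP1, hg1, hs1, hgro1, hfac, hz1⟩ := h1 g hg.1 hs hgro hnr ρ
  have hz : ∀ z, g1 z ≠ 0 := by
    intro z hz0
    have : g z = 0 := by rw [hfac z, hz0, mul_zero]
    exact hz1 z (hρ z this) hz0
  obtain ⟨b, c, hbc⟩ := h3 g1 hg1.1 hgro1 hz
  have hc : c ≠ 0 := by
    intro h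
    apply hz 0
    rw [hbc, h, zero_mul]
  set q : ℂ[X] := (P.map (algebraMap ℝ ℂ)) * (P1.map (algebraMap ℝ ℂ)) * C c with hq
  have hq0 : q ≠ 0 := by
    rw [hq]
    refine mul_ne_zero (mul_ne_zero ?_ ?_) (by simpa using hc)
    · exact (Polynomial.map_ne_zero_iff (algebraMap ℝ ℂ).injective).2 hP
    · exact (Polynomial.map_ne_zero_iff (algebraMap ℝ ℂ).injective).2 hP1
  have hE : Differentiable ℂ (fun z : ℂ => cexp (b * z)) := by fun_prop
  have hdE : deriv (fun z : ℂ => cexp (b * z)) = fun z => b * cexp (b * z) := by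
    funext z
    have h := ((hasDerivAt_id z).const_mul b).cexp
    simp only [id, mul_one] at h
    rw [show (fun z : ℂ => cexp (b * z)) = fun z : ℂ => cexp (b * z) from rfl]
    refine Eq.trans h.deriv ?_
    ring
  have hGq : ∀ w, G w = q.eval w * cexp (b * w) := by
    intro w
    rw [hG w, hfac w, hbc w, hq, eval_mul, eval_mul, eval_C, ← aeval_eq, ← aeval_eq]
    ring
  set r : ℂ[X] := derivative q + C b * q - C (a : ℂ) * q with hr
  have hX : ∀ w, deriv G w - a * G w = r.eval w * cexp (b * w) := by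
    intro w
    rw [deriv_mul_poly hE hGq, hGq w, hdE, hr]
    simp only [eval_sub, eval_mul, eval_C, eval_add]
    ring
  obtain ⟨c0, h0, r0, CC, x0, hc0, hr0, hrh, hCC, hx0, hL⟩ := hLD
  have hr00 : r ≠ 0 := by
    intro h
    have h4 := (hL x0 (by rw [abs_of_pos (by linarith)]) ((x0 : ℂ) + h0 * I) (by simp [hr0.le])).1
    apply h4
    simp only
    rw [hX, h, eval_zero, zero_mul]
  obtain ⟨C1, x1, hC1, hx1, hEP⟩ := EP_all (Y := h0) (by linarith) hr00
  -- choose `x` large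
  obtain ⟨x, hxx⟩ : ∃ x : ℝ, max x0 x1 ≤ x ∧ CC + ‖b‖ + C1 < c0 * Real.log x := by
    have h5 : Tendsto (fun x : ℝ => c0 * Real.log x) atTop atTop := Real.tendsto_log_atTop.const_mul_atTop hc0
    obtain ⟨x, h6, h7⟩ := ((h5.eventually_gt_atTop (CC + ‖b‖ + C1)).and (eventually_ge_atTop (max x0 x1))).exists
    exact ⟨x, h7, h6⟩
  obtain ⟨hx2, hx3⟩ := hxx
  have hx4 : x0 ≤ x := (le_max_left _ _).trans hx2
  have hx5 : x1 ≤ x := (le_max_right _ _).trans hx2
  have hxp : 1 ≤ x := hx0.trans hx4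
  have habs : |x| = x := abs_of_pos (by linarith)
  obtain ⟨hXne, hXb⟩ := hL x (by rw [habs]; exact hx4) ((x : ℂ) + h0 * I) (by simp [hr0.le])
  set z : ℂ := (x : ℂ) + h0 * I with hzdef
  have hre : z.re = x := by simp [hzdef]
  have him : z.im = h0 := by simp [hzdef]
  obtain ⟨e0, e1, -, -⟩ := hEP z (by rw [hre, habs]; exact hx5) (by rw [him, abs_of_pos (by linarith)])
  have hlog : logDeriv (fun z => deriv G z - a * G z) z = D1p r z + b := by
    have h6 := logDeriv_mul_poly (G := fun z => deriv G z - a * G z) (g := fun z : ℂ => cexp (b * z))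
      (q := r) hE hX (z := z) e0 (Complex.exp_ne_zero _)
    rw [h6, logDeriv_apply, hdE]
    have := Complex.exp_ne_zero (b * z)
    field_simp
  rw [hlog, habs] at hXb
  rw [hre, habs] at e1
  have h7 : C1 / x ≤ C1 := div_le_self hC1 hxp
  have h8 : c0 * Real.log x = ‖I * ((c0 * Real.log x : ℝ) : ℂ)‖ := by
    rw [norm_mul, Complex.norm_I, one_mul, Complex.norm_real, Real.norm_eq_abs, abs_of_nonneg]
    exact mul_nonneg hc0.le (Real.log_nonneg hxp)
  have h9 : ‖I * ((c0 * Real.log x : ℝ) : ℂ)‖ ≤ ‖D1p r z + b + I * ((c0 * Real.log x : ℝ) : ℂ)‖ + (‖D1p r z‖ + ‖b‖) := by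
    have e : I * ((c0 * Real.log x : ℝ) : ℂ) = (D1p r z + b + I * ((c0 * Real.log x : ℝ) : ℂ)) - (D1p r z + b) := by
      ring
    calc ‖I * ((c0 * Real.log x : ℝ) : ℂ)‖ = ‖(D1p r z + b + I * ((c0 * Real.log x : ℝ) : ℂ)) - (D1p r z + b)‖ := by
          rw [← e]
      _ ≤ _ := (norm_sub_le _ _).trans (by gcongr; exact norm_add_le _ _)
  linarith

theorem t4b (h1 : S_H1) (h3 : S_H3) (G : ℂ → ℂ) (a : ℝ) (hG : Differentiable ℂ G) (hs : Sym G) (hgro : Gro G)
    (hfin : (NRZ G).Finite) (hLD : LD (fun z => deriv G z - a * G z))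
    (hLB : LB (fun z => deriv G z - a * G z)) : SL G := by
  have b1 := Pool.Agent.N252.GN.b1
  have b2 := Pool.Agent.N252.GN.b2
  intro A
  obtain ⟨P, G1, hP, hR1, hs1, hgro1, hfac, -⟩ := h1 G hG hs hgro hfin 0
  have hP' : (P.map (algebraMap ℝ ℂ)) ≠ 0 := (Polynomial.map_ne_zero_iff (algebraMap ℝ ℂ).injective).2 hP
  have hGq : ∀ w, G w = (P.map (algebraMap ℝ ℂ)).eval w * G1 w := fun w => by rw [hfac w, aeval_eq]
  have hinf := zeros_infinite' h1 h3 hP hR1 hs1 hgro1 b1 hfac hLD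
  obtain ⟨CP, x2, hCP, hx2, hEP⟩ := EP_all (Y := 1) zero_le_one hP'
  obtain ⟨c, η0, hc, hη0, hLB⟩ := hLB
  -- choice of `η`
  obtain ⟨η, hη, hη1, hη2, hηA⟩ : ∃ η : ℝ, 0 < η ∧ η < η0 ∧ η ≤ 1 ∧ η * (4 * (|A| + 1)) ≤ c := by
    refine ⟨min (η0 / 2) (min 1 (c / (4 * (|A| + 1)))), by positivity, ?_, ?_, ?_⟩
    · exact (min_le_left _ _).trans_lt (by linarith)
    · exact (min_le_right _ _).trans (min_le_left _ _)
    · have h5 : min (η0 / 2) (min 1 (c / (4 * (|A| + 1)))) ≤ c / (4 * (|A| + 1)) :=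
        (min_le_right _ _).trans (min_le_right _ _)
      rw [le_div_iff₀ (by positivity)] at h5
      exact h5
  obtain ⟨x3, hx3, hLBx⟩ := hLB η hη hη1
  -- many zeros
  obtain ⟨M, hM⟩ := exists_nat_ge (8 * (CP + 1) / η)
  obtain ⟨T, hTs, hTc⟩ := hinf.exists_subset_card_eq M
  obtain ⟨ρ, hρ⟩ : ∃ ρ : ℝ, ∀ w ∈ T, ‖w‖ ≤ ρ := by
    obtain ⟨ρ, hρ⟩ := (T.finite_toSet.image (fun w => ‖w‖)).bddAbove
    exact ⟨ρ, fun w hw => hρ (Set.mem_image_of_mem _ (by simpa using hw))⟩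
  have hnr1 : (NRZ G1).Finite := by
    convert Set.finite_empty
    ext w
    simp only [NRZ, Set.mem_ofPred_eq, Set.mem_empty_iff_false, iff_false, not_and, not_not]
    exact fun hw => hR1.real_zero b1 hs1 hw
  obtain ⟨P1, G2, hP1, hR2, hs2, -, hfac1, hz2⟩ := h1 G1 hR1.1 hs1 hgro1 hnr1 ρ
  have hP1' : (P1.map (algebraMap ℝ ℂ)) ≠ 0 :=
    (Polynomial.map_ne_zero_iff (algebraMap ℝ ℂ).injective).2 hP1
  have hG1q : ∀ w, G1 w = (P1.map (algebraMap ℝ ℂ)).eval w * G2 w := fun w => by rw [hfac1 w, aeval_eq]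
  have hEM := EM_all hP1' (fun w hw => hR1.real_zero b1 hs1 (by rw [hG1q w, hw, zero_mul]))
  have hcard : M ≤ (P1.map (algebraMap ℝ ℂ)).roots.card := by
    classical
    rw [← hTc]
    have h5 : T ⊆ (P1.map (algebraMap ℝ ℂ)).roots.toFinset := by
      intro w hw
      rw [Multiset.mem_toFinset, mem_roots hP1', IsRoot.def]
      have h6 : G1 w = 0 := hTs (by simpa using hw)
      rw [hG1q w] at h6
      rcases mul_eq_zero.1 h6 with h | h
      · exact h
      · exact absurd h (hz2 w (hρ w hw))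
    exact (Finset.card_le_card h5).trans (Multiset.toFinset_card_le _)
  obtain ⟨x4, hx4, hEMx⟩ := hEM
  -- a large bound
  obtain ⟨x5, hx5, hlog⟩ : ∃ x5 : ℝ, 1 ≤ x5 ∧ ∀ x : ℝ, x5 ≤ |x| →
      (2 / η + 1 + CP) * 2 ≤ c * Real.log |x| ∧ CP * 4 * η ≤ c * Real.log |x| := by
    have h5 : Tendsto (fun x : ℝ => c * Real.log x) atTop atTop := Real.tendsto_log_atTop.const_mul_atTop hc
    obtain ⟨x5, h6⟩ := (((h5.eventually_ge_atTop ((2 / η + 1 + CP) * 2)).and
      (h5.eventually_ge_atTop (CP * 4 * η))).and (eventually_ge_atTop 1)).exists_forall_of_atTop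
    exact ⟨x5, (h6 x5 le_rfl).2, fun x hx => (h6 |x| hx).1⟩
  refine ⟨max (max x2 x3) (max x4 x5), hx2.trans ((le_max_left _ _).trans (le_max_left _ _)), fun x hx => ?_⟩
  have hxx2 : x2 ≤ |x| := ((le_max_left _ _).trans (le_max_left _ _)).trans hx
  have hxx3 : x3 ≤ |x| := ((le_max_right _ _).trans (le_max_left _ _)).trans hx
  have hxx4 : x4 ≤ |x| := ((le_max_left _ _).trans (le_max_right _ _)).trans hx
  have hxx5 : x5 ≤ |x| := ((le_max_right _ _).trans (le_max_right _ _)).trans hx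
  have hx1 : 1 ≤ |x| := hx2.trans hxx2
  obtain ⟨hl1, hl2⟩ := hlog x hxx5
  obtain ⟨hXne, hXim⟩ := hLBx x hxx3
  set z : ℂ := (x : ℂ) + η * I with hz
  have hre : z.re = x := by simp [hz]
  have him : z.im = η := by simp [hz]
  obtain ⟨p0, -, p2, p3⟩ := hEP z (by rw [hre]; exact hxx2) (by rw [him, abs_of_pos hη]; exact hη2)
  obtain ⟨q0, q1⟩ := hEMx z (by rw [hre]; exact hxx4) (by rw [him]; exact hη) (by rw [him]; exact hη2)
  obtain ⟨g0, g1, g2⟩ := b1 G1 hR1 z (by rw [him]; exact hη)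
  obtain ⟨k0, k1, -⟩ := b1 G2 hR2 z (by rw [him]; exact hη)
  rw [hre] at p2 p3 q1
  rw [him] at q1 g2
  have hsq : 0 < |x| ^ 2 := by positivity
  set u : ℝ := -(logDeriv G1 z).im with hu
  -- lower bound for `u`
  have hu1 : 2 * (CP + 1) / |x| ^ 2 ≤ u := by
    have h5 : logDeriv G1 z = D1p (P1.map (algebraMap ℝ ℂ)) z + logDeriv G2 z :=
      logDeriv_mul_poly hR2.1 hG1q q0 k0
    have h6 : (((P1.map (algebraMap ℝ ℂ)).roots.card : ℕ) : ℝ) * η / (4 * |x| ^ 2) ≤ u := by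
      rw [hu, h5, Complex.add_im]
      linarith
    refine le_trans ?_ h6
    have h7 : 8 * (CP + 1) / η ≤ (((P1.map (algebraMap ℝ ℂ)).roots.card : ℕ) : ℝ) :=
      hM.trans (by exact_mod_cast hcard)
    rw [div_le_iff₀ hη] at h7
    rw [div_le_div_iff₀ hsq (by positivity)]
    nlinarith
  have hu0 : 0 < u := lt_of_lt_of_le (by positivity) hu1
  have hCu : 2 * (CP / |x| ^ 2) ≤ u := by
    refine le_trans ?_ hu1
    rw [← mul_div_assoc]
    gcongr
    linarith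
  -- `L = G'/G`
  have hGz : G z ≠ 0 := by rw [hGq z]; exact mul_ne_zero p0 g0
  have hL : logDeriv G z = D1p (P.map (algebraMap ℝ ℂ)) z + logDeriv G1 z :=
    logDeriv_mul_poly hR1.1 hGq p0 g0
  have hL2 : L2 G z = D2p (P.map (algebraMap ℝ ℂ)) z + L2 G1 z := L2_mul_poly hR1.1 hGq p0 g0
  obtain ⟨haL, hXL⟩ := logDeriv_X' hG hGz hXne
  have hL2b : ‖L2 G z‖ ≤ CP / |x| ^ 2 + u / η := by
    rw [hL2]
    refine (norm_add_le _ _).trans (add_le_add p3 ?_)
    rw [← deriv_logDeriv hR1.1 g0, le_div_iff₀ hη]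
    exact g2
  have hLim : u - CP / |x| ^ 2 ≤ ‖(a : ℂ) - logDeriv G z‖ := by
    refine le_trans ?_ (Complex.abs_im_le_norm _)
    rw [Complex.sub_im, Complex.ofReal_im, zero_sub, hL, Complex.add_im]
    have h5 := (abs_le.1 p2).2
    have h6 : u = -(logDeriv G1 z).im := hu
    refine le_trans ?_ (le_abs_self _)
    linarith
  have hq := quot_bound hη hu0 hCu hL2b hLim
  have hq' := (abs_le.1 ((Complex.abs_im_le_norm (L2 G z / ((a : ℂ) - logDeriv G z))).trans hq)).2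
  rw [hXL, Complex.sub_im, hL, Complex.add_im] at hXim
  rw [hL] at hq'
  have hCx : CP / |x| ^ 2 ≤ CP := div_le_self hCP (one_le_pow₀ hx1)
  have hul : c * Real.log |x| / 2 ≤ u := by
    have h5 := (abs_le.1 p2).1
    have h6 : u = -(logDeriv G1 z).im := hu
    linarith
  -- on the real line
  have hB := b2 G1 hR1 hs1 x η hη
  have hxe : ((x : ℂ) + η * I) = z := rfl
  rw [hxe, ← hu] at hB
  obtain ⟨r0, -, -, r3⟩ := hEP (x : ℂ) (by simpa using hxx2) (by simp)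
  rw [Complex.ofReal_re] at r3
  obtain ⟨y, hy⟩ : ∃ y : ℝ, (P.map (algebraMap ℝ ℂ)).eval (x : ℂ) = (y : ℂ) := by
    refine ⟨P.eval x, ?_⟩
    rw [← aeval_eq]
    have h5 := Polynomial.aeval_algebraMap_apply ℂ x P
    rw [Polynomial.coe_aeval_eq_eval] at h5
    exact h5
  have hid : (deriv G x) ^ 2 - G x * deriv (deriv G) x =
      ((y ^ 2 : ℝ) : ℂ) * ((deriv G1 x) ^ 2 - G1 x * deriv (deriv G1) x) -
      (G1 x ^ 2 * (y : ℂ) ^ 2) * D2p (P.map (algebraMap ℝ ℂ)) x := by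
    have hy0 : (y : ℂ) ≠ 0 := by rw [← hy]; exact r0
    rw [deriv2_mul_poly hR1.1 hGq, deriv_mul_poly hR1.1 hGq, hGq x, D2p]
    beta_reduce
    rw [hy]
    push_cast
    generalize (derivative (derivative (Polynomial.map (algebraMap ℝ ℂ) P))).eval (x : ℂ) = p2
    generalize (derivative (Polynomial.map (algebraMap ℝ ℂ) P)).eval (x : ℂ) = p1
    generalize deriv (deriv G1) (x : ℂ) = g2
    generalize deriv G1 (x : ℂ) = g1
    generalize G1 (x : ℂ) = g0
    field_simp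
    ring
  have hnG : ‖G x‖ ^ 2 = ‖G1 x‖ ^ 2 * y ^ 2 := by
    rw [hGq x, hy, norm_mul, Complex.norm_real, mul_pow, Real.norm_eq_abs, sq_abs]
    ring
  rw [hid, Complex.sub_re, Complex.re_ofReal_mul, hnG]
  have h8 : ((G1 x ^ 2 * (y : ℂ) ^ 2) * D2p (P.map (algebraMap ℝ ℂ)) x).re ≤
      ‖G1 x‖ ^ 2 * y ^ 2 * CP := by
    refine (Complex.re_le_norm _).trans ?_
    rw [norm_mul, norm_mul, norm_pow, norm_pow, Complex.norm_real, Real.norm_eq_abs, sq_abs]
    exact mul_le_mul_of_nonneg_left (r3.trans hCx) (by positivity)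
  set W : ℝ := ((deriv G1 x) ^ 2 - G1 x * deriv (deriv G1) x).re with hW
  have h9 : c * Real.log |x| / 2 * ‖G1 x‖ ^ 2 ≤ η * W :=
    (mul_le_mul_of_nonneg_right hul (sq_nonneg _)).trans hB
  have hlogn : 0 ≤ Real.log |x| := Real.log_nonneg hx1
  -- combine
  have h10 : (A * Real.log |x| + CP) * ‖G1 x‖ ^ 2 ≤ W := by
    rw [← mul_le_mul_iff_right₀ hη]
    refine le_trans ?_ h9
    rw [← mul_assoc]
    apply mul_le_mul_of_nonneg_right _ (sq_nonneg _)
    have h11 : η * (4 * (|A| + 1)) * Real.log |x| ≤ c * Real.log |x| :=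
      mul_le_mul_of_nonneg_right hηA hlogn
    have h12 : η * A * Real.log |x| ≤ η * |A| * Real.log |x| := by
      gcongr
      exact le_abs_self A
    have h13 : 0 ≤ η * Real.log |x| := by positivity
    nlinarith
  have h14 := mul_le_mul_of_nonneg_left h10 (sq_nonneg y)
  nlinarith

end Pool.Agent.N963.GN
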